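import Mathlib
import Pool.Agent.TH881.RG.Cl

/-! Prime values of `N + σ g(n)`, the arguments `n` in a dense set of integers or of primes:
local definitions. -/

set_option autoImplicit false

namespace Pool.Agent.TH881.RQ

open Finset Filter Topology Polynomial
open Pool.Agent.TH881
open Pool.Agent.TH881.RG
open Pool.Agent.H373R2.T7

/-- the arguments: the primes if `pr` is true, all natural numbers otherwise -/
def isArg (pr : Bool) (n : ℕ) : Prop := pr = true → n.Prime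

open Classical in
/-- the residue classes of the arguments modulo `Wp w` -/
noncomputable def AA (pr : Bool) (w : ℕ) : Finset (ZMod (Wp w)) :=
  univ.filter (fun a => pr = true → IsUnit a)

/-- the value of `g` at a residue class -/
noncomputable def gv (g : ℤ[X]) (w : ℕ) (a : ZMod (Wp w)) : ZMod (Wp w) :=
  (g.map (Int.castRingHom (ZMod (Wp w)))).eval a

/-- `t + σ g(a)` is a unit -/
def gd (g : ℤ[X]) (σ : ℤ) (w : ℕ) (t a : ZMod (Wp w)) : Prop :=
  IsUnit (t + (σ : ZMod (Wp w)) * gv g w a)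

open Classical in
/-- the proportion of the classes `a` of arguments for which `t + σ g(a)` is a unit -/
noncomputable def wtq (pr : Bool) (g : ℤ[X]) (σ : ℤ) (w : ℕ) (t : ZMod (Wp w)) : ℝ :=
  (((AA pr w).filter (fun a => gd g σ w t a)).card : ℝ) / (AA pr w).card

open Classical in
/-- the sum of the weights `e t` over the `t` for which `t + σ g(a)` is a unit -/
noncomputable def rrq (g : ℤ[X]) (σ : ℤ) (w : ℕ) (e : ZMod (Wp w) → ℝ) (a : ZMod (Wp w)) : ℝ :=
  ∑ t : ZMod (Wp w), if gd g σ w t a then e t else 0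

/-- the number of classes of arguments modulo `p` -/
def Aq (pr : Bool) (p : ℕ) : ℕ := if pr = true then p - 1 else p

open Classical in
/-- the number of the arguments `a` modulo `p` with `g(a) ≡ t` -/
noncomputable def nuq (pr : Bool) (g : ℤ[X]) (p t : ℕ) : ℕ :=
  ((range p).filter (fun a => (pr = true → ¬ p ∣ a) ∧ (p : ℤ) ∣ g.eval (a : ℤ) - t)).card

open Classical in
/-- the largest number of roots (smaller than the number of all arguments) -/
noncomputable def mq (pr : Bool) (g : ℤ[X]) (p : ℕ) : ℕ :=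
  ((range p).filter (fun t => nuq pr g p t < Aq pr p)).sup (nuq pr g p)

/-- the largest proportion of roots -/
noncomputable def uq (pr : Bool) (g : ℤ[X]) (p : ℕ) : ℝ := (mq pr g p : ℝ) / Aq pr p

/-- moments of the local factors -/
noncomputable def MMq (u : ℕ → ℝ) (K k w : ℕ) : ℝ :=
  ∏ p ∈ pz w, (1 + ((K : ℝ) / ((p : ℝ) - 1)) * ((1 / (1 - u p)) ^ k - 1))

/-- the smallest proportion -/
noncomputable def Phq (u : ℕ → ℝ) (w : ℕ) : ℝ := ∏ p ∈ pz w, (1 - u p)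

/-- the moment inequality -/
def StMIq (pr : Bool) (g : ℤ[X]) (σ : ℤ) : Prop :=
    ∀ w K k : ℕ, 1 ≤ K → 1 ≤ k → ∀ e : ZMod (Wp w) → ℝ,
    (∀ t, 0 ≤ e t) → (∀ t, e t ≤ 1) → ∀ S : ℝ, S = ∑ t, e t * wtq pr g σ w t → 0 < S →
    (∑ a ∈ AA pr w, rrq g σ w e a ^ K) / (AA pr w).card ≤
      S ^ K * (((Nat.totient (Wp w) : ℝ) / S) ^ K * MMq (uq pr g) K k w ^ (K - 1)) ^ (1 / (k : ℝ))

/-- lower bound for the weighted sum -/
def StWLq (pr : Bool) (g : ℤ[X]) (σ : ℤ) : Prop :=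
    ∃ c : ℝ, 0 < c ∧ ∀ w : ℕ, ∀ e : ZMod (Wp w) → ℝ,
    (∀ t, 0 ≤ e t) → (∀ t, e t ≤ 1) → (∀ t, wtq pr g σ w t = 0 → e t = 0) →
    c * ((∑ t, e t) / Wp w) ^ 2 ≤ (∑ t, e t * wtq pr g σ w t) / Nat.totient (Wp w)

/-- the expected number of arguments up to `X` in a class -/
noncomputable def ppq (pr : Bool) (w X : ℕ) : ℝ :=
  (X : ℝ) / ((AA pr w).card * (if pr = true then Real.log X else 1))

open Classical in
/-- moments of the local factors over the arguments of a class -/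
def StPMq (pr : Bool) (g : ℤ[X]) : Prop := ∀ J E : ℕ, ∃ w0 : ℕ, ∀ w : ℕ, w0 ≤ w →
    ∃ X0 : ℕ, ∀ X : ℕ, X0 ≤ X → ∀ z : ℕ, (z : ℝ) ≤ Real.log X ^ E →
    ∀ a b : ℕ, √(X : ℝ) < b → b ≤ X →
    ∑ b' ∈ (Icc 1 X).filter (fun b' => isArg pr b' ∧ √(X : ℝ) < b' ∧ b' ≡ a [MOD Wp w] ∧ b' ≠ b),
      gw w z (g.eval (b' : ℤ) - g.eval (b : ℤ)).natAbs ^ J ≤ 100 * ppq pr w X

/-- the Mertens type bound for the moments -/
def StMBq (u : ℕ → ℝ) : Prop := ∀ (K : ℕ) (δ : ℝ), 0 < δ → ∃ k0 : ℕ, ∀ k : ℕ, k0 ≤ k → ∀ w : ℕ,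
    MMq u K k w ^ (1 / (k : ℝ)) ≤ (1 + δ) * (Phq u k)⁻¹

end Pool.Agent.TH881.RQ
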