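import Mathlib
import Pool.Agent.TH881.RQ.Defs

/-! Dual local definitions, densities. -/

set_option autoImplicit false

namespace Pool.Agent.TH881.RQ

open Finset Filter Topology Polynomial
open Pool.Agent.TH881
open Pool.Agent.TH881.RG
open Pool.Agent.H373R2.T7

open Classical in
/-- the sum of the weights `β a` over the classes `a` of arguments for which `t + σ g(a)` is a unit -/
noncomputable def rrd (pr : Bool) (g : ℤ[X]) (σ : ℤ) (w : ℕ) (β : ZMod (Wp w) → ℝ) (t : ZMod (Wp w)) : ℝ :=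
  ∑ a ∈ AA pr w, if gd g σ w t a then β a else 0

/-- the largest proportion of the arguments in a fibre of `g` modulo `p` -/
noncomputable def ubq (pr : Bool) (g : ℤ[X]) (p : ℕ) : ℝ :=
  (((range p).sup (nuq pr g p) : ℕ) : ℝ) / Aq pr p

/-- moments of the dual local factors -/
noncomputable def MMd (u : ℕ → ℝ) (K k w : ℕ) : ℝ :=
  ∏ p ∈ pz w, (1 + (K : ℝ) * u p * (((p : ℝ) / ((p : ℝ) - 1)) ^ k - 1))

/-- the dual moment inequality -/
def StMId (pr : Bool) (g : ℤ[X]) (σ : ℤ) : Prop :=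
    ∀ w K k : ℕ, 1 ≤ K → 1 ≤ k → ∀ β : ZMod (Wp w) → ℝ,
    (∀ a, 0 ≤ β a) → (∀ a, β a ≤ 1) → ∀ S : ℝ, S = ∑ a ∈ AA pr w, β a * Vz w → 0 < S →
    (∑ t, rrd pr g σ w β t ^ K) / (Wp w : ℝ) ≤
      S ^ K * ((((AA pr w).card * Vz w) / S) ^ K * MMd (ubq pr g) K k w ^ (K - 1)) ^ (1 / (k : ℝ))

/-- the Mertens type bound for the dual moments -/
def StMBd (u : ℕ → ℝ) : Prop := ∀ (K : ℕ) (δ : ℝ), 0 < δ → ∃ k0 : ℕ, ∀ k : ℕ, k0 ≤ k → ∀ w : ℕ,
    MMd u K k w ^ (1 / (k : ℝ)) ≤ (1 + δ) * (Vz k)⁻¹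

/-- relative lower density of `A` in the arguments -/
noncomputable def relq (pr : Bool) (A : Set ℕ) : ℝ :=
  liminf (fun x : ℕ => (cnt {n | isArg pr n ∧ n ∈ A} x : ℝ) / (cnt {n | isArg pr n} x : ℝ)) atTop

/-- the `N` for which `N + σ g(n)` is prime for some argument `n` in `A` -/
def hit (pr : Bool) (g : ℤ[X]) (σ : ℤ) (A : Set ℕ) : Set ℕ :=
  {N | ∃ n : ℕ, isArg pr n ∧ n ∈ A ∧ ((N : ℤ) + σ * g.eval (n : ℤ)).toNat.Prime}

/-- the `N` without local obstruction -/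
def adm (pr : Bool) (g : ℤ[X]) (σ : ℤ) : Set ℕ :=
  {N | ∀ p : ℕ, p.Prime → ∃ n : ℕ, (pr = true → ¬ p ∣ n) ∧ ¬ (p : ℤ) ∣ (N : ℤ) + σ * g.eval (n : ℤ)}

open Classical in
/-- the classes `t` for which `t + σ g(a)` is a unit for some `a ∈ B` -/
noncomputable def sumq (g : ℤ[X]) (σ : ℤ) (w : ℕ) (B : Finset (ZMod (Wp w))) : Finset (ZMod (Wp w)) :=
  univ.filter (fun t => ∃ a ∈ B, gd g σ w t a)

/-- the least possible lower density of `hit pr g σ A` for `A` of relative lower density `≥ β` -/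
noncomputable def FFq (pr : Bool) (g : ℤ[X]) (σ : ℤ) (β : ℝ) : ℝ :=
  sInf {d | ∃ A : Set ℕ, β ≤ relq pr A ∧ d = lowerDensity (hit pr g σ A)}

/-- the local version of `FFq` -/
noncomputable def Flocq (pr : Bool) (g : ℤ[X]) (σ : ℤ) (β : ℝ) : ℝ := sInf {d | ∃ w : ℕ, ∃ B ⊆ AA pr w,
  β * (AA pr w).card ≤ B.card ∧ d = ((sumq g σ w B).card : ℝ) / Wp w}

/-- the expected number of arguments of a class, relative densities of a set of arguments in the classes -/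
noncomputable def bbq (pr : Bool) (w X : ℕ) (K : Finset ℕ) (a : ZMod (Wp w)) : ℝ :=
  ((cls w K a).card : ℝ) / ppq pr w X

/-- the main term for one pair of classes -/
noncomputable def YYq (pr : Bool) (w X H : ℕ) : ℝ := (Vz w)⁻¹ * ((H : ℝ) / Wp w) * ppq pr w X

end Pool.Agent.TH881.RQ
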