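import Mathlib
import Pool.Agent.TH881.RQ.Defs2
import Pool.Agent.TH881.RG.Mix
import Pool.Agent.TH882.BilG

/-! Average of the local factors over a subset of the arguments in a class. -/

set_option autoImplicit false

namespace Pool.Agent.TH881.RQ

open Finset Filter Topology Polynomial
open Pool.Agent.TH881
open Pool.Agent.TH881.RG
open Pool.Agent.H373R2.T7
open Pool.Agent.TH882.PG (thI thI_nonneg bilG)

lemma AA_card_pos (pr : Bool) (w : ℕ) : (0 : ℝ) < (AA pr w).card := by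
  classical
  have h : 0 < (AA pr w).card := by
    apply card_pos.2
    refine ⟨1, ?_⟩
    unfold AA
    rw [mem_filter]
    exact ⟨mem_univ _, fun _ => isUnit_one⟩
  exact_mod_cast h

lemma AA_card_le (pr : Bool) (w : ℕ) : ((AA pr w).card : ℝ) ≤ Wp w := by
  classical
  have h : (AA pr w).card ≤ Wp w := by
    have h1 := card_le_univ (AA pr w)
    rwa [ZMod.card] at h1
  exact_mod_cast h

lemma ppq_nonneg (pr : Bool) (w X : ℕ) : 0 ≤ ppq pr w X := by
  unfold ppq
  have h1 := (AA_card_pos pr w).le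
  have h2 := Real.log_natCast_nonneg X
  apply div_nonneg (Nat.cast_nonneg _)
  apply mul_nonneg h1
  split_ifs
  · exact h2
  · exact zero_le_one

/-- lower bound for the expected number of arguments -/
lemma ppq_ge (pr : Bool) (w X : ℕ) (hX : 1 ≤ Real.log X) : (X : ℝ) / (Wp w * Real.log X) ≤ ppq pr w X := by
  unfold ppq
  have h1 := AA_card_pos pr w
  have h2 := AA_card_le pr w
  have h3 : (0 : ℝ) < (if pr = true then Real.log X else 1) := by
    split_ifs
    · linarith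
    · exact zero_lt_one
  apply div_le_div_of_nonneg_left (Nat.cast_nonneg _) (mul_pos h1 h3)
  apply mul_le_mul h2 _ h3.le (h1.le.trans h2)
  split_ifs
  · exact le_rfl
  · exact hX

lemma avgq (pr : Bool) (g : ℤ[X]) (hPM : StPMq pr g) (J E : ℕ) (hJ : 1 ≤ J) : ∃ w0 : ℕ, ∀ w : ℕ, w0 ≤ w →
    ∃ X0 : ℕ, ∀ X : ℕ, X0 ≤ X → ∀ z : ℕ, (z : ℝ) ≤ Real.log X ^ E →
    ∀ K : Finset ℕ, (∀ n ∈ K, isArg pr n ∧ √(X : ℝ) < n ∧ n ≤ X) →
    (∀ n ∈ K, ∀ n' ∈ K, n ≡ n' [MOD Wp w]) →
    ∀ κ : ℝ, 0 < κ → κ * ppq pr w X ≤ K.card →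
    ∀ b ∈ K, ∑ b' ∈ K.erase b, gw w z (g.eval (b' : ℤ) - g.eval (b : ℤ)).natAbs ≤
      K.card * (100 / κ) ^ (1 / (J : ℝ)) := by
  classical
  obtain ⟨w0, h0⟩ := hPM J E
  refine ⟨w0, fun w hw => ?_⟩
  obtain ⟨X0, h1⟩ := h0 w hw
  refine ⟨X0, fun X hX z hz K hK hc κ hκ hcard b hb => ?_⟩
  have h2 := h1 X hX z hz b b (hK b hb).2.1 (hK b hb).2.2
  have hBc : 0 < K.card := card_pos.2 ⟨b, hb⟩
  have hBr : (0 : ℝ) < K.card := by exact_mod_cast hBc
  have h3 : ∑ b' ∈ K.erase b, gw w z (g.eval (b' : ℤ) - g.eval (b : ℤ)).natAbs ^ J ≤ 100 * ppq pr w X := by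
    refine le_trans ?_ h2
    apply sum_le_sum_of_subset_of_nonneg
    · intro x hx
      rw [mem_erase] at hx
      have h4 := hK x hx.2
      rw [mem_filter, mem_Icc]
      refine ⟨⟨?_, h4.2.2⟩, h4.1, h4.2.1, hc x hx.2 b hb, hx.1⟩
      have h5 : (0 : ℝ) < x := lt_of_le_of_lt (Real.sqrt_nonneg _) h4.2.1
      exact_mod_cast h5
    · intro x _ _
      exact pow_nonneg (zero_le_one.trans (one_le_gw w z _)) J
  obtain ⟨n, rfl⟩ : ∃ n, J = n + 1 := ⟨J - 1, by omega⟩
  have h4 := pow_sum_div_card_le_sum_pow (s := K.erase b)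
    (f := fun b' => gw w z (g.eval (b' : ℤ) - g.eval (b : ℤ)).natAbs)
    (fun b' _ => zero_le_one.trans (one_le_gw _ _ _)) n
  set Sg := ∑ b' ∈ K.erase b, gw w z (g.eval (b' : ℤ) - g.eval (b : ℤ)).natAbs with hSg
  have hSg0 : 0 ≤ Sg := sum_nonneg fun b' _ => zero_le_one.trans (one_le_gw _ _ _)
  have h6 : 100 * ppq pr w X ≤ K.card * (100 / κ) := by
    calc 100 * ppq pr w X = (κ * ppq pr w X) * (100 / κ) := by
          field_simp
      _ ≤ _ := mul_le_mul_of_nonneg_right hcard (by positivity)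
  have h5 : Sg ^ (n + 1) ≤ (K.card : ℝ) ^ (n + 1) * (100 / κ) := by
    rcases Nat.eq_zero_or_pos (K.erase b).card with h0 | h0
    · have : K.erase b = ∅ := card_eq_zero.1 h0
      rw [hSg, this, sum_empty, zero_pow (by omega)]
      positivity
    · have h0r : (0 : ℝ) < (K.erase b).card := by exact_mod_cast h0
      rw [div_le_iff₀ (by positivity)] at h4
      have h7 : ((K.erase b).card : ℝ) ≤ K.card := by exact_mod_cast card_le_card (erase_subset b K)
      have h8 : ((K.erase b).card : ℝ) ^ n ≤ (K.card : ℝ) ^ n := pow_le_pow_left₀ h0r.le h7 n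
      calc Sg ^ (n + 1) ≤ _ := h4
        _ ≤ (K.card * (100 / κ)) * (K.card : ℝ) ^ n := by
            apply mul_le_mul (h3.trans h6) h8 (by positivity) (by positivity)
        _ = _ := by ring
  have hpos : 0 < 100 / κ := by positivity
  have h9 : (K.card * (100 / κ) ^ (1 / ((n + 1 : ℕ) : ℝ))) ^ (n + 1) = (K.card : ℝ) ^ (n + 1) * (100 / κ) := by
    rw [mul_pow]
    congr 1
    rw [← Real.rpow_natCast, ← Real.rpow_mul hpos.le, one_div, inv_mul_cancel₀ (by positivity), Real.rpow_one]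
  rw [← h9] at h5
  exact le_of_pow_le_pow_left₀ (by omega) (by positivity) h5

end Pool.Agent.TH881.RQ
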