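import Mathlib
import Pool.Agent.TH881.RQ.Avg

/-! Mixing for the values `N + σ g(n)`. -/

set_option autoImplicit false

namespace Pool.Agent.TH881.RQ

open Finset Filter Topology Polynomial
open Pool.Agent.TH881
open Pool.Agent.TH881.RG
open Pool.Agent.H373R2.T7
open Pool.Agent.TH882.PG (thI thI_nonneg bilG)

/-- variance from the first two moments -/
lemma var_bound {ι : Type} (I : Finset ι) (f : ι → ℝ) (m h ε : ℝ) (hm : 0 < m) (hε : 0 < ε) (hε1 : ε ≤ 1 / 16)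
    (hI : (I.card : ℝ) ≤ h + 1) (hh : 1 ≤ ε * h) (hS1 : (1 - ε) * (m * h) ≤ ∑ n ∈ I, f n)
    (hS2 : ∑ n ∈ I, f n ^ 2 ≤ (1 + 6 * ε) * (m ^ 2 * h)) :
    ∑ n ∈ I, (f n - m) ^ 2 ≤ 10 * ε * (m ^ 2 * h) := by
  have h0 : 0 < h := by
    by_contra hc
    push Not at hc
    have : ε * h ≤ 0 := mul_nonpos_of_nonneg_of_nonpos hε.le hc
    linarith
  have e1 : ∑ n ∈ I, (f n - m) ^ 2 = ∑ n ∈ I, f n ^ 2 - 2 * m * ∑ n ∈ I, f n + (I.card : ℝ) * m ^ 2 := by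
    rw [mul_sum, ← nsmul_eq_mul, ← sum_const, ← sum_sub_distrib, ← sum_add_distrib]
    apply sum_congr rfl
    intro n _
    ring
  rw [e1]
  have e2 : (I.card : ℝ) * m ^ 2 ≤ (1 + ε) * (m ^ 2 * h) := by
    calc (I.card : ℝ) * m ^ 2 ≤ (h + 1) * m ^ 2 := mul_le_mul_of_nonneg_right hI (by positivity)
      _ ≤ ((1 + ε) * h) * m ^ 2 := by
          apply mul_le_mul_of_nonneg_right _ (by positivity)
          linarith
      _ = _ := by ring
  have e3 : 2 * m * ((1 - ε) * (m * h)) ≤ 2 * m * ∑ n ∈ I, f n := mul_le_mul_of_nonneg_left hS1 (by positivity)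
  have e4 : 2 * m * ((1 - ε) * (m * h)) = (2 - 2 * ε) * (m ^ 2 * h) := by ring
  rw [e4] at e3
  have e8 : (1 + 6 * ε) * (m ^ 2 * h) - (2 - 2 * ε) * (m ^ 2 * h) + (1 + ε) * (m ^ 2 * h) =
      9 * ε * (m ^ 2 * h) := by ring
  have e9 : 0 ≤ ε * (m ^ 2 * h) := by positivity
  linarith

/-- algebra for the second moment -/
lemma S2_alg {C v h ε LV s Z Γ S2 : ℝ} (hC : 0 < C) (hv : 1 ≤ v) (hε : 0 < ε) (hε1 : ε ≤ 1 / 16) (hh : 1 ≤ ε * h)
    (hΓ : Γ = 1 + ε) (hL : (h + 1) / LV ≤ ε * h) (hs : s ≤ ε * h) (hZ0 : 0 ≤ Z) (hZ : 2 * Z ≤ ε * C)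
    (h1 : S2 ≤ (h + 1) * (v * C) ^ 2 * Γ + C ^ 2 * ((h + 1) / LV + s) + C * ((h + 1) * Z)) :
    S2 ≤ (1 + 6 * ε) * ((v * C) ^ 2 * h) := by
  have h0 : 0 < h := by
    by_contra hc
    push Not at hc
    have : ε * h ≤ 0 := mul_nonpos_of_nonneg_of_nonpos hε.le hc
    linarith
  have hm : C ^ 2 ≤ (v * C) ^ 2 := by
    apply pow_le_pow_left₀ hC.le
    exact le_mul_of_one_le_left hC.le hv
  have hm0 : 0 < (v * C) ^ 2 := by positivity
  have e1 : (h + 1) * (v * C) ^ 2 * Γ ≤ (1 + ε) * (1 + ε) * ((v * C) ^ 2 * h) := by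
    rw [hΓ]
    calc (h + 1) * (v * C) ^ 2 * (1 + ε) ≤ ((1 + ε) * h) * (v * C) ^ 2 * (1 + ε) := by
          apply mul_le_mul_of_nonneg_right _ (by linarith)
          apply mul_le_mul_of_nonneg_right _ hm0.le
          linarith
      _ = _ := by ring
  have e2 : C ^ 2 * ((h + 1) / LV + s) ≤ 2 * ε * ((v * C) ^ 2 * h) := by
    calc C ^ 2 * ((h + 1) / LV + s) ≤ C ^ 2 * (2 * ε * h) := by
          apply mul_le_mul_of_nonneg_left _ (by positivity)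
          linarith
      _ = 2 * ε * (C ^ 2 * h) := by ring
      _ ≤ 2 * ε * ((v * C) ^ 2 * h) := by
          apply mul_le_mul_of_nonneg_left _ (by positivity)
          exact mul_le_mul_of_nonneg_right hm h0.le
  have hh1 : 1 ≤ h := by
    have : ε * h ≤ 1 * h := mul_le_mul_of_nonneg_right (by linarith) h0.le
    linarith
  have e3 : C * ((h + 1) * Z) ≤ ε * ((v * C) ^ 2 * h) := by
    calc C * ((h + 1) * Z) ≤ C * ((2 * h) * Z) := by
          apply mul_le_mul_of_nonneg_left _ hC.le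
          exact mul_le_mul_of_nonneg_right (by linarith) hZ0
      _ = (C * h) * (2 * Z) := by ring
      _ ≤ (C * h) * (ε * C) := mul_le_mul_of_nonneg_left hZ (by positivity)
      _ = ε * (C ^ 2 * h) := by ring
      _ ≤ ε * ((v * C) ^ 2 * h) := by
          apply mul_le_mul_of_nonneg_left _ hε.le
          exact mul_le_mul_of_nonneg_right hm h0.le
  have e4 : (1 + ε) * (1 + ε) ≤ 1 + 3 * ε := by nlinarith
  have e5 : (1 + ε) * (1 + ε) * ((v * C) ^ 2 * h) ≤ (1 + 3 * ε) * ((v * C) ^ 2 * h) :=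
    mul_le_mul_of_nonneg_right e4 (by positivity)
  nlinarith

/-- largeness conditions -/
lemma numq (d B0 w W G : ℕ) (hd : 1 ≤ d) (hW : 1 ≤ W) (hG : 1 ≤ G) (κ ρ ε ε1 : ℝ) (hκ : 0 < κ) (hρ : 0 < ρ)
    (hε : 0 < ε) (hε1 : 0 < ε1) : ∃ X0 : ℕ, ∀ X : ℕ, X0 ≤ X →
    4 ≤ Real.log X ∧ (W : ℝ) ≤ Real.log X ∧ (w : ℝ) ≤ Real.log X ∧
    2 * G * (W : ℝ) ^ 2 / (ε1 * ρ) ^ 2 ≤ X ∧
    4 * G * (W : ℝ) / (ε1 * ρ) ≤ Real.log X ∧ 2 / ε1 ≤ Real.log X ∧
    2 * Real.log X ^ (2 * (B0 + 2)) ≤ ε1 * (κ * ((X : ℝ) / (W * Real.log X))) ∧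
    2 * (W : ℝ) ^ 2 / (ε * ρ * κ) ≤ Real.log X := by
  have hlim : Tendsto (fun N : ℕ => Real.log (N : ℝ)) atTop atTop :=
    Real.tendsto_log_atTop.comp (tendsto_natCast_atTop_atTop (R := ℝ))
  have hev : ∀ᶠ X : ℕ in atTop, 2 * Real.log X ^ (2 * (B0 + 2)) ≤ ε1 * (κ * ((X : ℝ) / (W * Real.log X))) := by
    have hc : 0 < ε1 * κ / (2 * W) := by positivity
    have h := (isLittleO_log_rpow_rpow_atTop ((2 * (B0 + 2) + 1 : ℕ) : ℝ) (show (0 : ℝ) < 1 by norm_num)).bound hc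
    have h2 := (tendsto_natCast_atTop_atTop (R := ℝ)).eventually h
    filter_upwards [h2, eventually_ge_atTop 3] with x h3 hx
    have hx1 : (3 : ℝ) ≤ x := by exact_mod_cast hx
    have hl : 0 < Real.log x := Real.log_pos (by linarith)
    rw [Real.norm_of_nonneg (by positivity), Real.norm_of_nonneg (by positivity), Real.rpow_natCast, Real.rpow_one] at h3
    have hWr : (0 : ℝ) < W := by exact_mod_cast hW
    rw [← mul_div_assoc, ← mul_div_assoc, le_div_iff₀ (by positivity)]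
    calc 2 * Real.log x ^ (2 * (B0 + 2)) * (W * Real.log x) = (2 * W) * Real.log x ^ (2 * (B0 + 2) + 1) := by
          rw [pow_succ]; ring
      _ ≤ (2 * W) * (ε1 * κ / (2 * W) * x) := mul_le_mul_of_nonneg_left h3 (by positivity)
      _ = ε1 * (κ * x) := by field_simp
  obtain ⟨X0, h0⟩ := eventually_atTop.1 (((hlim.eventually_ge_atTop 4).and (hlim.eventually_ge_atTop (W : ℝ))).and
    (((hlim.eventually_ge_atTop (w : ℝ)).and ((tendsto_natCast_atTop_atTop (R := ℝ)).eventually_ge_atTop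
      (2 * G * (W : ℝ) ^ 2 / (ε1 * ρ) ^ 2))).and (((hlim.eventually_ge_atTop (4 * G * (W : ℝ) / (ε1 * ρ))).and
      (hlim.eventually_ge_atTop (2 / ε1))).and (hev.and (hlim.eventually_ge_atTop (2 * (W : ℝ) ^ 2 / (ε * ρ * κ)))))))
  refine ⟨X0, fun X hX => ?_⟩
  obtain ⟨⟨a1, a2⟩, ⟨a3, a4⟩, ⟨a5, a6⟩, a7, a8⟩ := h0 X hX
  exact ⟨a1, a2, a3, a4, a5, a6, a7, a8⟩

end Pool.Agent.TH881.RQ
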