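import Mathlib
import Pool.Agent.TH881.RQ.Mix

/-! Mixing for the values `N + σ g(n)`: the core. -/

set_option autoImplicit false

namespace Pool.Agent.TH881.RQ

open Finset Filter Topology Polynomial
open Pool.Agent.TH881
open Pool.Agent.TH881.RG
open Pool.Agent.H373R2.T7
open Pool.Agent.TH882.PG (thI thI_nonneg bilG)

lemma mem_It {w M H t n : ℕ} : n ∈ It w M H t ↔ (M < n ∧ n ≤ M + H) ∧ n ≡ t [MOD Wp w] := by
  unfold It
  rw [mem_filter, mem_Ioc]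

lemma sum_It_shift (w M H t c : ℕ) (F : ℕ → ℝ) :
    ∑ N ∈ It w M H t, F (N + c) = ∑ n ∈ It w (M + c) H (t + c), F n := by
  apply sum_bij (fun n _ => n + c)
  · intro n hn
    rw [mem_It] at hn ⊢
    exact ⟨by omega, hn.2.add_right c⟩
  · intro a _ b _ hab
    omega
  · intro n hn
    rw [mem_It] at hn
    refine ⟨n - c, ?_, by omega⟩
    rw [mem_It]
    refine ⟨by omega, ?_⟩
    have h1 : n - c + c ≡ t + c [MOD Wp w] := by
      rw [Nat.sub_add_cancel (by omega)]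
      exact hn.2
    exact Nat.ModEq.add_right_cancel' c h1
  · intro n _
    rfl

lemma cv_image (f : ℕ → ℝ) (K : Finset ℕ) (b : ℕ → ℕ) (hb : Set.InjOn b K) (n : ℕ) (h : ∀ k ∈ K, b k < n) :
    cv f (K.image b) n = ∑ k ∈ K, f (n - b k) := by
  classical
  unfold cv
  rw [filter_true_of_mem, sum_image hb]
  intro x hx
  rw [mem_image] at hx
  obtain ⟨k, hk, rfl⟩ := hx
  exact h k hk

/-- the core of the mixing lemma -/
lemma core (w z : ℕ) (M H t c : ℕ) (K : Finset ℕ) (b : ℕ → ℕ) (hb : Set.InjOn b K) (hbM : ∀ n ∈ K, b n ≤ M + c)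
    (NN LV ε ε1 : ℝ) (hε : 0 < ε) (hε1 : ε1 = ε ^ 2 / 100) (hε1' : ε < 1)
    (hMt : M < t) (htM : t ≤ M + Wp w) (hK0 : 0 < K.card)
    (hsec : ∑ n ∈ It w (M + c) H (t + c), cv (lamz z) (K.image b) n ^ 2 ≤
      ((H : ℝ) / Wp w + 1) * ((Vz w)⁻¹ * K.card) ^ 2 * (1 + ε1) +
      (K.card : ℝ) ^ 2 * (((H : ℝ) / Wp w + 1) / LV + √NN) +
      (K.card : ℝ) * (((H : ℝ) / Wp w + 1) * (z : ℝ) ^ 2))
    (hfir : (K.card : ℝ) * ((Vz w)⁻¹ * (H / Wp w) - 2 * (NN / LV)) ≤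
      ∑ n ∈ It w (M + c) H (t + c), cv (lamz z) (K.image b) n)
    (h1 : 1 ≤ ε1 * ((H : ℝ) / Wp w)) (h2 : √NN ≤ ε1 * ((H : ℝ) / Wp w)) (h3 : 2 * (NN / LV) ≤ ε1 * ((H : ℝ) / Wp w))
    (h4 : ((H : ℝ) / Wp w + 1) / LV ≤ ε1 * ((H : ℝ) / Wp w)) (h5 : 2 * (z : ℝ) ^ 2 ≤ ε1 * K.card)
    (E : Finset ℕ) (hE : E ⊆ It w M H t) :
    |∑ N ∈ E, ∑ n ∈ K, lamz z (N + c - b n) - E.card * ((Vz w)⁻¹ * K.card)| ≤
      (ε / 2) * (((H : ℝ) / Wp w) * ((Vz w)⁻¹ * K.card)) := by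
  classical
  have hε2 : ε ^ 2 ≤ ε := by nlinarith
  have he0 : 0 < ε1 := by rw [hε1]; positivity
  have he1 : ε1 ≤ 1 / 16 := by rw [hε1]; linarith
  have hC : (0 : ℝ) < K.card := by exact_mod_cast hK0
  have hv1 : 1 ≤ (Vz w)⁻¹ := (one_le_inv₀ (Vz_pos w)).2 (Vz_le_one w)
  have hv0 : 0 < (Vz w)⁻¹ := inv_pos.2 (Vz_pos w)
  obtain ⟨h, hh⟩ : ∃ h : ℝ, h = (H : ℝ) / Wp w := ⟨_, rfl⟩
  rw [← hh] at hsec hfir h1 h2 h3 h4 ⊢
  obtain ⟨m, hm⟩ : ∃ m : ℝ, m = (Vz w)⁻¹ * (K.card : ℝ) := ⟨_, rfl⟩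
  have hm0 : 0 < m := by rw [hm]; positivity
  have h0 : 0 < h := by
    by_contra hc
    push Not at hc
    have : ε1 * h ≤ 0 := mul_nonpos_of_nonneg_of_nonpos he0.le hc
    linarith
  -- back to the window
  obtain ⟨f, hf⟩ : ∃ f : ℕ → ℝ, f = fun N => ∑ n ∈ K, lamz z (N + c - b n) := ⟨_, rfl⟩
  have hcvf : ∀ N ∈ It w M H t, cv (lamz z) (K.image b) (N + c) = f N := by
    intro N hN
    rw [mem_It] at hN
    rw [hf]
    exact cv_image (lamz z) K b hb (N + c) (fun k hk => by have := hbM k hk; omega)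
  have hS2 : ∑ N ∈ It w M H t, f N ^ 2 ≤ (1 + 6 * ε1) * (m ^ 2 * h) := by
    have e1 : ∑ N ∈ It w M H t, f N ^ 2 = ∑ n ∈ It w (M + c) H (t + c), cv (lamz z) (K.image b) n ^ 2 := by
      rw [← sum_It_shift w M H t c (fun n => cv (lamz z) (K.image b) n ^ 2)]
      apply sum_congr rfl
      intro N hN
      rw [hcvf N hN]
    rw [e1, hm]
    exact S2_alg hC hv1 he0 he1 h1 rfl h4 h2 (by positivity) h5 hsec
  have hS1 : (1 - ε1) * (m * h) ≤ ∑ N ∈ It w M H t, f N := by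
    have e1 : ∑ N ∈ It w M H t, f N = ∑ n ∈ It w (M + c) H (t + c), cv (lamz z) (K.image b) n := by
      rw [← sum_It_shift w M H t c (fun n => cv (lamz z) (K.image b) n)]
      apply sum_congr rfl
      intro N hN
      rw [hcvf N hN]
    rw [e1]
    refine le_trans ?_ hfir
    rw [hm]
    have e2 : ε1 * h ≤ ε1 * ((Vz w)⁻¹ * h) := by
      apply mul_le_mul_of_nonneg_left _ he0.le
      exact le_mul_of_one_le_left h0.le hv1
    calc (1 - ε1) * ((Vz w)⁻¹ * K.card * h) = K.card * ((Vz w)⁻¹ * h - ε1 * ((Vz w)⁻¹ * h)) := by ring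
      _ ≤ K.card * ((Vz w)⁻¹ * h - 2 * (NN / LV)) := by
          apply mul_le_mul_of_nonneg_left _ hC.le
          linarith
  have hIc := card_It_le w M H t hMt htM
  rw [← hh] at hIc
  have hvar := var_bound (It w M H t) f m h ε1 hm0 he0 he1 hIc h1 hS1 hS2
  have hEc : (E.card : ℝ) ≤ 2 * h := by
    have h2 : (E.card : ℝ) ≤ ((It w M H t).card : ℝ) := by exact_mod_cast card_le_card hE
    have h3 : ε1 * h ≤ 1 * h := mul_le_mul_of_nonneg_right (by linarith) h0.le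
    linarith
  have e1 : ∑ N ∈ E, ∑ n ∈ K, lamz z (N + c - b n) - E.card * ((Vz w)⁻¹ * K.card) = ∑ n ∈ E, (f n - m) := by
    rw [sum_sub_distrib, sum_const, nsmul_eq_mul, hf, hm]
  rw [e1, ← hm]
  apply abs_le_of_sq_le_sq _ (by positivity)
  calc (∑ n ∈ E, (f n - m)) ^ 2 ≤ E.card * ∑ n ∈ E, (f n - m) ^ 2 := sq_sum_le_card_mul_sum_sq
    _ ≤ (2 * h) * (10 * ε1 * (m ^ 2 * h)) := by
        apply mul_le_mul hEc _ (sum_nonneg fun _ _ => sq_nonneg _) (by positivity)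
        refine le_trans ?_ hvar
        exact sum_le_sum_of_subset_of_nonneg hE fun _ _ _ => sq_nonneg _
    _ = (20 * ε1) * (h * m) ^ 2 := by ring
    _ ≤ (ε / 2) ^ 2 * (h * m) ^ 2 := by
        apply mul_le_mul_of_nonneg_right _ (by positivity)
        rw [hε1]
        have : 0 ≤ ε ^ 2 := sq_nonneg ε
        linarith
    _ = _ := by ring

end Pool.Agent.TH881.RQ
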