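import Mathlib
import Pool.Agent.TH881.RQ.Mix1

/-! Mixing for the values `N + σ g(n)`. -/

set_option autoImplicit false

namespace Pool.Agent.TH881.RQ

open Finset Filter Topology Polynomial
open Pool.Agent.TH881
open Pool.Agent.TH881.RG
open Pool.Agent.H373R2.T7
open Pool.Agent.TH882.PG (thI thI_nonneg bilG)

lemma gv_cast (g : ℤ[X]) (w : ℕ) (n : ℕ) : gv g w (n : ZMod (Wp w)) = ((g.eval (n : ℤ) : ℤ) : ZMod (Wp w)) := by
  unfold gv
  have h := Polynomial.eval_intCast_map (Int.castRingHom (ZMod (Wp w))) g (n : ℤ)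
  rw [Int.cast_natCast] at h
  rw [h]
  simp

/-- **Mixing.** -/
theorem mixq (pr : Bool) (g : ℤ[X]) (hd : 1 ≤ g.natDegree) (hl : 0 < g.leadingCoeff) (σ : ℤ)
    (hσ : σ = 1 ∨ σ = -1) (hPM : StPMq pr g) (G : ℕ) (hG : 1 ≤ G) (κ ε ρ : ℝ) (hκ : 0 < κ)
    (hε : 0 < ε) (hε1 : ε < 1) (hρ : 0 < ρ) :
    ∃ w0 : ℕ, ∀ w : ℕ, w0 ≤ w → ∃ X0 : ℕ, ∀ X : ℕ, X0 ≤ X → ∀ M H t : ℕ, M < t → t ≤ M + Wp w →
    ρ * (X : ℝ) ^ g.natDegree ≤ H → M + H ≤ G * X ^ g.natDegree →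
    ∀ K : Finset ℕ, (∀ n ∈ K, isArg pr n ∧ √(X : ℝ) < n ∧ n ≤ X) →
    (∀ n ∈ K, 0 ≤ (M : ℤ) + σ * g.eval (n : ℤ) ∧
      (M : ℤ) + H + σ * g.eval (n : ℤ) ≤ ((G * X ^ g.natDegree : ℕ) : ℤ)) →
    (∀ n ∈ K, ∀ n' ∈ K, n ≡ n' [MOD Wp w]) →
    (∀ n ∈ K, gd g σ w (t : ZMod (Wp w)) (n : ZMod (Wp w))) →
    κ * ppq pr w X ≤ K.card →
    ∀ E ⊆ It w M H t,
      |∑ N ∈ E, ∑ n ∈ K, thI (N + σ * g.eval (n : ℤ)) - E.card * ((Vz w)⁻¹ * K.card)| ≤
        ε * (((H : ℝ) / Wp w) * ((Vz w)⁻¹ * K.card)) := by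
  classical
  set d := g.natDegree with hdd
  obtain ⟨ε1, hε1d⟩ : ∃ e : ℝ, e = ε ^ 2 / 100 := ⟨_, rfl⟩
  have he0 : 0 < ε1 := by rw [hε1d]; positivity
  obtain ⟨J, hJ, hJ2⟩ := root_close (100 / κ) ε1 (by positivity) he0
  obtain ⟨B0, hsup⟩ := bilG g hd hl G hG 2
  obtain ⟨m1, hsup⟩ := hsup (B0 + 2)
  obtain ⟨m2, hsec⟩ := second_momentG (B0 + 2) 2
  obtain ⟨m3, hfir⟩ := first_moment (B0 + 2) 2
  obtain ⟨n0, hmono⟩ := Pool.Agent.TH882.PA.mono g hd hl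
  obtain ⟨w0, havg⟩ := avgq pr g hPM J (B0 + 2) hJ
  refine ⟨w0, fun w hw => ?_⟩
  obtain ⟨m5, havg⟩ := havg w hw
  obtain ⟨m4, hnum⟩ := numq d B0 w (Wp w) G hd (Wp_pos w) hG κ ρ (ε / 2) ε1 hκ hρ (by positivity) he0
  obtain ⟨n1, hn1⟩ : ∃ n1 : ℕ, (n1 : ℤ) = max 0 (-g.eval (n0 : ℤ)) := ⟨(max 0 (-g.eval (n0 : ℤ))).toNat, by simp⟩
  refine ⟨max (max m1 m2) (max (max m3 m5) (max (max m4 3) ((n0 + n1) ^ 2))), ?_⟩
  intro X hX M H t hMt htM hH hMH K hK hKp hcls hcop hcard E hE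
  simp only [max_le_iff] at hX
  obtain ⟨⟨hm1, hm2⟩, ⟨hm3, hm5⟩, ⟨hm4, hX3⟩, hXn⟩ := hX
  obtain ⟨a1, a2, a3, a4, a5, a6, a7, a8⟩ := hnum X hm4
  obtain ⟨L, hL⟩ : ∃ L : ℝ, L = Real.log X := ⟨_, rfl⟩
  rw [← hL] at a1 a2 a3 a5 a6 a7 a8
  have hL0 : 0 < L := by linarith
  have hL1 : 1 ≤ L := by linarith
  have hXr : (3 : ℝ) ≤ X := by exact_mod_cast hX3
  have hX0 : (0 : ℝ) < X := by linarith
  have hW : (0 : ℝ) < Wp w := by exact_mod_cast Wp_pos w
  have hW1 : (1 : ℝ) ≤ Wp w := by exact_mod_cast Wp_pos w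
  have hGr : (1 : ℝ) ≤ G := by exact_mod_cast hG
  -- positivity of the values
  have hsX : ((n0 + n1 : ℕ) : ℝ) ≤ √(X : ℝ) := by
    apply Real.le_sqrt_of_sq_le
    exact_mod_cast hXn
  have hKn0 : ∀ n ∈ K, n0 + n1 < n := by
    intro n hn
    have h1 := (hK n hn).2.1
    have h2 : ((n0 + n1 : ℕ) : ℝ) < n := by linarith
    exact_mod_cast h2
  have hgpos : ∀ n : ℕ, n0 + n1 < n → 0 ≤ g.eval (n : ℤ) := by
    have h1 : ∀ j : ℕ, g.eval (n0 : ℤ) + j ≤ g.eval ((n0 + j : ℕ) : ℤ) := by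
      intro j
      induction j with
      | zero => simp
      | succ j ih =>
        have h2 := hmono (n0 + j) (n0 + (j + 1)) (by omega) (by omega)
        push_cast at ih h2 ⊢
        omega
    intro n hn
    have h2 := h1 (n - n0)
    rw [show n0 + (n - n0) = n by omega] at h2
    have h3 : -g.eval (n0 : ℤ) ≤ n1 := by rw [hn1]; exact le_max_right _ _
    omega
  -- the shift
  obtain ⟨c, b, hbv⟩ : ∃ (c : ℕ) (b : ℕ → ℕ), c ≤ G * X ^ d ∧
      ∀ n ∈ K, (b n : ℤ) = c - σ * g.eval (n : ℤ) := by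
    rcases hσ with h | h
    · refine ⟨G * X ^ d, fun n => (((G * X ^ d : ℕ) : ℤ) - σ * g.eval (n : ℤ)).toNat, le_rfl, ?_⟩
      intro n hn
      have h1 := hKp n hn
      rw [h] at h1 ⊢
      have h2 : (0 : ℤ) ≤ (G * X ^ d : ℕ) - 1 * g.eval (n : ℤ) := by
        have h3 := h1.2
        have h4 : (0 : ℤ) ≤ (M : ℤ) + H := by positivity
        linarith
      exact Int.toNat_of_nonneg h2
    · refine ⟨0, fun n => (((0 : ℕ) : ℤ) - σ * g.eval (n : ℤ)).toNat, Nat.zero_le _, ?_⟩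
      intro n hn
      have h1 := hgpos n (hKn0 n hn)
      rw [h]
      apply Int.toNat_of_nonneg
      push_cast
      linarith
  obtain ⟨hcle, hbv⟩ := hbv
  have hbM : ∀ n ∈ K, b n ≤ M + c := by
    intro n hn
    have h1 := (hKp n hn).1
    have h2 := hbv n hn
    have h3 : (b n : ℤ) ≤ ((M + c : ℕ) : ℤ) := by
      push_cast
      rw [h2]
      linarith
    exact_mod_cast h3
  have hdist : ∀ n ∈ K, ∀ n' ∈ K, Nat.dist (b n) (b n') = (g.eval (n' : ℤ) - g.eval (n : ℤ)).natAbs := by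
    intro n hn n' hn'
    have h1 := hbv n hn
    have h2 := hbv n' hn'
    have h3 : (Nat.dist (b n) (b n')) = ((b n : ℤ) - b n').natAbs := by
      unfold Nat.dist
      omega
    rw [h3, h1, h2]
    rcases hσ with h | h
    · rw [h]
      congr 1
      ring
    · rw [h]
      have h4 : ((c : ℤ) - -1 * g.eval (n : ℤ) - (c - -1 * g.eval (n' : ℤ))) = -(g.eval (n' : ℤ) - g.eval (n : ℤ)) := by ring
      rw [h4, Int.natAbs_neg]
  have hne : ∀ n ∈ K, ∀ n' ∈ K, n ≠ n' → g.eval (n : ℤ) ≠ g.eval (n' : ℤ) := by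
    intro n hn n' hn' hnn
    have h1 := hKn0 n hn
    have h2 := hKn0 n' hn'
    rcases Nat.lt_or_gt_of_ne hnn with h3 | h3
    · exact (hmono n n' (by omega) h3).ne
    · exact (hmono n' n (by omega) h3).ne'
  have hbinj : Set.InjOn b K := by
    intro n hn n' hn' h
    by_contra hcon
    apply hne n hn n' hn' hcon
    have h1 := hbv n hn
    have h2 := hbv n' hn'
    rw [h] at h1
    rcases hσ with h | h
    · rw [h] at h1 h2
      linarith
    · rw [h] at h1 h2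
      linarith
  -- sizes
  obtain ⟨NN, hNN⟩ : ∃ N : ℕ, N = 2 * G * X ^ d := ⟨_, rfl⟩
  have hXd : X ≤ X ^ d := Nat.le_self_pow (by omega) X
  have hXNN : X ≤ NN := by
    rw [hNN]
    calc X ≤ X ^ d := hXd
      _ = 1 * X ^ d := (one_mul _).symm
      _ ≤ 2 * G * X ^ d := Nat.mul_le_mul_right _ (by omega)
  have hNNr : (NN : ℝ) = 2 * G * (X : ℝ) ^ d := by rw [hNN]; push_cast; ring
  have hXdr : (X : ℝ) ≤ (X : ℝ) ^ d := by exact_mod_cast hXd
  have hXd0 : (0 : ℝ) < (X : ℝ) ^ d := by positivity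
  have hlog : L ≤ Real.log NN := by
    rw [hL]
    exact Real.log_le_log hX0 (by exact_mod_cast hXNN)
  have hLV0 : 0 < Real.log NN ^ 2 := by
    have : 0 < Real.log NN := by linarith
    positivity
  have hLVL : L ≤ Real.log NN ^ 2 := by nlinarith
  obtain ⟨h, hh⟩ : ∃ h : ℝ, h = (H : ℝ) / Wp w := ⟨_, rfl⟩
  have hh0 : ρ * (X : ℝ) ^ d / Wp w ≤ h := by
    rw [hh]
    exact div_le_div_of_nonneg_right hH hW.le
  have hhpos : 0 < h := lt_of_lt_of_le (by positivity) hh0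
  -- the cardinality of K
  have hpp := ppq_ge pr w X (by rw [← hL]; exact hL1)
  rw [← hL] at hpp
  have hKc : κ * ((X : ℝ) / (Wp w * L)) ≤ K.card := (mul_le_mul_of_nonneg_left hpp hκ.le).trans hcard
  have hKr : (0 : ℝ) < K.card := lt_of_lt_of_le (by positivity) hKc
  have hK0 : 0 < K.card := by exact_mod_cast hKr
  -- level
  obtain ⟨z, hz⟩ : ∃ z : ℕ, z = ⌈L ^ (B0 + 1)⌉₊ := ⟨_, rfl⟩
  have hz1 : L ^ (B0 + 1) ≤ z := by rw [hz]; exact Nat.le_ceil _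
  have hLB : L ≤ L ^ (B0 + 1) := by
    calc L = L ^ 1 := (pow_one L).symm
      _ ≤ L ^ (B0 + 1) := pow_le_pow_right₀ hL1 (by omega)
  have hz2 : (z : ℝ) ≤ L ^ (B0 + 2) := by
    have h1 : (z : ℝ) ≤ L ^ (B0 + 1) + 1 := by
      rw [hz]
      exact (Nat.ceil_lt_add_one (by positivity)).le
    have h2 : L ^ (B0 + 2) = L ^ (B0 + 1) * L := pow_succ _ _
    have h3 : L ^ (B0 + 1) * 4 ≤ L ^ (B0 + 1) * L := mul_le_mul_of_nonneg_left a1 (by positivity)
    rw [h2]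
    linarith
  have hz0 : L ^ B0 ≤ z := (pow_le_pow_right₀ hL1 (by omega)).trans hz1
  have hz1' : 1 ≤ z := by
    have : (1 : ℝ) ≤ z := by linarith
    exact_mod_cast this
  have hWz : Wp w ≤ z := by
    have : (Wp w : ℝ) ≤ z := by linarith
    exact_mod_cast this
  have hwz : w ≤ z := by
    have : (w : ℝ) ≤ z := by linarith
    exact_mod_cast this
  have hzNN : (z : ℝ) ≤ Real.log NN ^ (B0 + 2) := hz2.trans (pow_le_pow_left₀ hL0.le hlog _)
  -- averages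
  have hΓ : ∀ b' ∈ K.image b, ∑ b'' ∈ (K.image b).erase b', gw w z (Nat.dist b' b'') ≤
      ((K.image b).card : ℝ) * (1 + ε1) := by
    intro b' hb'
    rw [mem_image] at hb'
    obtain ⟨n, hn, rfl⟩ := hb'
    have h1 := havg X hm5 z (by rw [← hL]; exact hz2) K hK hcls κ hκ hcard n hn
    rw [card_image_of_injOn hbinj]
    refine le_trans (le_of_eq ?_) (h1.trans (mul_le_mul_of_nonneg_left hJ2 (Nat.cast_nonneg _)))
    have h2 : (K.image b).erase (b n) = (K.erase n).image b := by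
      ext y
      rw [mem_erase, mem_image, mem_image]
      constructor
      · rintro ⟨hy, k, hk, rfl⟩
        refine ⟨k, ?_, rfl⟩
        rw [mem_erase]
        exact ⟨fun h => hy (by rw [h]), hk⟩
      · rintro ⟨k, hk, rfl⟩
        rw [mem_erase] at hk
        exact ⟨fun h => hk.1 (hbinj hk.2 hn h), k, hk.2, rfl⟩
    rw [h2, sum_image (fun x hx y hy hxy => hbinj (mem_of_mem_erase (mem_coe.1 hx)) (mem_of_mem_erase (mem_coe.1 hy)) hxy)]
    apply sum_congr rfl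
    intro k hk
    rw [hdist n hn k (mem_of_mem_erase hk)]
  have hbM' : ∀ b' ∈ K.image b, b' ≤ M + c := by
    intro b' hb'
    rw [mem_image] at hb'
    obtain ⟨n, hn, rfl⟩ := hb'
    exact hbM n hn
  have hsec := hsec NN (by omega) z hz1' hzNN w hwz (M + c) H (t + c) (by omega) (by omega)
    (K.image b) hbM' (1 + ε1) (by linarith) hΓ
  have hfir := hfir NN (by omega) z hz1' hzNN w hWz (M + c) H (t + c) (by omega)
    (by rw [hNN]; nlinarith) (K.image b) hbM' (by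
      intro b' hb'
      rw [mem_image] at hb'
      obtain ⟨n, hn, rfl⟩ := hb'
      have h1 := hbM n hn
      rw [← ZMod.isUnit_iff_coprime]
      have h2 := hcop n hn
      unfold gd at h2
      rw [gv_cast] at h2
      have h3 : (((t + c - b n : ℕ) : ℤ)) = t + σ * g.eval (n : ℤ) := by
        rw [Nat.cast_sub (by omega)]
        push_cast
        rw [hbv n hn]
        ring
      have h4 : ((t + c - b n : ℕ) : ZMod (Wp w)) = (t : ZMod (Wp w)) + (σ : ZMod (Wp w)) * ((g.eval (n : ℤ) : ℤ) : ZMod (Wp w)) := by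
        have h5 : (((t + c - b n : ℕ) : ℤ) : ZMod (Wp w)) = ((t + σ * g.eval (n : ℤ) : ℤ) : ZMod (Wp w)) := by rw [h3]
        push_cast at h5 ⊢
        exact h5
      rw [h4]
      exact h2)
  rw [card_image_of_injOn hbinj] at hsec hfir
  -- numerical conditions
  have hq1 : √(NN : ℝ) ≤ ε1 * h := by
    apply Real.sqrt_le_iff.2
    refine ⟨by positivity, ?_⟩
    have h1 : ε1 * (ρ * (X : ℝ) ^ d / Wp w) ≤ ε1 * h := mul_le_mul_of_nonneg_left hh0 he0.le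
    refine le_trans ?_ (pow_le_pow_left₀ (by positivity) h1 2)
    rw [hNNr]
    rw [div_le_iff₀ (by positivity)] at a4
    have h2 : ε1 * (ρ * (X : ℝ) ^ d / Wp w) = (ε1 * ρ) * (X : ℝ) ^ d / Wp w := by ring
    rw [h2, div_pow, le_div_iff₀ (by positivity)]
    calc 2 * (G : ℝ) * (X : ℝ) ^ d * (Wp w : ℝ) ^ 2 = (2 * G * (Wp w : ℝ) ^ 2) * (X : ℝ) ^ d := by ring
      _ ≤ (X * (ε1 * ρ) ^ 2) * (X : ℝ) ^ d := mul_le_mul_of_nonneg_right a4 hXd0.le
      _ ≤ ((X : ℝ) ^ d * (ε1 * ρ) ^ 2) * (X : ℝ) ^ d := by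
          apply mul_le_mul_of_nonneg_right _ hXd0.le
          exact mul_le_mul_of_nonneg_right hXdr (by positivity)
      _ = _ := by ring
  have hNN1 : (1 : ℝ) ≤ √(NN : ℝ) := by
    rw [Real.one_le_sqrt]
    have : (X : ℝ) ≤ NN := by exact_mod_cast hXNN
    linarith
  have hq2 : 1 ≤ ε1 * h := hNN1.trans hq1
  have hq3 : 2 * ((NN : ℝ) / Real.log NN ^ 2) ≤ ε1 * h := by
    have h1 : ε1 * (ρ * (X : ℝ) ^ d / Wp w) ≤ ε1 * h := mul_le_mul_of_nonneg_left hh0 he0.le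
    refine le_trans ?_ h1
    rw [div_le_iff₀ (by positivity)] at a5
    rw [← mul_div_assoc, div_le_iff₀ hLV0]
    have h2 : 4 * (G : ℝ) * Wp w ≤ (ε1 * ρ) * Real.log NN ^ 2 := by
      calc 4 * (G : ℝ) * Wp w ≤ L * (ε1 * ρ) := a5
        _ = (ε1 * ρ) * L := by ring
        _ ≤ _ := mul_le_mul_of_nonneg_left hLVL (by positivity)
    calc 2 * (NN : ℝ) = (4 * (G : ℝ) * Wp w) * ((X : ℝ) ^ d / Wp w) := by
          rw [hNNr]
          field_simp
          ring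
      _ ≤ ((ε1 * ρ) * Real.log NN ^ 2) * ((X : ℝ) ^ d / Wp w) := mul_le_mul_of_nonneg_right h2 (by positivity)
      _ = _ := by ring
  have hq4 : (h + 1) / Real.log NN ^ 2 ≤ ε1 * h := by
    rw [div_le_iff₀ hLV0]
    rw [div_le_iff₀ he0] at a6
    have hε11 : ε1 ≤ 1 := by rw [hε1d]; nlinarith
    have hh1 : 1 ≤ h := by
      have : ε1 * h ≤ 1 * h := mul_le_mul_of_nonneg_right hε11 hhpos.le
      linarith
    calc h + 1 ≤ h * 2 := by linarith
      _ ≤ h * (L * ε1) := mul_le_mul_of_nonneg_left a6 hhpos.le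
      _ = ε1 * h * L := by ring
      _ ≤ _ := mul_le_mul_of_nonneg_left hLVL (by positivity)
  have hq5 : 2 * (z : ℝ) ^ 2 ≤ ε1 * K.card := by
    calc 2 * (z : ℝ) ^ 2 ≤ 2 * (L ^ (B0 + 2)) ^ 2 := by
          apply mul_le_mul_of_nonneg_left _ (by norm_num)
          exact pow_le_pow_left₀ (Nat.cast_nonneg z) hz2 2
      _ = 2 * L ^ (2 * (B0 + 2)) := by rw [← pow_mul]; congr 2; ring
      _ ≤ ε1 * (κ * ((X : ℝ) / (Wp w * L))) := a7
      _ ≤ _ := mul_le_mul_of_nonneg_left hKc he0.le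
  have hcore := core w z M H t c K b hbinj hbM (NN : ℝ) (Real.log NN ^ 2) ε ε1 hε hε1d hε1 hMt htM hK0 hsec hfir
    (by rw [← hh]; exact hq2) (by rw [← hh]; exact hq1) (by rw [← hh]; exact hq3) (by rw [← hh]; exact hq4) hq5 E hE
  -- the other part
  have hbil := hsup X hm1 z (by rw [← hL]; exact hz0) (by rw [← hL]; exact hz2) σ hσ E K (by
      intro N hN
      have h1 := hE hN
      rw [mem_It] at h1
      exact ⟨by omega, h1.1.2.trans hMH⟩) (by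
      intro n hn
      have h1 := hKn0 n hn
      exact ⟨by omega, by have := (hK n hn).2.2; omega⟩) (by
      intro N hN n hn
      have h1 := hE hN
      rw [mem_It] at h1
      have h2 := hKp n hn
      have h3 : (M : ℤ) < N := by exact_mod_cast h1.1.1
      have h4 : (N : ℤ) ≤ (M : ℤ) + H := by exact_mod_cast h1.1.2
      exact ⟨by linarith, by linarith⟩)
  rw [← hL] at hbil
  have hsub : ∀ N ∈ E, ∀ n ∈ K, (N + c - b n : ℕ) = ((N : ℤ) + σ * g.eval (n : ℤ)).toNat := by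
    intro N hN n hn
    have h1 := hE hN
    rw [mem_It] at h1
    have h2 := hbM n hn
    have h3 := hbv n hn
    omega
  have e1 : |∑ N ∈ E, ∑ n ∈ K, thI (N + σ * g.eval (n : ℤ)) - ∑ N ∈ E, ∑ n ∈ K, lamz z (N + c - b n)| ≤
      (X : ℝ) ^ d * X / L ^ 2 := by
    rw [← sum_sub_distrib]
    refine le_trans (abs_sum_le_sum_abs _ _) (le_trans (le_of_eq ?_) hbil)
    apply sum_congr rfl
    intro N hN
    rw [← sum_sub_distrib]
    congr 1
    apply sum_congr rfl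
    intro n hn
    rw [hsub N hN n hn]
  have hv1 : 1 ≤ (Vz w)⁻¹ := (one_le_inv₀ (Vz_pos w)).2 (Vz_le_one w)
  have e2 : (X : ℝ) ^ d * X / L ^ 2 ≤ (ε / 2) * (h * ((Vz w)⁻¹ * K.card)) := by
    rw [div_le_iff₀ (by positivity)] at a8 ⊢
    have h1 : (ρ * (X : ℝ) ^ d / Wp w) * (κ * ((X : ℝ) / (Wp w * L))) ≤ h * ((Vz w)⁻¹ * K.card) := by
      apply mul_le_mul hh0 (hKc.trans (le_mul_of_one_le_left hKr.le hv1)) (by positivity) hhpos.le
    have h2 : (ε / 2) * ((ρ * (X : ℝ) ^ d / Wp w) * (κ * ((X : ℝ) / (Wp w * L)))) * L ^ 2 =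
        (L * (ε / 2 * ρ * κ)) * ((X : ℝ) ^ d * X) / (Wp w : ℝ) ^ 2 := by
      field_simp
    calc (X : ℝ) ^ d * X ≤ (L * (ε / 2 * ρ * κ)) * ((X : ℝ) ^ d * X) / (Wp w : ℝ) ^ 2 := by
          rw [le_div_iff₀ (by positivity)]
          have h3 : 0 < (X : ℝ) ^ d * X := by positivity
          have h4 : (Wp w : ℝ) ^ 2 ≤ L * (ε / 2 * ρ * κ) := by
            have : 0 ≤ (Wp w : ℝ) ^ 2 := by positivity
            linarith
          calc (X : ℝ) ^ d * X * (Wp w : ℝ) ^ 2 = (Wp w : ℝ) ^ 2 * ((X : ℝ) ^ d * X) := by ring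
            _ ≤ _ := mul_le_mul_of_nonneg_right h4 h3.le
      _ = (ε / 2) * ((ρ * (X : ℝ) ^ d / Wp w) * (κ * ((X : ℝ) / (Wp w * L)))) * L ^ 2 := h2.symm
      _ ≤ _ := by
          apply mul_le_mul_of_nonneg_right _ (by positivity)
          exact mul_le_mul_of_nonneg_left h1 (by positivity)
  rw [← hh] at hcore ⊢
  have e3 := abs_le.1 (e1.trans e2)
  have e4 := abs_le.1 hcore
  rw [abs_le]
  constructor
  · linarith [e3.1, e4.1]
  · linarith [e3.2, e4.2]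

end Pool.Agent.TH881.RQ
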