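import Mathlib
import Pool.Agent.TH881.RQ.Mix2
import Pool.Agent.TH881.RG.R1b

/-! The arguments in the classes. -/

set_option autoImplicit false

namespace Pool.Agent.TH881.RQ

open Finset Filter Topology Polynomial
open Pool.Agent.TH881
open Pool.Agent.TH881.RG
open Pool.Agent.H373R2.T7
open Pool.Agent.TH882.PG (thI thI_nonneg bilG)

open Classical in
/-- the arguments in `(√X, X]` -/
noncomputable def KN (pr : Bool) (X : ℕ) : Finset ℕ := (Icc 1 X).filter (fun n => isArg pr n ∧ √(X : ℝ) < n)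

open Classical in
/-- the arguments in `(√X, X]` which belong to `A` -/
noncomputable def KA (pr : Bool) (A : Set ℕ) (X : ℕ) : Finset ℕ := (KN pr X).filter (fun n => n ∈ A)

lemma mem_KN {pr : Bool} {X n : ℕ} : n ∈ KN pr X ↔ isArg pr n ∧ √(X : ℝ) < n ∧ n ≤ X := by
  classical
  unfold KN
  rw [mem_filter, mem_Icc]
  constructor
  · rintro ⟨h1, h2, h3⟩
    exact ⟨h2, h3, h1.2⟩
  · rintro ⟨h1, h2, h3⟩
    have h4 : (0 : ℝ) < n := lt_of_le_of_lt (Real.sqrt_nonneg _) h2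
    exact ⟨⟨by exact_mod_cast h4, h3⟩, h1, h2⟩

lemma mem_KA {pr : Bool} {A : Set ℕ} {X n : ℕ} : n ∈ KA pr A X ↔ (isArg pr n ∧ √(X : ℝ) < n ∧ n ≤ X) ∧ n ∈ A := by
  classical
  unfold KA
  rw [mem_filter, mem_KN]

lemma AA_true (w : ℕ) : AA true w = UU w := by
  classical
  ext a
  unfold AA
  rw [mem_filter, mem_UU]
  simp

lemma AA_false (w : ℕ) : AA false w = univ := by
  classical
  unfold AA
  apply filter_true_of_mem
  intro a _ h
  exact absurd h (by simp)

lemma ppq_true (w X : ℕ) : ppq true w X = pp w X := by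
  unfold ppq pp
  rw [AA_true, card_UU, if_pos rfl]

lemma ppq_false (w X : ℕ) : ppq false w X = (X : ℝ) / Wp w := by
  unfold ppq
  rw [AA_false, card_univ, ZMod.card, if_neg (by simp), mul_one]

/-- the number of all arguments up to `X`, expected -/
noncomputable def tot (pr : Bool) (X : ℕ) : ℝ := (X : ℝ) / (if pr = true then Real.log X else 1)

lemma AA_ppq (pr : Bool) (w X : ℕ) : ((AA pr w).card : ℝ) * ppq pr w X = tot pr X := by
  unfold ppq tot
  have := (AA_card_pos pr w).ne'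
  rw [← mul_div_assoc, mul_div_mul_left _ _ this]

/-- upper bound in the classes -/
lemma KN_class (pr : Bool) (w : ℕ) (κ : ℝ) (hκ : 0 < κ) : ∃ X0 : ℕ, ∀ X : ℕ, X0 ≤ X → ∀ a ∈ AA pr w,
    ((cls w (KN pr X) a).card : ℝ) ≤ (1 + κ) * ppq pr w X := by
  classical
  cases pr with
  | true =>
    obtain ⟨N0, h0⟩ := stPC w κ 1 hκ one_pos
    refine ⟨N0 + 2, ?_⟩
    intro X hX a ha
    rw [AA_true, mem_UU] at ha
    have h1 := (abs_le.1 (h0 X (by omega) X le_rfl (by rw [one_mul]) a ha)).2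
    have h2 : bbf w X ((Icc 1 X).filter (fun p : ℕ => p.Prime ∧ √(X : ℝ) < p)) a ≤ 1 + κ := by linarith
    unfold bbf at h2
    rw [div_le_iff₀ (pp_pos w X (by omega))] at h2
    rw [ppq_true]
    refine le_trans ?_ h2
    have h3 : (cls w (KN true X) a).card ≤ (cls w ((Icc 1 X).filter (fun p : ℕ => p.Prime ∧ √(X : ℝ) < p)) a).card := by
      apply card_le_card
      apply cls_mono
      intro n hn
      rw [mem_KN] at hn
      rw [mem_filter, mem_Icc]
      have h4 := hn.1 rfl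
      exact ⟨⟨h4.pos, hn.2.2⟩, h4, hn.2.1⟩
    exact_mod_cast h3
  | false =>
    obtain ⟨X0, h0⟩ := exists_nat_ge ((Wp w : ℝ) / κ)
    refine ⟨X0, ?_⟩
    intro X hX a _
    rw [ppq_false]
    have hW : (0 : ℝ) < Wp w := by exact_mod_cast Wp_pos w
    have h1 : cls w (KN false X) a ⊆ cls w (Ioc 0 (0 + X)) a := by
      apply cls_mono
      intro n hn
      unfold KN at hn
      rw [mem_filter, mem_Icc] at hn
      rw [mem_Ioc]
      omega
    have h2 := cls_card_le w 0 X (Ioc 0 (0 + X)) (Finset.Subset.refl _) a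
    have h3 : ((cls w (KN false X) a).card : ℝ) ≤ (X : ℝ) / Wp w + 1 := by
      refine le_trans ?_ h2
      exact_mod_cast card_le_card h1
    have h4 : (X0 : ℝ) ≤ X := by exact_mod_cast hX
    have h5 := h0.trans h4
    rw [div_le_iff₀ hκ] at h5
    have h6 : 1 ≤ κ * ((X : ℝ) / Wp w) := by
      rw [← mul_div_assoc, le_div_iff₀ hW]
      linarith
    linarith

/-- the prime number theorem, lower bound -/
lemma pi_lower (ε : ℝ) (hε : 0 < ε) : ∃ M0 : ℕ, ∀ M : ℕ, M0 ≤ M →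
    (1 - ε) * (M / Real.log M) ≤ (cnt {p | p.Prime} M : ℝ) := by
  classical
  obtain ⟨N0, hN0⟩ := stPC 0 ε 1 hε one_pos
  refine ⟨N0 + 2, ?_⟩
  intro M hM
  have h1 := (abs_le.1 (hN0 M (by omega) M le_rfl (by rw [one_mul]) 1 isUnit_one)).1
  have h2 : 1 - ε ≤ bbf 0 M ((Icc 1 M).filter (fun p : ℕ => p.Prime ∧ √(M : ℝ) < p)) 1 := by linarith
  unfold bbf at h2
  rw [le_div_iff₀ (pp_pos 0 M (by omega))] at h2
  have hW0 : Wp 0 = 1 := by
    unfold Wp
    apply prod_eq_one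
    intro p hp
    rw [mem_pz] at hp
    exact absurd hp.2.pos (by omega)
  have h3 : pp 0 M = M / Real.log M := by
    unfold pp
    rw [hW0]
    simp
  rw [h3] at h2
  refine h2.trans ?_
  rw [cnt_eq]
  have h4 : cls 0 ((Icc 1 M).filter (fun p : ℕ => p.Prime ∧ √(M : ℝ) < p)) 1 ⊆ cntS {p | p.Prime} M := by
    intro n hn
    rw [mem_cls, mem_filter, mem_Icc] at hn
    rw [mem_cntS]
    exact ⟨hn.1.1, hn.1.2.1⟩
  exact_mod_cast card_le_card h4

/-- the number of arguments -/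
lemma arg_lower (pr : Bool) (ε : ℝ) (hε : 0 < ε) : ∃ M0 : ℕ, ∀ M : ℕ, M0 ≤ M →
    (1 - ε) * tot pr M ≤ (cnt {n | isArg pr n} M : ℝ) := by
  cases pr with
  | true =>
    obtain ⟨M0, h0⟩ := pi_lower ε hε
    refine ⟨M0, ?_⟩
    intro M hM
    have h1 := h0 M hM
    unfold tot
    rw [if_pos rfl]
    refine h1.trans ?_
    have h2 : {p : ℕ | p.Prime} ⊆ {n | isArg true n} := fun p hp _ => hp
    exact_mod_cast cnt_subset h2 M
  | false =>
    refine ⟨0, ?_⟩
    intro M _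
    have h1 : cnt {n | isArg false n} M = M := by
      apply cnt_full
      intro a _ h
      exact absurd h (by simp)
    rw [h1]
    unfold tot
    rw [if_neg (by simp), div_one]
    have : (0 : ℝ) ≤ M := Nat.cast_nonneg _
    nlinarith

/-- the number of elements of `A` among the arguments -/
lemma KA_card_ge (pr : Bool) (A : Set ℕ) (β κ : ℝ) (hβ : 0 < β) (hβ1 : β ≤ 1) (hκ : 0 < κ) (hA : β ≤ relq pr A) :
    ∃ X0 : ℕ, ∀ X : ℕ, X0 ≤ X → (β - 2 * κ) * tot pr X ≤ (KA pr A X).card := by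
  classical
  have hr0 : ∀ n : ℕ, 0 ≤ (cnt {n | isArg pr n ∧ n ∈ A} n : ℝ) / (cnt {n | isArg pr n} n : ℝ) := fun n => by positivity
  have h1 : β - κ / 2 < relq pr A := by linarith
  unfold relq at h1
  have h2 := eventually_lt_of_lt_liminf h1 (isBoundedUnder_of ⟨0, hr0⟩)
  obtain ⟨X1, h3⟩ := eventually_atTop.1 h2
  obtain ⟨X2, h4⟩ := arg_lower pr (κ / 2) (by positivity)
  have hlit := ((isLittleO_log_rpow_atTop (show (0 : ℝ) < 1 / 2 by norm_num)).bound (show 0 < κ / 2 by positivity))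
  have h5 := (tendsto_natCast_atTop_atTop (R := ℝ)).eventually (hlit.and (eventually_ge_atTop (max 3 ((2 / κ) ^ 2))))
  obtain ⟨X3, h6⟩ := eventually_atTop.1 h5
  refine ⟨X1 + X2 + X3, ?_⟩
  intro X hX
  have h7 := h3 X (by omega)
  have h8 := h4 X (by omega)
  obtain ⟨h9, h10⟩ := h6 X (by omega)
  have hX3 : (3 : ℝ) ≤ X := (le_max_left _ _).trans h10
  have hXκ : (2 / κ) ^ 2 ≤ (X : ℝ) := (le_max_right _ _).trans h10
  have hX0 : (0 : ℝ) < X := by linarith
  have hL : 1 ≤ Real.log X := by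
    rw [Real.le_log_iff_exp_le hX0]
    have := Real.exp_one_lt_d9
    linarith
  have htot0 : 0 < tot pr X := by
    unfold tot
    apply div_pos hX0
    split_ifs
    · linarith
    · exact one_pos
  -- the square root is negligible
  have hsq : √(X : ℝ) ≤ (κ / 2) * tot pr X := by
    have hs := Real.mul_self_sqrt hX0.le
    have hs0 := Real.sqrt_pos.2 hX0
    unfold tot
    split_ifs
    · rw [Real.norm_of_nonneg (by linarith), Real.norm_of_nonneg (by positivity), ← Real.sqrt_eq_rpow] at h9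
      rw [← mul_div_assoc, le_div_iff₀ (by linarith)]
      calc √(X : ℝ) * Real.log X ≤ √(X : ℝ) * (κ / 2 * √(X : ℝ)) := mul_le_mul_of_nonneg_left h9 hs0.le
        _ = κ / 2 * (√(X : ℝ) * √(X : ℝ)) := by ring
        _ = _ := by rw [hs]
    · rw [div_one]
      have h11 : 2 / κ ≤ √(X : ℝ) := Real.le_sqrt_of_sq_le hXκ
      rw [div_le_iff₀ hκ] at h11
      calc √(X : ℝ) = √(X : ℝ) * 1 := (mul_one _).symm
        _ ≤ √(X : ℝ) * (√(X : ℝ) * κ / 2) := by
            apply mul_le_mul_of_nonneg_left _ hs0.le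
            linarith
        _ = κ / 2 * (√(X : ℝ) * √(X : ℝ)) := by ring
        _ = _ := by rw [hs]
  have hc0 : (0 : ℝ) ≤ cnt {n | isArg pr n} X := Nat.cast_nonneg _
  -- counting
  have h12 : (β - κ / 2) * cnt {n | isArg pr n} X ≤ cnt {n | isArg pr n ∧ n ∈ A} X := by
    rcases hc0.eq_or_lt with h | h
    · rw [← h, mul_zero]
      exact Nat.cast_nonneg _
    · rw [lt_div_iff₀ h] at h7
      exact h7.le
  have h13 : (cnt {n | isArg pr n ∧ n ∈ A} X : ℝ) ≤ (KA pr A X).card + √(X : ℝ) := by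
    rw [cnt_eq]
    have h14 : cntS {n | isArg pr n ∧ n ∈ A} X ⊆ KA pr A X ∪ Icc 1 ⌊√(X : ℝ)⌋₊ := by
      intro n hn
      rw [mem_cntS] at hn
      rw [mem_union, mem_KA, mem_Icc]
      by_cases h15 : √(X : ℝ) < n
      · exact Or.inl ⟨⟨hn.2.1, h15, hn.1.2⟩, hn.2.2⟩
      · right
        exact ⟨hn.1.1, Nat.le_floor (not_lt.1 h15)⟩
    have h15 : (cntS {n | isArg pr n ∧ n ∈ A} X).card ≤ (KA pr A X).card + ⌊√(X : ℝ)⌋₊ := by
      refine (card_le_card h14).trans ((card_union_le _ _).trans ?_)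
      rw [Nat.card_Icc]
      omega
    have h16 : ((cntS {n | isArg pr n ∧ n ∈ A} X).card : ℝ) ≤ (KA pr A X).card + ⌊√(X : ℝ)⌋₊ := by exact_mod_cast h15
    have h17 := Nat.floor_le (Real.sqrt_nonneg (X : ℝ))
    linarith
  rcases le_or_gt (β - κ / 2) 0 with hneg | hpos
  · have h18 : (β - 2 * κ) * tot pr X ≤ 0 := mul_nonpos_of_nonpos_of_nonneg (by linarith) htot0.le
    exact h18.trans (Nat.cast_nonneg _)
  · have h19 : (β - κ / 2) * ((1 - κ / 2) * tot pr X) ≤ (β - κ / 2) * cnt {n | isArg pr n} X :=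
      mul_le_mul_of_nonneg_left h8 hpos.le
    have h20 : (β - κ) * tot pr X ≤ (β - κ / 2) * ((1 - κ / 2) * tot pr X) := by
      rw [← mul_assoc]
      apply mul_le_mul_of_nonneg_right _ htot0.le
      nlinarith
    have h21 : (β - 2 * κ) * tot pr X ≤ (β - κ) * tot pr X - κ / 2 * tot pr X := by
      have : 0 < κ * tot pr X := by positivity
      nlinarith
    linarith

/-- roots -/
lemma exists_root (d : ℕ) (hd : 1 ≤ d) (y : ℝ) (hy : 0 ≤ y) : ∃ X : ℕ, (X : ℝ) ^ d ≤ y ∧ y < ((X : ℝ) + 1) ^ d := by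
  refine ⟨⌊y ^ (1 / (d : ℝ))⌋₊, ?_, ?_⟩
  · have h1 := Nat.floor_le (Real.rpow_nonneg hy (1 / (d : ℝ)))
    calc (⌊y ^ (1 / (d : ℝ))⌋₊ : ℝ) ^ d ≤ (y ^ (1 / (d : ℝ))) ^ d := pow_le_pow_left₀ (Nat.cast_nonneg _) h1 d
      _ = y := by
          rw [← Real.rpow_natCast, ← Real.rpow_mul hy, one_div, inv_mul_cancel₀ (by positivity), Real.rpow_one]
  · have h1 := Nat.lt_floor_add_one (y ^ (1 / (d : ℝ)))
    calc y = (y ^ (1 / (d : ℝ))) ^ d := by
          rw [← Real.rpow_natCast, ← Real.rpow_mul hy, one_div, inv_mul_cancel₀ (by positivity), Real.rpow_one]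
      _ < _ := pow_lt_pow_left₀ h1 (Real.rpow_nonneg hy _) (by omega)

end Pool.Agent.TH881.RQ
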