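import Mathlib
import Pool.Agent.TH881.RQ.Arg

/-! The lower bound for the density of the `N` with a prime value `N + σ g(n)`, `n ∈ A`. -/

set_option autoImplicit false

namespace Pool.Agent.TH881.RQ

open Finset Filter Topology Polynomial
open Pool.Agent.TH881
open Pool.Agent.TH881.RG
open Pool.Agent.H373R2.T7
open Pool.Agent.TH882.PG (thI thI_nonneg bilG)

/-- continuity of the local function -/
def StCont (pr : Bool) (g : ℤ[X]) (σ : ℤ) : Prop := ∀ β τ : ℝ, 0 < β → β < 1 → 0 < τ →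
    ∃ ε1 : ℝ, 0 < ε1 ∧ ∃ w1 : ℕ, ∀ w : ℕ, w1 ≤ w → ∀ B ⊆ AA pr w,
    (β - ε1) * (AA pr w).card ≤ B.card → Flocq pr g σ β - τ ≤ ((sumq g σ w B).card : ℝ) / Wp w

lemma Flocq_le_one (pr : Bool) (g : ℤ[X]) (σ : ℤ) (β : ℝ) (hβ1 : β ≤ 1) : Flocq pr g σ β ≤ 1 := by
  classical
  apply csInf_le_of_le (b := ((sumq g σ 0 (AA pr 0)).card : ℝ) / Wp 0)
  · refine ⟨0, ?_⟩
    rintro x ⟨w, B, _, _, rfl⟩
    positivity
  · refine ⟨0, AA pr 0, Finset.Subset.refl _, ?_, rfl⟩
    have := AA_card_pos pr 0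
    nlinarith
  · have hW : (0 : ℝ) < Wp 0 := by exact_mod_cast Wp_pos 0
    rw [div_le_one hW]
    have h1 := card_le_univ (sumq g σ 0 (AA pr 0))
    rw [ZMod.card] at h1
    exact_mod_cast h1

lemma arg_class (pr : Bool) (w X b : ℕ) (hw : (w : ℝ) ≤ √(X : ℝ)) (hb : isArg pr b) (hbX : √(X : ℝ) < b) :
    (b : ZMod (Wp w)) ∈ AA pr w := by
  classical
  unfold AA
  rw [mem_filter]
  exact ⟨mem_univ _, fun h => prime_unit w X b hw (hb h) hbX⟩

lemma sum_cls_AA (pr : Bool) (w : ℕ) (B : Finset ℕ) (hB : ∀ b ∈ B, (b : ZMod (Wp w)) ∈ AA pr w) :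
    ∑ t ∈ AA pr w, ((cls w B t).card : ℝ) = B.card := by
  rw [← sum_cls w B]
  apply sum_subset (subset_univ _)
  intro t _ ht
  have h1 : cls w B t = ∅ := by
    rw [Finset.eq_empty_iff_forall_notMem]
    intro n hn
    rw [mem_cls] at hn
    apply ht
    rw [← hn.2]
    exact hB n hn.1
  rw [h1]
  simp

/-- **the lower bound** -/
theorem ffq_lower (pr : Bool) (g : ℤ[X]) (hd : 1 ≤ g.natDegree) (hl : 0 < g.leadingCoeff) (σ : ℤ)
    (hσ : σ = 1 ∨ σ = -1) (hPM : StPMq pr g) (hcont : StCont pr g σ)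
    (β : ℝ) (hβ : 0 < β) (hβ1 : β < 1) (A : Set ℕ) (hA : β ≤ relq pr A) :
    Flocq pr g σ β ≤ lowerDensity (hit pr g σ A) := by
  classical
  by_contra hcon
  push Not at hcon
  obtain ⟨D, hD⟩ : ∃ D : ℝ, D = lowerDensity (hit pr g σ A) := ⟨_, rfl⟩
  rw [← hD] at hcon
  have hD0 : 0 ≤ D := by rw [hD]; exact lowerDensity_nonneg _
  have hF1 := Flocq_le_one pr g σ β hβ1.le
  set d := g.natDegree with hdd
  obtain ⟨τ, hτ⟩ : ∃ τ : ℝ, τ = (Flocq pr g σ β - D) / 8 := ⟨_, rfl⟩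
  have hτ0 : 0 < τ := by rw [hτ]; linarith
  have hτ1 : 8 * τ ≤ 1 - D := by rw [hτ]; linarith
  obtain ⟨ε1, hε1, w1, hcont⟩ := hcont β τ hβ hβ1 hτ0
  obtain ⟨κ, hκd⟩ : ∃ κ : ℝ, κ = min (ε1 / 4) (1 / 4) := ⟨_, rfl⟩
  have hκ0 : 0 < κ := by rw [hκd]; positivity
  have hκ1 : κ ≤ ε1 / 4 := by rw [hκd]; exact min_le_left _ _
  have hκ2 : κ ≤ 1 / 4 := by rw [hκd]; exact min_le_right _ _
  obtain ⟨θ, hθ⟩ : ∃ θ : ℝ, θ = τ / 4 := ⟨_, rfl⟩
  have hθ0 : 0 < θ := by rw [hθ]; positivity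
  obtain ⟨ε2, hε2⟩ : ∃ ε2 : ℝ, ε2 = min τ (1 / 2) := ⟨_, rfl⟩
  have hε20 : 0 < ε2 := by rw [hε2]; positivity
  have hε21 : ε2 ≤ τ := by rw [hε2]; exact min_le_left _ _
  have hε22 : ε2 ≤ 1 / 2 := by rw [hε2]; exact min_le_right _ _
  have hcf : (0 : ℝ) < cf g + 1 := by positivity
  -- the constant in the range
  obtain ⟨G, hG⟩ : ∃ G : ℕ, 32 * ((cf g : ℝ) + 1) * 2 ^ d / τ ≤ G := exists_nat_ge _
  have hG1 : 1 ≤ G := by
    by_contra h
    have h0 : G = 0 := by omega
    rw [h0] at hG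
    have : 0 < 32 * ((cf g : ℝ) + 1) * 2 ^ d / τ := by positivity
    simp at hG
    linarith
  obtain ⟨w0, hmix⟩ := mixq pr g hd hl σ hσ hPM G hG1 κ ε2 (θ / 2) hκ0 hε20 (by linarith) (by positivity)
  obtain ⟨w, hw⟩ : ∃ w : ℕ, w = w0 + w1 := ⟨_, rfl⟩
  obtain ⟨X1, hX1⟩ := hmix w (by omega)
  obtain ⟨X2, hX2⟩ := KN_class pr w κ hκ0
  obtain ⟨X3, hX3⟩ := KA_card_ge pr A β κ hβ hβ1.le hκ0 hA
  obtain ⟨XX, hXX⟩ : ∃ XX : ℕ, XX = X1 + X2 + X3 + w ^ 2 + 3 := ⟨_, rfl⟩
  obtain ⟨x0, hx0⟩ := exists_window2 (hit pr g σ A)ᶜ (1 - D - τ) τ θ hτ0 (by linarith) (by linarith) hθ0 (by rw [hθ])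
  obtain ⟨x1, hx1⟩ := exists_nat_ge ((4 * 2 + (Wp w : ℝ) + 8 * (cf g + 1) * ((XX : ℝ) + 1) ^ d) / (τ * θ))
  have hfreq := frequently_of_lt (A := hit pr g σ A) (c := D + τ) (by rw [← hD]; linarith)
  obtain ⟨x, hxc, hxg⟩ := (hfreq.and_eventually (eventually_ge_atTop (x0 + x1 + 1))).exists
  have hxr : (1 : ℝ) ≤ x := by exact_mod_cast (by omega : 1 ≤ x)
  have hcnt : (1 - D - τ) * x ≤ cnt (hit pr g σ A)ᶜ x := by
    have h1 : (cnt (hit pr g σ A) x : ℝ) + cnt (hit pr g σ A)ᶜ x = x := by exact_mod_cast cnt_compl (hit pr g σ A) x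
    linarith
  obtain ⟨M, H, hH1, hH2, hM1', hM2, hcard⟩ := hx0 x (by omega) hcnt
  have hx0r : (0 : ℝ) < x := by linarith
  have hbig : 4 * 2 + (Wp w : ℝ) + 8 * (cf g + 1) * ((XX : ℝ) + 1) ^ d ≤ τ * θ * x := by
    have h1 : (x1 : ℝ) ≤ x := by exact_mod_cast (by omega : x1 ≤ x)
    have h2 := hx1.trans h1
    rw [div_le_iff₀ (by positivity)] at h2
    linarith
  have hW1 : (1 : ℝ) ≤ Wp w := by exact_mod_cast Wp_pos w
  have hW : (0 : ℝ) < Wp w := by linarith
  have hτ8 : τ ≤ 1 / 8 := by linarith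
  have hθ32 : θ ≤ 1 / 32 := by rw [hθ]; linarith
  have hττ : τ * θ * x ≤ τ / 32 * x := by
    apply mul_le_mul_of_nonneg_right _ hx0r.le
    nlinarith
  have hθθ : τ * θ * x ≤ θ / 8 * x := by
    apply mul_le_mul_of_nonneg_right _ hx0r.le
    nlinarith
  have hcfX : 0 < 8 * ((cf g : ℝ) + 1) * ((XX : ℝ) + 1) ^ d := by positivity
  have hWH : (Wp w : ℝ) ≤ τ * H := by
    have h1 : τ * (θ * x - 1) ≤ τ * H := mul_le_mul_of_nonneg_left hH2 hτ0.le
    linarith
  have hHx : H ≤ x := by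
    have h1 : (H : ℝ) ≤ x := by nlinarith
    exact_mod_cast h1
  -- the range of the arguments
  obtain ⟨X, hXa, hXb⟩ := exists_root d hd (τ * x / (8 * (cf g + 1))) (by positivity)
  have hXX' : XX < X + 1 := by
    have h1 : ((XX : ℝ) + 1) ^ d < ((X : ℝ) + 1) ^ d := by
      refine lt_of_le_of_lt ?_ hXb
      rw [le_div_iff₀ (by positivity)]
      have h2 : τ * θ * x ≤ τ * x := by
        have : τ * θ ≤ τ * 1 := mul_le_mul_of_nonneg_left (by linarith) hτ0.le
        calc τ * θ * x ≤ τ * 1 * x := mul_le_mul_of_nonneg_right this hx0r.le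
          _ = _ := by ring
      linarith
    have h2 := lt_of_pow_lt_pow_left₀ d (by positivity) h1
    have h3 : (XX : ℝ) < X := by linarith
    have h4 : XX < X := by exact_mod_cast h3
    omega
  have hXg : XX ≤ X := by omega
  have hX1' : 1 ≤ X := by omega
  have hXr : (1 : ℝ) ≤ X := by exact_mod_cast hX1'
  have hX0' : (0 : ℝ) < X := by linarith
  have hXd0 : (0 : ℝ) < (X : ℝ) ^ d := by positivity
  have hXup : 8 * ((cf g : ℝ) + 1) * (X : ℝ) ^ d ≤ τ * x := by
    rw [le_div_iff₀ (by positivity)] at hXa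
    linarith
  have hXlow : 3 * (x : ℝ) ≤ G * (X : ℝ) ^ d := by
    have h1 : ((X : ℝ) + 1) ^ d ≤ 2 ^ d * (X : ℝ) ^ d := by
      rw [← mul_pow]
      exact pow_le_pow_left₀ (by positivity) (by linarith) d
    have h2 := hXb.le.trans h1
    rw [div_le_iff₀ (by positivity)] at h2
    rw [div_le_iff₀ hτ0] at hG
    have h3 : τ * (3 * x) ≤ τ * (G * (X : ℝ) ^ d) := by
      calc τ * (3 * (x : ℝ)) = 3 * (τ * x) := by ring
        _ ≤ 3 * (2 ^ d * (X : ℝ) ^ d * (8 * (cf g + 1))) := mul_le_mul_of_nonneg_left h2 (by norm_num)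
        _ ≤ (32 * ((cf g : ℝ) + 1) * 2 ^ d) * (X : ℝ) ^ d := by
            have : 0 ≤ 2 ^ d * (X : ℝ) ^ d * ((cf g : ℝ) + 1) := by positivity
            linarith
        _ ≤ (G * τ) * (X : ℝ) ^ d := mul_le_mul_of_nonneg_right hG hXd0.le
        _ = _ := by ring
    exact le_of_mul_le_mul_left h3 hτ0
  have hgb : ∀ n : ℕ, 1 ≤ n → n ≤ X → |((g.eval (n : ℤ) : ℤ) : ℝ)| ≤ τ / 8 * x := by
    intro n hn1 hn2
    have h1 := abs_eval_le g n hn1
    have h2 : |((g.eval (n : ℤ) : ℤ) : ℝ)| ≤ (cf g : ℝ) * (n : ℝ) ^ d := by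
      have h3 : ((|g.eval (n : ℤ)| : ℤ) : ℝ) ≤ (((cf g * n ^ g.natDegree : ℕ) : ℤ) : ℝ) := by exact_mod_cast h1
      push_cast at h3
      exact h3
    have h3 : (n : ℝ) ^ d ≤ (X : ℝ) ^ d := pow_le_pow_left₀ (Nat.cast_nonneg n) (by exact_mod_cast hn2) d
    have h4 : (cf g : ℝ) * (n : ℝ) ^ d ≤ (cf g : ℝ) * (X : ℝ) ^ d := mul_le_mul_of_nonneg_left h3 (Nat.cast_nonneg _)
    linarith
  have hρH : θ / 2 * (X : ℝ) ^ d ≤ H := by
    have h1 : (X : ℝ) ^ d ≤ x := by
      have h2 : 8 * 1 * (X : ℝ) ^ d ≤ 8 * ((cf g : ℝ) + 1) * (X : ℝ) ^ d := by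
        apply mul_le_mul_of_nonneg_right _ hXd0.le
        have : (0 : ℝ) ≤ cf g := Nat.cast_nonneg _
        linarith
      have h3 : τ * x ≤ 1 * x := mul_le_mul_of_nonneg_right (by linarith) hx0r.le
      linarith
    have h2 : θ / 2 * (X : ℝ) ^ d ≤ θ / 2 * x := mul_le_mul_of_nonneg_left h1 (by positivity)
    linarith
  have hMH3 : (M : ℝ) + H ≤ 2 * x := by
    have h1 : (M : ℝ) ≤ x := by exact_mod_cast hM2
    have h2 : (H : ℝ) ≤ x := by exact_mod_cast hHx
    linarith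
  have hMHN : M + H ≤ G * X ^ d := by
    have h1 : ((M + H : ℕ) : ℝ) ≤ ((G * X ^ d : ℕ) : ℝ) := by
      push_cast
      linarith
    exact_mod_cast h1
  have hwX : (w : ℝ) ≤ √(X : ℝ) := by
    apply Real.le_sqrt_of_sq_le
    have h1 : w ^ 2 ≤ X := by omega
    exact_mod_cast h1
  have hH1' : 1 ≤ H := by
    have h1 : ((1 : ℕ) : ℝ) ≤ H := by push_cast; linarith
    exact_mod_cast h1
  have hH0r : (0 : ℝ) < H := by exact_mod_cast hH1'
  -- the arguments
  have hpp0 : 0 < ppq pr w X := by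
    unfold ppq
    have h1 := AA_card_pos pr w
    have h2 : 0 < Real.log (X : ℝ) := Real.log_pos (by
      have : 2 ≤ X := by omega
      have : (2 : ℝ) ≤ X := by exact_mod_cast this
      linarith)
    apply div_pos hX0'
    apply mul_pos h1
    split_ifs
    · exact h2
    · exact one_pos
  have hAA := AA_card_pos pr w
  have hKNc := hX2 X (by omega)
  have hKAc : (β - 2 * κ) * ((AA pr w).card * ppq pr w X) ≤ (KA pr A X).card := by
    rw [AA_ppq]
    exact hX3 X (by omega)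
  have hKAcls : ∀ b ∈ KA pr A X, (b : ZMod (Wp w)) ∈ AA pr w := by
    intro b hb
    rw [mem_KA] at hb
    exact arg_class pr w X b hwX hb.1.1 hb.1.2.1
  have hKAN : KA pr A X ⊆ KN pr X := by
    intro b hb
    rw [mem_KA] at hb
    rw [mem_KN]
    exact hb.1
  -- the classes with many arguments of `A`
  obtain ⟨B, hB⟩ : ∃ B : Finset (ZMod (Wp w)), B = (AA pr w).filter (fun a => κ * ppq pr w X ≤ (cls w (KA pr A X) a).card) := ⟨_, rfl⟩
  have hBU : B ⊆ AA pr w := by rw [hB]; exact filter_subset _ _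
  have hBc : (β - ε1) * (AA pr w).card ≤ B.card := by
    have h1 : ((KA pr A X).card : ℝ) ≤ ppq pr w X * ((1 + κ) * B.card + κ * (AA pr w).card) := by
      rw [← sum_cls_AA pr w (KA pr A X) hKAcls,
        ← sum_filter_add_sum_filter_not (AA pr w) (fun a => κ * ppq pr w X ≤ (cls w (KA pr A X) a).card), ← hB, mul_add]
      apply add_le_add
      · have h2 : ppq pr w X * ((1 + κ) * B.card) = ∑ a ∈ B, (1 + κ) * ppq pr w X := by
          rw [sum_const, nsmul_eq_mul]
          ring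
        rw [h2]
        apply sum_le_sum
        intro a ha
        have h5 : ((cls w (KA pr A X) a).card : ℝ) ≤ (cls w (KN pr X) a).card := by
          exact_mod_cast card_le_card (cls_mono hKAN a)
        exact h5.trans (hKNc a (hBU ha))
      · calc ∑ a ∈ (AA pr w).filter (fun a => ¬ κ * ppq pr w X ≤ (cls w (KA pr A X) a).card), ((cls w (KA pr A X) a).card : ℝ)
            ≤ ∑ a ∈ (AA pr w).filter (fun a => ¬ κ * ppq pr w X ≤ (cls w (KA pr A X) a).card), κ * ppq pr w X := by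
              apply sum_le_sum
              intro a ha
              rw [mem_filter, not_le] at ha
              exact ha.2.le
          _ ≤ ∑ a ∈ AA pr w, κ * ppq pr w X := by
              apply sum_le_sum_of_subset_of_nonneg (filter_subset _ _)
              intro _ _ _
              positivity
          _ = _ := by
              rw [sum_const, nsmul_eq_mul]
              ring
    have h2 : ppq pr w X * ((AA pr w).card * (β - 2 * κ)) ≤ ppq pr w X * ((1 + κ) * B.card + κ * (AA pr w).card) := by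
      calc ppq pr w X * ((AA pr w).card * (β - 2 * κ)) = (β - 2 * κ) * ((AA pr w).card * ppq pr w X) := by ring
        _ ≤ _ := hKAc.trans h1
    have h3 := le_of_mul_le_mul_left h2 hpp0
    have h4 : (1 + κ) * ((β - ε1) * (AA pr w).card) ≤ (1 + κ) * B.card := by
      have h5 : (1 + κ) * (β - ε1) ≤ β - 3 * κ := by nlinarith
      have h6 : (1 + κ) * (β - ε1) * (AA pr w).card ≤ (β - 3 * κ) * (AA pr w).card :=
        mul_le_mul_of_nonneg_right h5 hAA.le
      linarith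
    exact le_of_mul_le_mul_left h4 (by linarith)
  have hF := hcont w (by omega) B hBU hBc
  -- the classes in `sumq B` contain few elements of the window
  obtain ⟨E, hE⟩ : ∃ E : Finset ℕ, E = win (hit pr g σ A)ᶜ M H := ⟨_, rfl⟩
  rw [← hE] at hcard
  have hEsub : E ⊆ Ioc M (M + H) := by rw [hE]; exact win_subset _ M H
  have hEno : ∀ n ∈ E, n ∉ hit pr g σ A := by
    intro n hn
    rw [hE, mem_win] at hn
    exact hn.2
  have hfew : ∀ t ∈ sumq g σ w B, ((cls w E t).card : ℝ) ≤ ε2 * ((H : ℝ) / Wp w) := by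
    intro t ht
    unfold sumq at ht
    rw [mem_filter] at ht
    obtain ⟨_, a, haB, hta⟩ := ht
    obtain ⟨t', ht1, ht2, ht3⟩ := exists_rep w M t
    have haB' : a ∈ AA pr w ∧ κ * ppq pr w X ≤ (cls w (KA pr A X) a).card := by
      rw [hB, mem_filter] at haB
      exact haB
    obtain ⟨C, hC⟩ : ∃ C : Finset ℕ, C = cls w (KA pr A X) a := ⟨_, rfl⟩
    have hCm : ∀ b ∈ C, (isArg pr b ∧ √(X : ℝ) < b ∧ b ≤ X) ∧ b ∈ A ∧ (b : ZMod (Wp w)) = a := by
      intro b hb
      rw [hC, mem_cls, mem_KA] at hb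
      exact ⟨hb.1.1, hb.1.2, hb.2⟩
    have hCc : κ * ppq pr w X ≤ C.card := by
      rw [hC]
      exact haB'.2
    have hm := hX1 X (by omega) M H t' ht1 ht2 hρH hMHN C (fun b hb => (hCm b hb).1) (by
        intro n hn
        have h1 := (hCm n hn).1
        have h2 : 1 ≤ n := by
          have h3 : (0 : ℝ) < n := lt_of_le_of_lt (Real.sqrt_nonneg _) h1.2.1
          exact_mod_cast h3
        have h3 := abs_le.1 (hgb n h2 h1.2.2)
        have h4 : τ / 8 * x ≤ M := by linarith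
        have h5 : |(σ : ℝ) * ((g.eval (n : ℤ) : ℤ) : ℝ)| ≤ τ / 8 * x := by
          rcases hσ with h | h
          · rw [h]
            push_cast
            rw [one_mul]
            exact abs_le.2 h3
          · rw [h]
            push_cast
            rw [neg_one_mul, abs_neg]
            exact abs_le.2 h3
        have h6 := abs_le.1 h5
        constructor
        · have h7 : (0 : ℝ) ≤ (M : ℝ) + σ * ((g.eval (n : ℤ) : ℤ) : ℝ) := by linarith
          exact_mod_cast h7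
        · have h7 : (M : ℝ) + H + σ * ((g.eval (n : ℤ) : ℤ) : ℝ) ≤ G * (X : ℝ) ^ d := by
            have h8 : τ / 8 * (x : ℝ) ≤ 1 * x := mul_le_mul_of_nonneg_right (by linarith) hx0r.le
            linarith
          exact_mod_cast h7)
      (fun b hb b' hb' => by rw [← ZMod.natCast_eq_natCast_iff, (hCm b hb).2.2, (hCm b' hb').2.2])
      (fun b hb => by rw [ht3, (hCm b hb).2.2]; exact hta) hCc (cls w E t) (by
        intro n hn
        rw [mem_cls] at hn
        unfold It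
        rw [mem_filter]
        refine ⟨hEsub hn.1, ?_⟩
        rw [← ZMod.natCast_eq_natCast_iff, hn.2, ht3])
    have hzero : ∑ N ∈ cls w E t, ∑ n ∈ C, thI (N + σ * g.eval (n : ℤ)) = 0 := by
      apply sum_eq_zero
      intro N hN
      apply sum_eq_zero
      intro n hn
      rw [mem_cls] at hN
      unfold thI
      rw [if_neg]
      intro hp
      exact hEno N hN.1 ⟨n, (hCm n hn).1.1, (hCm n hn).2.1, hp⟩
    rw [hzero] at hm
    have hC0 : (0 : ℝ) < C.card := lt_of_lt_of_le (by positivity) hCc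
    have hvC : 0 < (Vz w)⁻¹ * (C.card : ℝ) := by
      have := Vz_pos w
      positivity
    have h1 := (abs_le.1 hm).1
    have h3 : ((cls w E t).card : ℝ) * ((Vz w)⁻¹ * C.card) ≤ (ε2 * ((H : ℝ) / Wp w)) * ((Vz w)⁻¹ * C.card) := by
      linarith
    exact le_of_mul_le_mul_right h3 hvC
  -- conclusion
  have hs1 : (((sumq g σ w B).card : ℕ) : ℝ) ≤ Wp w := by
    have h1 : (sumq g σ w B).card ≤ Wp w := by
      have := card_le_univ (sumq g σ w B)
      rwa [ZMod.card] at this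
    exact_mod_cast h1
  have hEc : (E.card : ℝ) ≤ ε2 * H + (H - (sumq g σ w B).card / Wp w * H) + Wp w := by
    rw [← sum_cls w E, ← sum_filter_add_sum_filter_not univ (fun t => t ∈ sumq g σ w B)]
    have h1 : ∑ t ∈ univ.filter (fun t => t ∈ sumq g σ w B), ((cls w E t).card : ℝ) ≤ ε2 * H := by
      calc ∑ t ∈ univ.filter (fun t => t ∈ sumq g σ w B), ((cls w E t).card : ℝ)
          ≤ ∑ t ∈ univ.filter (fun t => t ∈ sumq g σ w B), ε2 * ((H : ℝ) / Wp w) := by
            apply sum_le_sum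
            intro t ht
            rw [mem_filter] at ht
            exact hfew t ht.2
        _ = (sumq g σ w B).card * (ε2 * ((H : ℝ) / Wp w)) := by
            rw [sum_const, nsmul_eq_mul, filter_mem_eq_inter, univ_inter]
        _ ≤ Wp w * (ε2 * ((H : ℝ) / Wp w)) := mul_le_mul_of_nonneg_right hs1 (by positivity)
        _ = ε2 * H := by field_simp
    have h2 : ∑ t ∈ univ.filter (fun t => ¬ t ∈ sumq g σ w B), ((cls w E t).card : ℝ) ≤
        (H - (sumq g σ w B).card / Wp w * H) + Wp w := by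
      have hcc : (((univ.filter (fun t => ¬ t ∈ sumq g σ w B)).card : ℕ) : ℝ) = Wp w - (sumq g σ w B).card := by
        have h3 := card_filter_add_card_filter_not (s := (univ : Finset (ZMod (Wp w)))) (fun t => t ∈ sumq g σ w B)
        rw [filter_mem_eq_inter, univ_inter, card_univ, ZMod.card] at h3
        have h4 : (((sumq g σ w B).card : ℕ) : ℝ) + ((univ.filter (fun t => ¬ t ∈ sumq g σ w B)).card : ℕ) = Wp w := by
          exact_mod_cast h3
        linarith
      calc ∑ t ∈ univ.filter (fun t => ¬ t ∈ sumq g σ w B), ((cls w E t).card : ℝ)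
          ≤ ∑ t ∈ univ.filter (fun t => ¬ t ∈ sumq g σ w B), ((H : ℝ) / Wp w + 1) := by
            apply sum_le_sum
            intro t _
            exact cls_card_le w M H E hEsub t
        _ = (Wp w - (sumq g σ w B).card) * ((H : ℝ) / Wp w + 1) := by
            rw [sum_const, nsmul_eq_mul, hcc]
        _ = (H - (sumq g σ w B).card / Wp w * H) + (Wp w - (sumq g σ w B).card) := by field_simp
        _ ≤ _ := by
            have : (0 : ℝ) ≤ (sumq g σ w B).card := Nat.cast_nonneg _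
            linarith
    linarith
  have hfin : (1 - D - τ - τ) * H ≤ (1 - (sumq g σ w B).card / Wp w + 3 * τ) * H := by
    have h1 : ε2 * (H : ℝ) ≤ τ * H := mul_le_mul_of_nonneg_right (by linarith) hH0r.le
    have h2 : 0 ≤ τ * (H : ℝ) := by positivity
    linarith
  have hfin2 := le_of_mul_le_mul_right hfin hH0r
  rw [hτ] at hF hfin2
  linarith

end Pool.Agent.TH881.RQ
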