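import Mathlib
import Pool.Agent.TH881.RQ.Low

/-! The function `FFq`: exact formula and asymptotics. -/

set_option autoImplicit false

namespace Pool.Agent.TH881.RQ

open Finset Filter Topology Polynomial
open Pool.Agent.TH881
open Pool.Agent.TH881.RG
open Pool.Agent.H373R2.T7

/-- unions of classes -/
def StClass (pr : Bool) (g : ℤ[X]) (σ : ℤ) : Prop := ∀ (w : ℕ) (B : Finset (ZMod (Wp w))), B ⊆ AA pr w →
    ∃ A : Set ℕ, (B.card : ℝ) / (AA pr w).card ≤ relq pr A ∧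
      lowerDensity (hit pr g σ A) ≤ ((sumq g σ w B).card : ℝ) / Wp w

/-- the local theorem near density zero -/
def StZero (pr : Bool) (g : ℤ[X]) (σ : ℤ) : Prop := ∀ δ : ℝ, 0 < δ →
    ∃ β0 : ℝ, 0 < β0 ∧ ∀ β : ℝ, 0 < β → β ≤ β0 → ∀ w : ℕ, ∀ B ⊆ AA pr w,
    β * (AA pr w).card ≤ B.card →
    Real.exp (-Real.eulerMascheroniConstant) - δ ≤
      Real.log (Real.log (1 / β)) * (((sumq g σ w B).card : ℝ) / Wp w)

/-- the local example near density zero -/
def StZeroUp (pr : Bool) (g : ℤ[X]) (σ : ℤ) : Prop := ∀ δ : ℝ, 0 < δ →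
    ∃ β0 : ℝ, 0 < β0 ∧ ∀ β : ℝ, 0 < β → β ≤ β0 →
    Real.log (Real.log (1 / β)) * Flocq pr g σ β ≤ Real.exp (-Real.eulerMascheroniConstant) + δ

open Classical in
/-- the classes without obstruction which are missed by `B` -/
noncomputable def miss (pr : Bool) (g : ℤ[X]) (σ : ℤ) (w : ℕ) (B : Finset (ZMod (Wp w))) : Finset (ZMod (Wp w)) :=
  univ.filter (fun t => wtq pr g σ w t ≠ 0 ∧ t ∉ sumq g σ w B)

/-- the local theorem near density one -/
def StOne (pr : Bool) (g : ℤ[X]) (σ : ℤ) (c : ℝ) (τ : ℕ) : Prop := ∀ δ : ℝ, 0 < δ → δ < c →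
    ∃ η0 : ℝ, 0 < η0 ∧ ∀ η : ℝ, 0 < η → η ≤ η0 → ∀ w : ℕ, ∀ B ⊆ AA pr w,
    (1 - η) * (AA pr w).card ≤ B.card →
    ((miss pr g σ w B).card : ℝ) / Wp w ≤ Real.exp (-Real.exp (((c - δ) / η) ^ (1 / (τ : ℝ))))

/-- the local example near density one -/
def StOneUp (pr : Bool) (g : ℤ[X]) (σ : ℤ) (c : ℝ) (τ : ℕ) : Prop := ∀ δ : ℝ, 0 < δ →
    ∃ η0 : ℝ, 0 < η0 ∧ ∀ η : ℝ, 0 < η → η ≤ η0 → ∃ w : ℕ, 2 ≤ w ∧ ∃ B ⊆ AA pr w,
    (1 - η) * (AA pr w).card ≤ B.card ∧
    Real.exp (-Real.exp (((c + δ) / η) ^ (1 / (τ : ℝ)))) ≤ ((miss pr g σ w B).card : ℝ) / Wp w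

/-- the density of the classes without obstruction -/
def StAdm (pr : Bool) (g : ℤ[X]) (σ : ℤ) (α : ℝ) : Prop := α ≤ 1 ∧ ∀ w : ℕ, 2 ≤ w →
    (((miss pr g σ w ∅).card : ℕ) : ℝ) = α * Wp w

lemma Flocq_bdd (pr : Bool) (g : ℤ[X]) (σ : ℤ) (β : ℝ) : BddBelow {d | ∃ w : ℕ, ∃ B ⊆ AA pr w,
    β * (AA pr w).card ≤ B.card ∧ d = ((sumq g σ w B).card : ℝ) / Wp w} := by
  refine ⟨0, ?_⟩
  rintro x ⟨w, B, _, _, rfl⟩
  positivity

lemma Flocq_le {pr : Bool} {g : ℤ[X]} {σ : ℤ} {β : ℝ} {w : ℕ} {B : Finset (ZMod (Wp w))} (hB : B ⊆ AA pr w)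
    (h : β * (AA pr w).card ≤ B.card) : Flocq pr g σ β ≤ ((sumq g σ w B).card : ℝ) / Wp w :=
  csInf_le (Flocq_bdd pr g σ β) ⟨w, B, hB, h, rfl⟩

lemma le_Flocq {pr : Bool} {g : ℤ[X]} {σ : ℤ} {β c : ℝ} (hβ : β ≤ 1) (h : ∀ w : ℕ, ∀ B ⊆ AA pr w,
    β * (AA pr w).card ≤ B.card → c ≤ ((sumq g σ w B).card : ℝ) / Wp w) : c ≤ Flocq pr g σ β := by
  apply le_csInf
  · refine ⟨_, 2, AA pr 2, Finset.Subset.refl _, ?_, rfl⟩
    have := AA_card_pos pr 2
    nlinarith
  · rintro x ⟨w, B, hB, hBc, rfl⟩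
    exact h w B hB hBc

lemma relq_univ (pr : Bool) : relq pr Set.univ = 1 := by
  have h1 : ∀ᶠ n : ℕ in atTop, (cnt {m | isArg pr m ∧ m ∈ Set.univ} n : ℝ) / (cnt {m | isArg pr m} n : ℝ) = 1 := by
    filter_upwards [eventually_ge_atTop 2] with n hn
    have h2 : {m : ℕ | isArg pr m ∧ m ∈ Set.univ} = {m | isArg pr m} := by
      ext p
      constructor
      · exact fun h => h.1
      · exact fun h => ⟨h, Set.mem_univ p⟩
    rw [h2]
    have h3 : 0 < cnt {m | isArg pr m} n := by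
      rw [cnt_eq]
      apply card_pos.2
      refine ⟨2, ?_⟩
      rw [mem_cntS]
      exact ⟨⟨by norm_num, hn⟩, fun _ => Nat.prime_two⟩
    have h4 : (0 : ℝ) < cnt {m | isArg pr m} n := by exact_mod_cast h3
    exact div_self h4.ne'
  unfold relq
  rw [liminf_congr h1]
  exact liminf_const 1

lemma FFq_bdd (pr : Bool) (g : ℤ[X]) (σ : ℤ) (β : ℝ) :
    BddBelow {d | ∃ A : Set ℕ, β ≤ relq pr A ∧ d = lowerDensity (hit pr g σ A)} := by
  refine ⟨0, ?_⟩
  rintro x ⟨A, _, rfl⟩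
  exact lowerDensity_nonneg _

/-- **the exact formula** -/
theorem FFq_eq (pr : Bool) (g : ℤ[X]) (hd : 1 ≤ g.natDegree) (hl : 0 < g.leadingCoeff) (σ : ℤ)
    (hσ : σ = 1 ∨ σ = -1) (hPM : StPMq pr g) (hcont : StCont pr g σ) (hcl : StClass pr g σ)
    (β : ℝ) (hβ : 0 < β) (hβ1 : β < 1) : FFq pr g σ β = Flocq pr g σ β := by
  apply le_antisymm
  · apply le_Flocq hβ1.le
    intro w B hB hBc
    obtain ⟨A, hA1, hA2⟩ := hcl w B hB
    refine (csInf_le (FFq_bdd pr g σ β) ⟨A, ?_, rfl⟩).trans hA2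
    refine le_trans ?_ hA1
    rw [le_div_iff₀ (AA_card_pos pr w)]
    exact hBc
  · apply le_csInf
    · exact ⟨lowerDensity (hit pr g σ Set.univ), Set.univ, by rw [relq_univ]; exact hβ1.le, rfl⟩
    · rintro x ⟨A, hA, rfl⟩
      exact ffq_lower pr g hd hl σ hσ hPM hcont β hβ hβ1 A hA

/-- **the asymptotics at zero**, local form -/
theorem Flocq_zero (pr : Bool) (g : ℤ[X]) (σ : ℤ) (h0 : StZero pr g σ) (h1 : StZeroUp pr g σ) :
    Tendsto (fun β : ℝ => Real.log (Real.log (1 / β)) * Flocq pr g σ β) (𝓝[>] 0)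
      (𝓝 (Real.exp (-Real.eulerMascheroniConstant))) := by
  rw [Metric.tendsto_nhds]
  intro δ hδ
  obtain ⟨β1, hβ1, h0⟩ := h0 (δ / 2) (by positivity)
  obtain ⟨β2, hβ2, h1⟩ := h1 (δ / 2) (by positivity)
  have hβ3 : 0 < min (min β1 β2) (1 / 16) := by positivity
  filter_upwards [Ioo_mem_nhdsGT hβ3] with β hβ
  obtain ⟨hb0, hb1⟩ := hβ
  have hbβ1 : β ≤ β1 := hb1.le.trans ((min_le_left _ _).trans (min_le_left _ _))
  have hbβ2 : β ≤ β2 := hb1.le.trans ((min_le_left _ _).trans (min_le_right _ _))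
  have hb16 : β ≤ 1 / 16 := hb1.le.trans (min_le_right _ _)
  have hll : 0 < Real.log (Real.log (1 / β)) := by
    apply Real.log_pos
    have h3 : (16 : ℝ) ≤ 1 / β := by
      rw [le_div_iff₀ hb0]
      linarith
    have h2 : Real.exp 2 < 1 / β := by
      have e1 := Real.exp_one_lt_d9
      have e2 : Real.exp 2 = Real.exp 1 * Real.exp 1 := by rw [← Real.exp_add]; norm_num
      have e3 := Real.exp_pos 1
      rw [e2]
      nlinarith
    have h4 := Real.log_lt_log (Real.exp_pos _) h2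
    rw [Real.log_exp] at h4
    linarith
  have h2 := h1 β hb0 hbβ2
  have h3 : (Real.exp (-Real.eulerMascheroniConstant) - δ / 2) / Real.log (Real.log (1 / β)) ≤ Flocq pr g σ β := by
    apply le_Flocq (by linarith)
    intro w B hB hBc
    rw [div_le_iff₀ hll, mul_comm]
    exact h0 β hb0 hbβ1 w B hB hBc
  rw [div_le_iff₀ hll] at h3
  rw [Real.dist_eq, abs_lt]
  constructor
  · linarith
  · linarith

lemma miss_eq (pr : Bool) (g : ℤ[X]) (σ : ℤ) (w : ℕ) (B : Finset (ZMod (Wp w))) (hB : B ⊆ AA pr w) :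
    (miss pr g σ w B).card + (sumq g σ w B).card = (miss pr g σ w ∅).card := by
  classical
  rw [← card_union_of_disjoint]
  · congr 1
    ext t
    unfold miss sumq
    simp only [mem_union, mem_filter, mem_univ, true_and]
    constructor
    · rintro (h | h)
      · refine ⟨h.1, ?_⟩
        rintro ⟨a, ha, _⟩
        exact absurd ha (notMem_empty a)
      · refine ⟨?_, ?_⟩
        · obtain ⟨a, ha, hg⟩ := h
          unfold wtq
          apply ne_of_gt
          apply div_pos _ (AA_card_pos pr w)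
          have h1 : 0 < ((AA pr w).filter (fun a => gd g σ w t a)).card := by
            apply card_pos.2
            exact ⟨a, by rw [mem_filter]; exact ⟨hB ha, hg⟩⟩
          exact_mod_cast h1
        · rintro ⟨a, ha, _⟩
          exact absurd ha (notMem_empty a)
    · rintro ⟨h1, _⟩
      by_cases h2 : ∃ a ∈ B, gd g σ w t a
      · exact Or.inr h2
      · exact Or.inl ⟨h1, h2⟩
  · rw [Finset.disjoint_left]
    intro t h1 h2
    unfold miss at h1
    rw [mem_filter] at h1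
    exact h1.2.2 h2

/-- **the asymptotics at one**, local form -/
theorem Flocq_one (pr : Bool) (g : ℤ[X]) (σ : ℤ) (α c : ℝ) (τ : ℕ) (hc : 0 < c) (hτ : 1 ≤ τ)
    (hα : StAdm pr g σ α) (h0 : StOne pr g σ c τ) (h1 : StOneUp pr g σ c τ) :
    Tendsto (fun β : ℝ => (1 - β) * Real.log (Real.log (1 / (α - Flocq pr g σ β))) ^ τ) (𝓝[<] 1) (𝓝 c) := by
  classical
  rw [Metric.tendsto_nhds]
  intro δ hδ
  obtain ⟨δ1, hδ1⟩ : ∃ δ1 : ℝ, δ1 = min (δ / 2) (c / 2) := ⟨_, rfl⟩
  have hδ10 : 0 < δ1 := by rw [hδ1]; positivity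
  have hδ1a : δ1 ≤ δ / 2 := by rw [hδ1]; exact min_le_left _ _
  have hδ1b : δ1 ≤ c / 2 := by rw [hδ1]; exact min_le_right _ _
  obtain ⟨η1, hη1, h0⟩ := h0 δ1 hδ10 (by linarith)
  obtain ⟨η2, hη2, h1⟩ := h1 δ1 hδ10
  have hη3 : 0 < min (min η1 η2) (1 / 2) := by positivity
  have hmem : Set.Ioo (1 - min (min η1 η2) (1 / 2)) 1 ∈ 𝓝[<] (1 : ℝ) := by
    apply Ioo_mem_nhdsLT
    linarith
  filter_upwards [hmem] with β hβ
  obtain ⟨hb1, hb2⟩ := hβ
  obtain ⟨η, hη⟩ : ∃ η : ℝ, η = 1 - β := ⟨_, rfl⟩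
  have hη0 : 0 < η := by rw [hη]; linarith
  have hηle : η < min (min η1 η2) (1 / 2) := by rw [hη]; linarith
  have hηle1 : η ≤ η1 := hηle.le.trans ((min_le_left _ _).trans (min_le_left _ _))
  have hηle2 : η ≤ η2 := hηle.le.trans ((min_le_left _ _).trans (min_le_right _ _))
  have hηh : η ≤ 1 / 2 := hηle.le.trans (min_le_right _ _)
  have hβη : β = 1 - η := by rw [hη]; ring
  have hτr : (0 : ℝ) < τ := by exact_mod_cast hτ
  -- upper bound
  have hup : α - Flocq pr g σ β ≤ Real.exp (-Real.exp (((c - δ1) / η) ^ (1 / (τ : ℝ)))) := by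
    have h3 : α - Real.exp (-Real.exp (((c - δ1) / η) ^ (1 / (τ : ℝ)))) ≤ Flocq pr g σ β := by
      apply le_Flocq hb2.le
      intro w B hB hBc
      have hW : (0 : ℝ) < Wp w := by exact_mod_cast Wp_pos w
      rcases Nat.lt_or_ge w 2 with hw | hw
      · have hW0 : Wp w = 1 := by
          unfold Wp
          apply prod_eq_one
          intro p hp
          rw [mem_pz] at hp
          have := hp.2.two_le
          omega
        have hsub : Subsingleton (ZMod (Wp w)) := by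
          rw [hW0]
          infer_instance
        have hBne : B.Nonempty := by
          rw [← card_pos]
          have h1 := AA_card_pos pr w
          have h2 : (0 : ℝ) < B.card := lt_of_lt_of_le (by rw [hβη]; nlinarith) hBc
          exact_mod_cast h2
        obtain ⟨b, hb⟩ := hBne
        have hs : sumq g σ w B = univ := by
          rw [Finset.eq_univ_iff_forall]
          intro t
          unfold sumq
          rw [mem_filter]
          refine ⟨mem_univ _, b, hb, ?_⟩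
          unfold gd
          rw [Subsingleton.elim (t + (σ : ZMod (Wp w)) * gv g w b) 1]
          exact isUnit_one
        rw [hs, card_univ, ZMod.card, div_self hW.ne']
        have := Real.exp_pos (-Real.exp (((c - δ1) / η) ^ (1 / (τ : ℝ))))
        linarith [hα.1]
      · have h4 := h0 η hη0 hηle1 w B hB (by rw [← hβη]; exact hBc)
        have h5 : ((miss pr g σ w B).card : ℝ) + (sumq g σ w B).card = α * Wp w := by
          rw [← hα.2 w hw]
          exact_mod_cast miss_eq pr g σ w B hB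
        have h6 : α = ((miss pr g σ w B).card : ℝ) / Wp w + ((sumq g σ w B).card : ℝ) / Wp w := by
          field_simp
          linarith
        linarith
    linarith
  have hlow : Real.exp (-Real.exp (((c + δ1) / η) ^ (1 / (τ : ℝ)))) ≤ α - Flocq pr g σ β := by
    obtain ⟨w, hw, B, hB, hBc, h3⟩ := h1 η hη0 hηle2
    have hW : (0 : ℝ) < Wp w := by exact_mod_cast Wp_pos w
    have h4 : Flocq pr g σ β ≤ ((sumq g σ w B).card : ℝ) / Wp w := by
      apply Flocq_le hB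
      rw [hβη]
      exact hBc
    have h5 : ((miss pr g σ w B).card : ℝ) + (sumq g σ w B).card = α * Wp w := by
      rw [← hα.2 w hw]
      exact_mod_cast miss_eq pr g σ w B hB
    have h6 : α = ((miss pr g σ w B).card : ℝ) / Wp w + ((sumq g σ w B).card : ℝ) / Wp w := by
      field_simp
      linarith
    linarith
  have hpos : 0 < α - Flocq pr g σ β := lt_of_lt_of_le (Real.exp_pos _) hlow
  have hneg : Real.log (1 / (α - Flocq pr g σ β)) = -Real.log (α - Flocq pr g σ β) := by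
    rw [one_div, Real.log_inv]
  have hlog1 : Real.log (1 / (α - Flocq pr g σ β)) ≤ Real.exp (((c + δ1) / η) ^ (1 / (τ : ℝ))) := by
    rw [hneg]
    have h3 := Real.log_le_log (Real.exp_pos _) hlow
    rw [Real.log_exp] at h3
    linarith
  have hlog2 : Real.exp (((c - δ1) / η) ^ (1 / (τ : ℝ))) ≤ Real.log (1 / (α - Flocq pr g σ β)) := by
    rw [hneg]
    have h3 := Real.log_le_log hpos hup
    rw [Real.log_exp] at h3
    linarith
  have hlogpos : 0 < Real.log (1 / (α - Flocq pr g σ β)) := lt_of_lt_of_le (Real.exp_pos _) hlog2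
  have hll1 : Real.log (Real.log (1 / (α - Flocq pr g σ β))) ≤ ((c + δ1) / η) ^ (1 / (τ : ℝ)) := by
    have h3 := Real.log_le_log hlogpos hlog1
    rwa [Real.log_exp] at h3
  have hll2 : ((c - δ1) / η) ^ (1 / (τ : ℝ)) ≤ Real.log (Real.log (1 / (α - Flocq pr g σ β))) := by
    have h3 := Real.log_le_log (Real.exp_pos _) hlog2
    rwa [Real.log_exp] at h3
  have hx1 : 0 ≤ (c - δ1) / η := div_nonneg (by linarith) hη0.le
  have hx2 : 0 ≤ (c + δ1) / η := div_nonneg (by linarith) hη0.le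
  have hpw : ∀ x : ℝ, 0 ≤ x → (x ^ (1 / (τ : ℝ))) ^ τ = x := by
    intro x hx
    rw [← Real.rpow_natCast, ← Real.rpow_mul hx, one_div, inv_mul_cancel₀ hτr.ne', Real.rpow_one]
  have h7 := pow_le_pow_left₀ (Real.rpow_nonneg hx1 _) hll2 τ
  have h8 := pow_le_pow_left₀ ((Real.rpow_nonneg hx1 _).trans hll2) hll1 τ
  rw [hpw _ hx1, div_le_iff₀ hη0] at h7
  rw [hpw _ hx2, le_div_iff₀ hη0] at h8
  rw [← hη, Real.dist_eq, abs_lt]
  constructor
  · linarith
  · linarith

end Pool.Agent.TH881.RQ
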