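import Mathlib
import Pool.Agent.TH881.RQ.Fin

/-! Local obstructions. -/

set_option autoImplicit false

namespace Pool.Agent.TH881.RQ

open Finset Filter Topology Polynomial
open Pool.Agent.TH881
open Pool.Agent.TH881.RG
open Pool.Agent.H373R2.T7

lemma exists_arg (pr : Bool) (g : ℤ[X]) (σ : ℤ) (n : ℤ) (s : Finset ℕ) (hs : ∀ p ∈ s, p.Prime)
    (h : ∀ p ∈ s, ∃ r : ℕ, (pr = true → ¬ p ∣ r) ∧ ¬ (p : ℤ) ∣ n + σ * g.eval (r : ℤ)) :
    ∃ a : ℕ, ∀ p ∈ s, (pr = true → ¬ p ∣ a) ∧ ¬ (p : ℤ) ∣ n + σ * g.eval (a : ℤ) := by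
  classical
  induction s using Finset.induction_on with
  | empty => exact ⟨0, fun p hp => absurd hp (notMem_empty p)⟩
  | insert p s hps ih =>
    obtain ⟨a, ha⟩ := ih (fun q hq => hs q (mem_insert_of_mem hq)) (fun q hq => h q (mem_insert_of_mem hq))
    have hp := hs p (mem_insert_self p s)
    have hco : Nat.Coprime (∏ q ∈ s, q) p := by
      apply Nat.Coprime.prod_left
      intro q hq
      exact (Nat.coprime_primes (hs q (mem_insert_of_mem hq)) hp).2 (fun h => hps (h ▸ hq))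
    obtain ⟨r, hr1, hr2⟩ := h p (mem_insert_self p s)
    obtain ⟨k, hk1, hk2⟩ := Nat.chineseRemainder hco a r
    refine ⟨k, ?_⟩
    have key : ∀ q b : ℕ, k ≡ b [MOD q] → (pr = true → ¬ q ∣ b) → ¬ ((q : ℤ) ∣ n + σ * g.eval (b : ℤ)) →
        (pr = true → ¬ q ∣ k) ∧ ¬ ((q : ℤ) ∣ n + σ * g.eval (k : ℤ)) := by
      intro q b hkb h1 h2
      refine ⟨fun hpr h => h1 hpr ((hkb.dvd_iff dvd_rfl).1 h), fun h => h2 ?_⟩
      have h3 : (q : ℤ) ∣ (b : ℤ) - k := (Nat.modEq_iff_dvd.1 hkb)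
      have h4 := h3.trans (Polynomial.sub_dvd_eval_sub (b : ℤ) (k : ℤ) g)
      have h5 := dvd_add h (h4.mul_left σ)
      have h6 : n + σ * g.eval (k : ℤ) + σ * (g.eval (b : ℤ) - g.eval (k : ℤ)) = n + σ * g.eval (b : ℤ) := by ring
      rwa [h6] at h5
    intro q hq
    rcases mem_insert.1 hq with h | h
    · rw [h]
      exact key p r hk2 hr1 hr2
    · exact key q a (hk1.of_dvd (dvd_prod_of_mem _ h)) (ha q h).1 (ha q h).2

lemma unit_iff (w : ℕ) (n : ℤ) : IsUnit ((n : ℤ) : ZMod (Wp w)) ↔ ∀ p : ℕ, p.Prime → p ≤ w → ¬ (p : ℤ) ∣ n := by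
  have hW := Wp_pos w
  obtain ⟨k, hk⟩ : ∃ k : ℕ, ((k : ℕ) : ZMod (Wp w)) = ((n : ℤ) : ZMod (Wp w)) := by
    refine ⟨((n : ℤ) : ZMod (Wp w)).val, ?_⟩
    exact ZMod.natCast_zmod_val _
  have hkn : (Wp w : ℤ) ∣ n - k := by
    have h1 : (((k : ℕ) : ℤ) : ZMod (Wp w)) = ((n : ℤ) : ZMod (Wp w)) := by
      rw [← hk]
      simp
    exact (ZMod.intCast_eq_intCast_iff_dvd_sub _ _ _).1 h1
  have hdvd : ∀ p : ℕ, p.Prime → p ≤ w → ((p : ℤ) ∣ n ↔ p ∣ k) := by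
    intro p hp hpw
    have h1 : (p : ℤ) ∣ (Wp w : ℤ) := by exact_mod_cast (prime_dvd_Wp hp).2 hpw
    have h2 := h1.trans hkn
    constructor
    · intro h3
      have h4 := dvd_sub h3 h2
      have h5 : n - (n - k) = k := by ring
      rw [h5] at h4
      exact_mod_cast h4
    · intro h3
      have h4 : (p : ℤ) ∣ (k : ℤ) := by exact_mod_cast h3
      have h5 := dvd_add h2 h4
      have h6 : n - (k : ℤ) + k = n := by ring
      rwa [h6] at h5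
  rw [← hk, ZMod.isUnit_iff_coprime]
  constructor
  · intro h p hp hpw hd
    rw [hdvd p hp hpw] at hd
    exact Nat.not_coprime_of_dvd_of_dvd hp.one_lt hd ((prime_dvd_Wp hp).2 hpw) h
  · intro h
    apply Nat.coprime_of_dvd
    intro p hp hpk hpW
    have hpw := (prime_dvd_Wp hp).1 hpW
    exact h p hp hpw ((hdvd p hp hpw).2 hpk)

lemma gd_iff (g : ℤ[X]) (σ : ℤ) (w : ℕ) (n : ℤ) (a : ℕ) : gd g σ w ((n : ℤ) : ZMod (Wp w)) (a : ZMod (Wp w)) ↔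
    ∀ p : ℕ, p.Prime → p ≤ w → ¬ (p : ℤ) ∣ n + σ * g.eval (a : ℤ) := by
  rw [← unit_iff]
  unfold gd
  rw [gv_cast]
  push_cast
  exact Iff.rfl

lemma wtq_ne_zero (pr : Bool) (g : ℤ[X]) (σ : ℤ) (w : ℕ) (n : ℤ)
    (h : ∀ p : ℕ, p.Prime → p ≤ w → ∃ r : ℕ, (pr = true → ¬ p ∣ r) ∧ ¬ (p : ℤ) ∣ n + σ * g.eval (r : ℤ)) :
    wtq pr g σ w ((n : ℤ) : ZMod (Wp w)) ≠ 0 := by
  classical
  obtain ⟨a, ha⟩ := exists_arg pr g σ n (pz w) (fun p hp => (mem_pz.1 hp).2) (fun p hp => by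
    rw [mem_pz] at hp
    exact h p hp.2 hp.1)
  have ha' : ∀ p : ℕ, p.Prime → p ≤ w → (pr = true → ¬ p ∣ a) ∧ ¬ (p : ℤ) ∣ n + σ * g.eval (a : ℤ) := fun p hp hpw =>
    ha p (mem_pz.2 ⟨hpw, hp⟩)
  unfold wtq
  apply ne_of_gt
  apply div_pos _ (AA_card_pos pr w)
  have h1 : 0 < ((AA pr w).filter (fun b => gd g σ w ((n : ℤ) : ZMod (Wp w)) b)).card := by
    apply card_pos.2
    refine ⟨(a : ZMod (Wp w)), ?_⟩
    rw [mem_filter]
    constructor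
    · unfold AA
      rw [mem_filter]
      refine ⟨mem_univ _, fun hpr => ?_⟩
      have h2 := (unit_iff w (a : ℤ)).2 (fun p hp hpw hd => (ha' p hp hpw).1 hpr (by exact_mod_cast hd))
      simpa using h2
    · rw [gd_iff]
      exact fun p hp hpw => (ha' p hp hpw).2
  exact_mod_cast h1

lemma wtq_eq_zero (pr : Bool) (g : ℤ[X]) (σ : ℤ) (w : ℕ) (n : ℤ) (p : ℕ) (hp : p.Prime) (hpw : p ≤ w)
    (h : ∀ r : ℕ, (pr = true → ¬ p ∣ r) → (p : ℤ) ∣ n + σ * g.eval (r : ℤ)) :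
    wtq pr g σ w ((n : ℤ) : ZMod (Wp w)) = 0 := by
  classical
  unfold wtq
  rw [div_eq_zero_iff]
  left
  rw [Nat.cast_eq_zero, card_eq_zero, Finset.filter_eq_empty_iff]
  intro b hb
  unfold AA at hb
  rw [mem_filter] at hb
  have hbr : ((b.val : ℕ) : ZMod (Wp w)) = b := ZMod.natCast_zmod_val b
  rw [← hbr, gd_iff]
  push Not
  refine ⟨p, hp, hpw, h _ ?_⟩
  intro hpr hd
  have h1 := hb.2 hpr
  rw [← hbr] at h1
  have h2 : IsUnit (((b.val : ℕ) : ℤ) : ZMod (Wp w)) := by simpa using h1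
  exact (unit_iff w ((b.val : ℕ) : ℤ)).1 h2 p hp hpw (by exact_mod_cast hd)

/-- no local obstruction at all -/
lemma stAdm_one (pr : Bool) (g : ℤ[X]) (σ : ℤ)
    (h : ∀ p : ℕ, p.Prime → ∀ n : ℤ, ∃ r : ℕ, (pr = true → ¬ p ∣ r) ∧ ¬ (p : ℤ) ∣ n + σ * g.eval (r : ℤ)) :
    StAdm pr g σ 1 := by
  classical
  refine ⟨le_rfl, ?_⟩
  intro w _
  have h1 : miss pr g σ w ∅ = univ := by
    rw [Finset.eq_univ_iff_forall]
    intro t
    unfold miss
    rw [mem_filter]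
    refine ⟨mem_univ _, ?_, ?_⟩
    · have h2 := wtq_ne_zero pr g σ w (t.val : ℤ) (fun p hp _ => h p hp _)
      have h3 : (((t.val : ℕ) : ℤ) : ZMod (Wp w)) = t := by
        have := ZMod.natCast_zmod_val t
        simpa using this
      rwa [h3] at h2
    · unfold sumq
      rw [mem_filter]
      rintro ⟨_, a, ha, _⟩
      exact absurd ha (notMem_empty a)
  rw [h1, card_univ, ZMod.card, one_mul]

end Pool.Agent.TH881.RQ
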