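import Mathlib
import Pool.Agent.TH881.RQ.Adm
import Pool.Agent.TH159.J2919
import Pool.Agent.TH554.J2921
import Pool.Agent.TH914.J2922
import Pool.Agent.TH365.J2923
import Pool.Agent.TH359.J2924
import Pool.Agent.TH914.J2925
import Pool.Agent.TH959.J3002
import Pool.Agent.TH81.J3006
import Pool.Agent.TH761.J2920
import Pool.Agent.TH126.J3003
import Pool.Agent.TH416.J3004
import Pool.Agent.TH857.J3005

/-! Assembly. -/

set_option autoImplicit false

namespace Pool.Agent.TH881.RQ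

open Finset Filter Topology Polynomial
open Pool.Agent.TH881
open Pool.Agent.TH881.RG
open Pool.Agent.H373R2.T7

theorem stPMq_in (pr : Bool) (g : ℤ[X]) (hd : 1 ≤ g.natDegree) (hl : 0 < g.leadingCoeff) : StPMq pr g := by
  cases pr with
  | true => exact Pool.Agent.TH359.J2924.stPMq_prime g hd hl
  | false => exact Pool.Agent.TH365.J2923.stPMq_all g hd hl

theorem stCont_in (pr : Bool) (g : ℤ[X]) (σ : ℤ) (hσ : σ = 1 ∨ σ = -1) : StCont pr g σ :=
  fun β τ h1 h2 h3 => Pool.Agent.TH959.J3002.flocq_cont pr g σ hσ β τ h1 h2 h3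

theorem stOneUp_in (pr : Bool) (g : ℤ[X]) (σ : ℤ) (hσ : σ = 1 ∨ σ = -1) (c : ℝ) (τ : ℕ) (hc : 0 < c)
    (hτ : 1 ≤ τ) (hΦ : Tendsto (fun w : ℕ => Phq (uq pr g) w * Real.log w ^ τ) atTop (𝓝 c)) :
    StOneUp pr g σ c τ := by
  intro δ hδ
  unfold miss
  exact Pool.Agent.TH81.RQJ.local_example pr g σ hσ c τ hc hτ hΦ δ hδ

theorem uq_nonneg (pr : Bool) (g : ℤ[X]) (p : ℕ) : 0 ≤ uq pr g p := by
  unfold uq
  positivity

lemma Aq_pos (pr : Bool) (p : ℕ) (hp : p.Prime) : 1 ≤ Aq pr p := by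
  unfold Aq
  have := hp.two_le
  split_ifs <;> omega

lemma Aq_ge (pr : Bool) (p : ℕ) (hp : p.Prime) : (p : ℝ) / 2 ≤ Aq pr p := by
  unfold Aq
  have h := hp.two_le
  have h2 : (2 : ℝ) ≤ p := by exact_mod_cast h
  split_ifs
  · rw [Nat.cast_sub (by omega)]
    push_cast
    linarith
  · linarith

theorem stMBq_in (pr : Bool) (g : ℤ[X]) : StMBq (uq pr g) := by
  apply Pool.Agent.TH554.J2921.stMBq_of (uq pr g) (fun p _ => uq_nonneg pr g p) _ (2 * g.natDegree)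
  · intro p hp
    have h1 := Pool.Agent.TH914.J2922.mq_le pr g p hp
    have h2 := Aq_ge pr p hp
    have h3 : (0 : ℝ) < p := by exact_mod_cast hp.pos
    have h4 : (0 : ℝ) < Aq pr p := by linarith
    unfold uq
    rw [div_le_div_iff₀ h4 h3]
    have h5 : (mq pr g p : ℝ) ≤ g.natDegree := by exact_mod_cast h1
    have h6 : (0 : ℝ) ≤ g.natDegree := Nat.cast_nonneg _
    nlinarith
  · intro p hp
    have h1 := Pool.Agent.TH914.J2922.mq_lt pr g p hp
    have h4 : (0 : ℝ) < Aq pr p := by exact_mod_cast Aq_pos pr p hp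
    unfold uq
    rw [div_lt_one h4]
    exact_mod_cast h1

lemma nuq_le_Aq (pr : Bool) (g : ℤ[X]) (p t : ℕ) (hp : p.Prime) : nuq pr g p t ≤ Aq pr p := by
  classical
  unfold nuq Aq
  cases pr with
  | false => 
    simp only [Bool.false_eq_true, false_implies, true_and, if_false]
    refine (card_filter_le _ _).trans ?_
    rw [card_range]
  | true =>
    simp only [forall_const, if_true]
    have h1 : (range p).filter (fun a => ¬ p ∣ a ∧ (p : ℤ) ∣ g.eval (a : ℤ) - t) ⊆ (range p).erase 0 := by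
      intro a ha
      rw [mem_filter] at ha
      rw [mem_erase]
      exact ⟨by rintro rfl; exact ha.2.1 (dvd_zero p), ha.1⟩
    refine (card_le_card h1).trans ?_
    rw [card_erase_of_mem (mem_range.2 hp.pos), card_range]

lemma nuq_le_deg (pr : Bool) (g : ℤ[X]) (hd : 1 ≤ g.natDegree) (p t : ℕ) (hp : p.Prime)
    (hl : ¬ (p : ℤ) ∣ g.leadingCoeff) : nuq pr g p t ≤ g.natDegree := by
  classical
  have : Fact p.Prime := ⟨hp⟩
  have hev : ∀ a : ℕ, (g.map (Int.castRingHom (ZMod p))).eval (a : ZMod p) = (t : ZMod p) ↔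
      (p : ℤ) ∣ g.eval (a : ℤ) - t := by
    intro a
    have h1 := eval_intCast_map (Int.castRingHom (ZMod p)) g (a : ℤ)
    simp only [Int.cast_natCast, eq_intCast] at h1
    rw [h1, ← ZMod.intCast_zmod_eq_zero_iff_dvd]
    push_cast
    rw [sub_eq_zero]
  have hinj : Set.InjOn (fun a : ℕ => (a : ZMod p)) (range p : Finset ℕ) := by
    intro a ha b hb hab
    rw [coe_range, Set.mem_Iio] at ha hb
    have h1 := (ZMod.natCast_eq_natCast_iff' a b p).1 hab
    rwa [Nat.mod_eq_of_lt ha, Nat.mod_eq_of_lt hb] at h1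
  have hne : g.map (Int.castRingHom (ZMod p)) ≠ C (t : ZMod p) := by
    intro hC
    have h1 : (g.map (Int.castRingHom (ZMod p))).natDegree = g.natDegree := by
      apply natDegree_map_of_leadingCoeff_ne_zero
      rw [eq_intCast, Ne, ZMod.intCast_zmod_eq_zero_iff_dvd]
      exact hl
    rw [hC, natDegree_C] at h1
    omega
  have h1 : nuq pr g p t = (((range p).filter (fun a => (pr = true → ¬ p ∣ a) ∧
      (p : ℤ) ∣ g.eval (a : ℤ) - t)).image (fun a : ℕ => (a : ZMod p))).card := by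
    rw [card_image_of_injOn]
    · unfold nuq
      congr
    · refine hinj.mono ?_
      exact_mod_cast filter_subset _ _
  rw [h1]
  refine Pool.Agent.TH914.J2922.card_roots_le hp g (t : ZMod p) _ ?_ hne
  intro a ha
  rw [mem_image] at ha
  obtain ⟨b, hb, rfl⟩ := ha
  rw [mem_filter] at hb
  exact (hev b).2 hb.2.2

theorem stMBd_in (pr : Bool) (g : ℤ[X]) (hd : 1 ≤ g.natDegree) (hl : 0 < g.leadingCoeff) : StMBd (ubq pr g) := by
  apply Pool.Agent.TH554.J2921.stMBd_of (ubq pr g) (fun p _ => by unfold ubq; positivity)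
    ((2 * g.natDegree : ℕ) + (g.leadingCoeff : ℝ))
  intro p hp
  have h2 := Aq_ge pr p hp
  have h3 : (0 : ℝ) < p := by exact_mod_cast hp.pos
  have h4 : (0 : ℝ) < Aq pr p := by linarith
  have hl0 : (0 : ℝ) < g.leadingCoeff := by exact_mod_cast hl
  unfold ubq
  by_cases hpl : (p : ℤ) ∣ g.leadingCoeff
  · have h5 : (p : ℤ) ≤ g.leadingCoeff := Int.le_of_dvd hl hpl
    have h6 : (p : ℝ) ≤ g.leadingCoeff := by exact_mod_cast h5
    have h7 : (range p).sup (nuq pr g p) ≤ Aq pr p := Finset.sup_le (fun t _ => nuq_le_Aq pr g p t hp)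
    have h8 : (((range p).sup (nuq pr g p) : ℕ) : ℝ) ≤ Aq pr p := by exact_mod_cast h7
    calc (((range p).sup (nuq pr g p) : ℕ) : ℝ) / Aq pr p ≤ 1 := by rw [div_le_one h4]; exact h8
      _ ≤ _ := by
          rw [le_div_iff₀ h3]
          have : (0 : ℝ) ≤ ((2 * g.natDegree : ℕ) : ℝ) := Nat.cast_nonneg _
          linarith
  · have h7 : (range p).sup (nuq pr g p) ≤ g.natDegree := Finset.sup_le (fun t _ => nuq_le_deg pr g hd p t hp hpl)
    have h8 : (((range p).sup (nuq pr g p) : ℕ) : ℝ) ≤ g.natDegree := by exact_mod_cast h7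
    rw [div_le_div_iff₀ h4 h3]
    push_cast
    have h9 : (0 : ℝ) ≤ g.natDegree := Nat.cast_nonneg _
    have h10 : (((range p).sup (nuq pr g p) : ℕ) : ℝ) * p ≤ g.natDegree * p := mul_le_mul_of_nonneg_right h8 h3.le
    have h11 : (2 * (g.natDegree : ℝ)) * (p / 2) ≤ (2 * (g.natDegree : ℝ)) * Aq pr p := mul_le_mul_of_nonneg_left h2 (by positivity)
    have h12 : 0 ≤ (g.leadingCoeff : ℝ) * Aq pr p := by positivity
    linarith

theorem stAbs_in : Pool.Agent.TH761.J2920.StAbs := by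
  intro ι _ X Y _ _ _ bad hbad s hs T hT hT0 c b hb hsb hc hcol K k hK hk e h0 h1 S hS hS0
  exact Pool.Agent.TH159.J2919.moment_abs X Y bad hbad s hs T hT hT0 c b hb hsb hc hcol K k hK hk e h0 h1 S hS hS0

theorem stMIq_in (pr : Bool) (g : ℤ[X]) (σ : ℤ) (hσ : σ = 1 ∨ σ = -1) : StMIq pr g σ :=
  Pool.Agent.TH761.J2920.stMIq_of stAbs_in pr g σ hσ

theorem stMId_in (pr : Bool) (g : ℤ[X]) (σ : ℤ) (hσ : σ = 1 ∨ σ = -1) : StMId pr g σ :=
  Pool.Agent.TH761.J2920.stMId_of stAbs_in pr g σ hσ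

theorem stOne_in (pr : Bool) (g : ℤ[X]) (σ : ℤ) (hσ : σ = 1 ∨ σ = -1) (c : ℝ) (τ : ℕ) (hc : 0 < c)
    (hτ : 1 ≤ τ) (hΦ : Tendsto (fun w : ℕ => Phq (uq pr g) w * Real.log w ^ τ) atTop (𝓝 c)) :
    StOne pr g σ c τ := by
  intro δ hδ hδc
  unfold miss
  exact Pool.Agent.TH126.J3003.local_one pr g σ c τ hc hτ hΦ (stMIq_in pr g σ hσ) (stMBq_in pr g)
    (Pool.Agent.TH914.J2922.stWLq pr g σ hσ) δ hδ hδc

theorem stZero_in (pr : Bool) (g : ℤ[X]) (hd : 1 ≤ g.natDegree) (hl : 0 < g.leadingCoeff) (σ : ℤ)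
    (hσ : σ = 1 ∨ σ = -1) : StZero pr g σ := by
  intro δ hδ
  exact Pool.Agent.TH857.J3005.local_zero pr g σ (stMId_in pr g σ hσ) (stMBd_in pr g hd hl) δ hδ

theorem stZeroUp_in (pr : Bool) (g : ℤ[X]) (σ : ℤ) (hσ : σ = 1 ∨ σ = -1) : StZeroUp pr g σ := by
  intro δ hδ
  exact Pool.Agent.TH857.J3005.floc_zero_upper pr g σ hσ δ hδ

theorem stClass_in (pr : Bool) (g : ℤ[X]) (hd : 2 ≤ g.natDegree) (hl : 0 < g.leadingCoeff) (σ : ℤ)
    (hσ : σ = 1 ∨ σ = -1) : StClass pr g σ := fun w B hB =>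
  Pool.Agent.TH416.J3004.ffq_class Pool.Agent.TH881.RG.stPC pr g hd hl σ hσ w B hB

/-- **The exact formula for the least density.** -/
theorem formula (pr : Bool) (g : ℤ[X]) (hd : 2 ≤ g.natDegree) (hl : 0 < g.leadingCoeff) (σ : ℤ)
    (hσ : σ = 1 ∨ σ = -1) (β : ℝ) (hβ : 0 < β) (hβ1 : β < 1) : FFq pr g σ β = Flocq pr g σ β :=
  FFq_eq pr g (by omega) hl σ hσ (stPMq_in pr g (by omega) hl) (stCont_in pr g σ hσ)
    (stClass_in pr g hd hl σ hσ) β hβ hβ1

/-- the law at zero -/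
theorem law_zero (pr : Bool) (g : ℤ[X]) (hd : 2 ≤ g.natDegree) (hl : 0 < g.leadingCoeff) (σ : ℤ)
    (hσ : σ = 1 ∨ σ = -1) :
    Tendsto (fun β : ℝ => Real.log (Real.log (1 / β)) * FFq pr g σ β) (𝓝[>] 0)
      (𝓝 (Real.exp (-Real.eulerMascheroniConstant))) := by
  refine (Flocq_zero pr g σ (stZero_in pr g (by omega) hl σ hσ) (stZeroUp_in pr g σ hσ)).congr' ?_
  filter_upwards [Ioo_mem_nhdsGT (show (0 : ℝ) < 1 by norm_num)] with β hβ
  rw [formula pr g hd hl σ hσ β hβ.1 hβ.2]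

/-- the law at one -/
theorem law_one (pr : Bool) (g : ℤ[X]) (hd : 2 ≤ g.natDegree) (hl : 0 < g.leadingCoeff) (σ : ℤ)
    (hσ : σ = 1 ∨ σ = -1) (α c : ℝ) (τ : ℕ) (hc : 0 < c) (hτ : 1 ≤ τ)
    (hΦ : Tendsto (fun w : ℕ => Phq (uq pr g) w * Real.log w ^ τ) atTop (𝓝 c)) (hα : StAdm pr g σ α) :
    Tendsto (fun β : ℝ => (1 - β) * Real.log (Real.log (1 / (α - FFq pr g σ β))) ^ τ) (𝓝[<] 1) (𝓝 c) := by
  refine (Flocq_one pr g σ α c τ hc hτ hα (stOne_in pr g σ hσ c τ hc hτ hΦ)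
    (stOneUp_in pr g σ hσ c τ hc hτ hΦ)).congr' ?_
  filter_upwards [Ioo_mem_nhdsLT (show (0 : ℝ) < 1 by norm_num)] with β hβ
  rw [formula pr g hd hl σ hσ β hβ.1 hβ.2]

/-- no local obstruction for squares -/
theorem stAdm_sq (σ : ℤ) (hσ : σ = 1 ∨ σ = -1) : StAdm false (X ^ 2 : ℤ[X]) σ 1 := by
  apply stAdm_one
  intro p hp n
  by_cases h : (p : ℤ) ∣ n
  · refine ⟨1, fun h => absurd h (by simp), ?_⟩
    intro h2
    have h3 := dvd_sub h2 h
    have h4 : (p : ℤ) ∣ 1 := by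
      rcases hσ with h5 | h5
      · rw [h5] at h3
        simpa using h3
      · rw [h5] at h3
        simpa using h3
    have h5 := Int.le_of_dvd (by norm_num) h4
    have := hp.two_le
    omega
  · refine ⟨0, fun h => absurd h (by simp), ?_⟩
    simpa using h

end Pool.Agent.TH881.RQ
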