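import Mathlib
import Pool.Agent.TH881.RQ.Low

/-! The asymptotic formula along arbitrary sets of arguments, on average over `N`. -/

set_option autoImplicit false

namespace Pool.Agent.TH881.RQ

open Finset Filter Topology Polynomial
open Pool.Agent.TH881
open Pool.Agent.TH881.RG
open Pool.Agent.H373R2.T7
open Pool.Agent.TH882.PG (thI thI_nonneg bilG)

/-- lower bound in the classes -/
lemma KN_class_lower (pr : Bool) (w : ℕ) (κ : ℝ) (hκ : 0 < κ) : ∃ X0 : ℕ, ∀ X : ℕ, X0 ≤ X → ∀ a ∈ AA pr w,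
    (1 - κ) * ppq pr w X ≤ ((cls w (KN pr X) a).card : ℝ) := by
  classical
  cases pr with
  | true =>
    obtain ⟨N0, h0⟩ := stPC w κ 1 hκ one_pos
    refine ⟨N0 + 2, ?_⟩
    intro X hX a ha
    rw [AA_true, mem_UU] at ha
    have h1 := (abs_le.1 (h0 X (by omega) X le_rfl (by rw [one_mul]) a ha)).1
    have h2 : 1 - κ ≤ bbf w X ((Icc 1 X).filter (fun p : ℕ => p.Prime ∧ √(X : ℝ) < p)) a := by linarith
    unfold bbf at h2
    rw [le_div_iff₀ (pp_pos w X (by omega))] at h2
    rw [ppq_true]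
    refine h2.trans ?_
    have h3 : (cls w ((Icc 1 X).filter (fun p : ℕ => p.Prime ∧ √(X : ℝ) < p)) a).card ≤ (cls w (KN true X) a).card := by
      apply card_le_card
      apply cls_mono
      intro n hn
      rw [mem_filter, mem_Icc] at hn
      rw [mem_KN]
      exact ⟨fun _ => hn.2.1, hn.2.2, hn.1.2⟩
    exact_mod_cast h3
  | false =>
    obtain ⟨X0, h0⟩ := exists_nat_ge ((4 * (Wp w : ℝ) / κ) ^ 2 + 4 * Wp w / κ)
    refine ⟨X0 + 1, ?_⟩
    intro X hX a _
    rw [ppq_false]
    have hW : (0 : ℝ) < Wp w := by exact_mod_cast Wp_pos w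
    have hX0 : (X0 : ℝ) ≤ X := by exact_mod_cast (by omega : X0 ≤ X)
    have hXr : (0 : ℝ) < X := by exact_mod_cast (by omega : 0 < X)
    have hXb := h0.trans hX0
    have hb1 : (4 * (Wp w : ℝ) / κ) ^ 2 ≤ X := by
      have : 0 ≤ 4 * (Wp w : ℝ) / κ := by positivity
      linarith
    have hb2 : 4 * (Wp w : ℝ) / κ ≤ X := by
      have : 0 ≤ (4 * (Wp w : ℝ) / κ) ^ 2 := by positivity
      linarith
    have hs := Real.mul_self_sqrt hXr.le
    have hs0 := Real.sqrt_pos.2 hXr
    have hs1 : 4 * (Wp w : ℝ) / κ ≤ √(X : ℝ) := Real.le_sqrt_of_sq_le hb1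
    -- the elements of the class in (√X, X]
    obtain ⟨r, hr⟩ : ∃ r : ℕ, r = ⌊√(X : ℝ)⌋₊ := ⟨_, rfl⟩
    have hr1 : (r : ℝ) ≤ √(X : ℝ) := by rw [hr]; exact Nat.floor_le (Real.sqrt_nonneg _)
    have hr2 : √(X : ℝ) < r + 1 := by rw [hr]; exact Nat.lt_floor_add_one _
    have hrX : r ≤ X := by
      have h1 : √(X : ℝ) ≤ X := by
        have h2 : (1 : ℝ) ≤ X := by exact_mod_cast (by omega : 1 ≤ X)
        nlinarith [Real.one_le_sqrt.2 h2]
      have h2 : (r : ℝ) ≤ X := hr1.trans h1
      exact_mod_cast h2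
    obtain ⟨t', ht1, ht2, ht3⟩ := exists_rep w r a
    -- the injection
    obtain ⟨q, hq⟩ : ∃ q : ℕ, q = (X - r) / Wp w := ⟨_, rfl⟩
    have hinj : q ≤ (cls w (KN false X) a).card := by
      have h1 : (range q).card ≤ (cls w (KN false X) a).card := by
        apply card_le_card_of_injOn (fun j => t' + j * Wp w)
        · intro j hj
          rw [mem_coe, mem_range] at hj
          rw [mem_coe, mem_cls, mem_KN]
          have h2 : (j + 1) * Wp w ≤ X - r := by
            calc (j + 1) * Wp w ≤ q * Wp w := Nat.mul_le_mul_right _ (by omega)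
              _ ≤ X - r := by rw [hq]; exact Nat.div_mul_le_self _ _
          have h3 : (j + 1) * Wp w = j * Wp w + Wp w := by ring
          refine ⟨⟨fun h => absurd h (by simp), ?_, ?_⟩, ?_⟩
          rotate_left
          · show t' + j * Wp w ≤ X
            omega
          rotate_left
          · have h4 : r + 1 ≤ t' + j * Wp w := by omega
            have h5 : ((r + 1 : ℕ) : ℝ) ≤ ((t' + j * Wp w : ℕ) : ℝ) := by exact_mod_cast h4
            push_cast at h5 ⊢
            linarith
          · push_cast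
            rw [ht3]
            simp
        · intro i _ j _ hij
          have h2 : t' + i * Wp w = t' + j * Wp w := hij
          have h3 : i * Wp w = j * Wp w := by omega
          exact Nat.eq_of_mul_eq_mul_right (Wp_pos w) h3
      rwa [card_range] at h1
    have hqr : ((X : ℝ) - r) / Wp w - 1 ≤ q := by
      have h1 : X - r < (q + 1) * Wp w := by
        rw [hq]
        have := Nat.lt_div_mul_add (a := X - r) (b := Wp w) (Wp_pos w)
        calc X - r < (X - r) / Wp w * Wp w + Wp w := this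
          _ = ((X - r) / Wp w + 1) * Wp w := by ring
      have h2 : ((X - r : ℕ) : ℝ) < (q + 1) * Wp w := by exact_mod_cast h1
      rw [Nat.cast_sub hrX] at h2
      have h3 : ((X : ℝ) - r) / Wp w < q + 1 := by
        rw [div_lt_iff₀ hW]
        exact h2
      linarith
    have hfin : (1 - κ) * ((X : ℝ) / Wp w) ≤ ((X : ℝ) - r) / Wp w - 1 := by
      rw [div_le_iff₀ hκ] at hs1 hb2
      have h1 : √(X : ℝ) * (4 * Wp w) ≤ κ * X := by
        calc √(X : ℝ) * (4 * Wp w) ≤ √(X : ℝ) * (√(X : ℝ) * κ) := mul_le_mul_of_nonneg_left hs1 hs0.le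
          _ = κ * (√(X : ℝ) * √(X : ℝ)) := by ring
          _ = _ := by rw [hs]
      have hW1 : (1 : ℝ) ≤ Wp w := by exact_mod_cast Wp_pos w
      have h2 : √(X : ℝ) * 4 ≤ √(X : ℝ) * (4 * Wp w) := mul_le_mul_of_nonneg_left (by linarith) hs0.le
      have h6 : ((X : ℝ) - r) / Wp w - 1 = ((X : ℝ) - r - Wp w) / Wp w := by
        field_simp
      rw [h6, ← mul_div_assoc]
      apply div_le_div_of_nonneg_right _ hW.le
      nlinarith
    have h5 : (q : ℝ) ≤ ((cls w (KN false X) a).card : ℝ) := by exact_mod_cast hinj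
    linarith

end Pool.Agent.TH881.RQ
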