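import Mathlib
import Pool.Agent.TH881.RQ.Uni

/-! The asymptotic formula along arbitrary sets of arguments, on average over `N`. -/

set_option autoImplicit false

namespace Pool.Agent.TH881.RQ

open Finset Filter Topology Polynomial
open Pool.Agent.TH881
open Pool.Agent.TH881.RG
open Pool.Agent.H373R2.T7
open Pool.Agent.TH882.PG (thI thI_nonneg bilG)

/-- Chebyshev's bound for shifted sums -/
lemma row (E : Finset ℕ) (v : ℤ) (y : ℕ) (h : ∀ N ∈ E, ((N : ℤ) + v).toNat.Prime → ((N : ℤ) + v).toNat ≤ y) :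
    ∑ N ∈ E, thI ((N : ℤ) + v) ≤ 2 * y := by
  classical
  have h1 : ∑ N ∈ E, thI ((N : ℤ) + v) = ∑ N ∈ E.filter (fun N : ℕ => ((N : ℤ) + v).toNat.Prime), Real.log ((N : ℤ) + v).toNat := by
    rw [sum_filter]
    apply sum_congr rfl
    intro N _
    unfold thI
    rfl
  have hinj : Set.InjOn (fun N : ℕ => ((N : ℤ) + v).toNat) (E.filter (fun N : ℕ => ((N : ℤ) + v).toNat.Prime)) := by
    intro N hN N' hN' hNN
    rw [mem_coe, mem_filter] at hN hN'
    have h2 := hN.2.pos
    have h3 := hN'.2.pos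
    have h4 : ((N : ℤ) + v).toNat = ((N' : ℤ) + v).toNat := hNN
    omega
  rw [h1]
  have h2 : ∑ N ∈ E.filter (fun N : ℕ => ((N : ℤ) + v).toNat.Prime), Real.log ((N : ℤ) + v).toNat =
      ∑ q ∈ (E.filter (fun N : ℕ => ((N : ℤ) + v).toNat.Prime)).image (fun N : ℕ => ((N : ℤ) + v).toNat), Real.log q := by
    rw [sum_image hinj]
  rw [h2]
  have h3 : Chebyshev.theta (y : ℝ) ≤ 2 * y := by
    have h4 := Chebyshev.theta_le_log4_mul_x (x := (y : ℝ)) (Nat.cast_nonneg y)
    have h5 : Real.log 4 ≤ 2 := by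
      have h6 : Real.log 4 = 2 * Real.log 2 := by
        rw [show (4 : ℝ) = 2 ^ 2 by norm_num, Real.log_pow]
        push_cast
        ring
      rw [h6]
      have := Real.log_two_lt_d9
      linarith
    exact h4.trans (mul_le_mul_of_nonneg_right h5 (Nat.cast_nonneg _))
  refine le_trans ?_ h3
  rw [Chebyshev.theta_eq_sum_Icc, Nat.floor_natCast]
  apply sum_le_sum_of_subset_of_nonneg
  · intro q hq
    rw [mem_image] at hq
    obtain ⟨N, hN, rfl⟩ := hq
    rw [mem_filter] at hN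
    rw [mem_filter, mem_Icc]
    exact ⟨⟨Nat.zero_le _, h N hN.1 hN.2⟩, hN.2⟩
  · intro q _ _
    exact Real.log_natCast_nonneg q

/-- the number of the `t` with `t + σ g(a)` a unit -/
lemma card_gd (g : ℤ[X]) (σ : ℤ) (w : ℕ) (a : ZMod (Wp w)) [DecidablePred (fun t => gd g σ w t a)] :
    ((univ.filter (fun t => gd g σ w t a)).card : ℝ) = Wp w * Vz w := by
  classical
  rw [← totient_Wp w, ← card_UU]
  norm_cast
  refine Finset.card_bij (fun t _ => t + (σ : ZMod (Wp w)) * gv g w a) ?_ ?_ ?_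
  · intro t ht
    rw [mem_filter] at ht
    exact mem_UU.2 ht.2
  · intro t _ t' _ h
    exact add_right_cancel h
  · intro u hu
    refine ⟨u - (σ : ZMod (Wp w)) * gv g w a, ?_, sub_add_cancel _ _⟩
    rw [mem_filter]
    refine ⟨mem_univ _, ?_⟩
    show IsUnit _
    rw [sub_add_cancel]
    exact mem_UU.1 hu

open Classical in
/-- the difference of the weight and its model -/
noncomputable def df (g : ℤ[X]) (σ : ℤ) (w N n : ℕ) : ℝ :=
  thI ((N : ℤ) + σ * g.eval (n : ℤ)) - (if gd g σ w (N : ZMod (Wp w)) (n : ZMod (Wp w)) then (Vz w)⁻¹ else 0)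

/-- primes in a class without units are small -/
lemma small_of_not_gd (g : ℤ[X]) (σ : ℤ) (w N n : ℕ) (h : ¬ gd g σ w (N : ZMod (Wp w)) (n : ZMod (Wp w)))
    (hp : ((N : ℤ) + σ * g.eval (n : ℤ)).toNat.Prime) : ((N : ℤ) + σ * g.eval (n : ℤ)).toNat ≤ w := by
  by_contra hcon
  push Not at hcon
  apply h
  unfold gd
  rw [gv_cast]
  have h1 : (((N : ℤ) + σ * g.eval (n : ℤ)).toNat : ℤ) = (N : ℤ) + σ * g.eval (n : ℤ) := by
    apply Int.toNat_of_nonneg
    have := hp.pos
    omega
  have h2 : IsUnit ((((N : ℤ) + σ * g.eval (n : ℤ)).toNat : ℕ) : ZMod (Wp w)) := by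
    rw [ZMod.isUnit_iff_coprime]
    rw [Nat.coprime_comm]
    unfold Wp
    apply Nat.Coprime.prod_left
    intro p hp'
    rw [mem_pz] at hp'
    rw [Nat.coprime_primes hp'.2 hp]
    omega
  have h3 : ((((N : ℤ) + σ * g.eval (n : ℤ)).toNat : ℕ) : ZMod (Wp w)) = (((N : ℤ) + σ * g.eval (n : ℤ) : ℤ) : ZMod (Wp w)) := by
    rw [← h1]
    push_cast
    rfl
  rw [h3] at h2
  push_cast at h2
  exact h2

/-- **The asymptotic formula along arbitrary sets of arguments, on average.** -/
theorem bil_all (pr : Bool) (g : ℤ[X]) (hd : 1 ≤ g.natDegree) (hl : 0 < g.leadingCoeff) (σ : ℤ)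
    (hσ : σ = 1 ∨ σ = -1) (hPM : StPMq pr g) (G : ℕ) (hG : 1 ≤ G) (ε ρ : ℝ)
    (hε : 0 < ε) (hρ : 0 < ρ) :
    ∃ w0 : ℕ, ∀ w : ℕ, w0 ≤ w → ∃ X0 : ℕ, ∀ X : ℕ, X0 ≤ X → ∀ M H : ℕ,
    ρ * (X : ℝ) ^ g.natDegree ≤ H → M + H ≤ G * X ^ g.natDegree →
    ∀ K : Finset ℕ, (∀ n ∈ K, isArg pr n ∧ √(X : ℝ) < n ∧ n ≤ X) →
    (∀ n ∈ K, 0 ≤ (M : ℤ) + σ * g.eval (n : ℤ) ∧
      (M : ℤ) + H + σ * g.eval (n : ℤ) ≤ ((G * X ^ g.natDegree : ℕ) : ℤ)) →
    ∀ E ⊆ Ioc M (M + H), |∑ N ∈ E, ∑ n ∈ K, df g σ w N n| ≤ ε * (H * tot pr X) := by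
  classical
  set d := g.natDegree with hdd
  have hGr : (1 : ℝ) ≤ G := by exact_mod_cast hG
  obtain ⟨C, hC⟩ : ∃ C : ℝ, C = 2 * G / ρ + 2 := ⟨_, rfl⟩
  have hC0 : 0 < C := by rw [hC]; positivity
  obtain ⟨κ, hκd⟩ : ∃ κ : ℝ, κ = min 1 (ε / (2 * C)) := ⟨_, rfl⟩
  have hκ0 : 0 < κ := by rw [hκd]; positivity
  have hκ1 : κ ≤ 1 := by rw [hκd]; exact min_le_left _ _
  have hκ2 : κ * C ≤ ε / 2 := by
    have h1 : κ ≤ ε / (2 * C) := by rw [hκd]; exact min_le_right _ _
    rw [le_div_iff₀ (by positivity)] at h1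
    linarith
  obtain ⟨e, hed⟩ : ∃ e : ℝ, e = min (1 / 2) (ε / 8) := ⟨_, rfl⟩
  have he0 : 0 < e := by rw [hed]; positivity
  have he1 : e ≤ 1 / 2 := by rw [hed]; exact min_le_left _ _
  have he2 : e ≤ ε / 8 := by rw [hed]; exact min_le_right _ _
  obtain ⟨w0, hmix⟩ := mixq pr g hd hl σ hσ hPM G hG κ e ρ hκ0 he0 (by linarith) hρ
  refine ⟨w0, fun w hw => ?_⟩
  obtain ⟨X1, hX1⟩ := hmix w hw
  obtain ⟨X2, hX2⟩ := KN_class pr w κ hκ0
  obtain ⟨X3, hX3⟩ := exists_nat_ge ((2 * (w : ℝ) / e + Wp w) / ρ)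
  refine ⟨X1 + X2 + X3 + w ^ 2 + 3, ?_⟩
  intro X hX M H hH hMH K hK hKp E hE
  have hW : (0 : ℝ) < Wp w := by exact_mod_cast Wp_pos w
  have hXr : (3 : ℝ) ≤ X := by exact_mod_cast (by omega : 3 ≤ X)
  have hX0 : (0 : ℝ) < X := by linarith
  have hL0 : 0 < Real.log (X : ℝ) := Real.log_pos (by linarith)
  have hXd : (X : ℝ) ≤ (X : ℝ) ^ d := by
    have h1 : X ≤ X ^ d := Nat.le_self_pow (by omega) X
    exact_mod_cast h1
  have hwX : (w : ℝ) ≤ √(X : ℝ) := by
    apply Real.le_sqrt_of_sq_le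
    have h1 : w ^ 2 ≤ X := by omega
    exact_mod_cast h1
  have hHbig : 2 * (w : ℝ) / e + Wp w ≤ H := by
    have h1 : (X3 : ℝ) ≤ X := by exact_mod_cast (by omega : X3 ≤ X)
    have h2 := hX3.trans h1
    rw [div_le_iff₀ hρ] at h2
    have h3 : X * ρ ≤ ρ * (X : ℝ) ^ d := by
      rw [mul_comm]
      exact mul_le_mul_of_nonneg_left hXd hρ.le
    linarith
  have hHW : (Wp w : ℝ) ≤ H := by
    have : 0 ≤ 2 * (w : ℝ) / e := by positivity
    linarith
  have hHw : 2 * (w : ℝ) ≤ e * H := by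
    have h1 : 2 * (w : ℝ) / e ≤ H := by linarith
    rw [div_le_iff₀ he0] at h1
    linarith
  have hH0 : (0 : ℝ) < H := by linarith
  have hV0 := Vz_pos w
  have hppq0 : 0 < ppq pr w X := by
    unfold ppq
    have h1 := AA_card_pos pr w
    apply div_pos hX0
    apply mul_pos h1
    split_ifs
    · exact hL0
    · exact one_pos
  have hKcls : ∀ b ∈ K, (b : ZMod (Wp w)) ∈ AA pr w := fun b hb =>
    arg_class pr w X b hwX (hK b hb).1 (hK b hb).2.1
  have hKN : K ⊆ KN pr X := by
    intro b hb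
    rw [mem_KN]
    exact hK b hb
  -- the decomposition of `K`
  have hdec : ∑ N ∈ E, ∑ n ∈ K, df g σ w N n = ∑ a ∈ AA pr w, ∑ N ∈ E, ∑ n ∈ cls w K a, df g σ w N n := by
    symm
    rw [sum_comm]
    symm
    apply sum_congr rfl
    intro N _
    rw [← sum_fiberwise_of_maps_to (s := K) (t := AA pr w) (g := fun n : ℕ => (n : ZMod (Wp w))) (fun n hn => hKcls n hn)]
    apply sum_congr rfl
    intro a _
    apply sum_congr _ (fun _ _ => rfl)
    ext n
    rw [mem_filter, mem_cls]
  -- rows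
  have hrow : ∀ n ∈ K, ∑ N ∈ E, thI ((N : ℤ) + σ * g.eval (n : ℤ)) ≤ (2 * G / ρ) * H := by
    intro n hn
    have h1 := row E (σ * g.eval (n : ℤ)) (G * X ^ d) (by
      intro N hN _
      have h2 := hE hN
      rw [mem_Ioc] at h2
      have h3 := (hKp n hn).2
      have h4 : (N : ℤ) ≤ (M : ℤ) + H := by exact_mod_cast h2.2
      omega)
    refine h1.trans ?_
    have h2 : (2 * G / ρ) * (ρ * (X : ℝ) ^ d) ≤ (2 * G / ρ) * H := mul_le_mul_of_nonneg_left hH (by positivity)
    refine le_trans (le_of_eq ?_) h2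
    push_cast
    field_simp
  have hrow2 : ∀ n ∈ K, ∑ N ∈ E.filter (fun N : ℕ => ¬ gd g σ w (N : ZMod (Wp w)) (n : ZMod (Wp w))),
      thI ((N : ℤ) + σ * g.eval (n : ℤ)) ≤ e * H := by
    intro n hn
    have h1 := row (E.filter (fun N : ℕ => ¬ gd g σ w (N : ZMod (Wp w)) (n : ZMod (Wp w)))) (σ * g.eval (n : ℤ)) w (by
      intro N hN hp
      rw [mem_filter] at hN
      exact small_of_not_gd g σ w N n hN.2 hp)
    exact h1.trans hHw
  have hmain : ∀ a : ZMod (Wp w), ((E.filter (fun N : ℕ => gd g σ w (N : ZMod (Wp w)) a)).card : ℝ) * (Vz w)⁻¹ ≤ 2 * H := by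
    intro a
    have h1 : ((E.filter (fun N : ℕ => gd g σ w (N : ZMod (Wp w)) a)).card : ℝ) ≤
        ∑ t ∈ univ.filter (fun t => gd g σ w t a), ((cls w E t).card : ℝ) := by
      have h2 : (E.filter (fun N : ℕ => gd g σ w (N : ZMod (Wp w)) a)).card =
          ∑ t ∈ univ.filter (fun t => gd g σ w t a), (cls w E t).card := by
        rw [card_eq_sum_card_fiberwise (f := fun n : ℕ => (n : ZMod (Wp w))) (t := univ.filter (fun t => gd g σ w t a)) (by
          intro N hN
          rw [mem_coe, mem_filter] at hN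
          rw [mem_coe, mem_filter]
          exact ⟨mem_univ _, hN.2⟩)]
        apply sum_congr rfl
        intro t ht
        rw [mem_filter] at ht
        congr 1
        ext N
        rw [mem_filter, mem_filter, mem_cls]
        constructor
        · rintro ⟨⟨h3, _⟩, h4⟩
          exact ⟨h3, h4⟩
        · rintro ⟨h3, h4⟩
          exact ⟨⟨h3, by rw [h4]; exact ht.2⟩, h4⟩
      rw [h2]
      push_cast
      rfl
    have h2 : ∑ t ∈ univ.filter (fun t => gd g σ w t a), ((cls w E t).card : ℝ) ≤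
        ∑ t ∈ univ.filter (fun t => gd g σ w t a), ((H : ℝ) / Wp w + 1) :=
      sum_le_sum (fun t _ => cls_card_le w M H E hE t)
    rw [sum_const, nsmul_eq_mul, card_gd] at h2
    have h3 : (Wp w * Vz w) * ((H : ℝ) / Wp w + 1) * (Vz w)⁻¹ = H + Wp w := by
      field_simp
    have h4 := mul_le_mul_of_nonneg_right (h1.trans h2) (inv_nonneg.2 hV0.le)
    rw [h3] at h4
    linarith
  -- the classes with few elements
  have hsmall : ∀ a ∈ AA pr w, ((cls w K a).card : ℝ) < κ * ppq pr w X →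
      |∑ N ∈ E, ∑ n ∈ cls w K a, df g σ w N n| ≤ (κ * C) * (H * ppq pr w X) := by
    intro a _ hca
    rw [sum_comm]
    refine (abs_sum_le_sum_abs _ _).trans ?_
    have h1 : ∀ n ∈ cls w K a, |∑ N ∈ E, df g σ w N n| ≤ C * H := by
      intro n hn
      rw [mem_cls] at hn
      have h2 := hrow n hn.1
      have h3 := hmain (n : ZMod (Wp w))
      have h4 : ∑ N ∈ E, df g σ w N n = ∑ N ∈ E, thI ((N : ℤ) + σ * g.eval (n : ℤ)) -
          ((E.filter (fun N : ℕ => gd g σ w (N : ZMod (Wp w)) (n : ZMod (Wp w)))).card : ℝ) * (Vz w)⁻¹ := by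
        unfold df
        rw [sum_sub_distrib, ← sum_filter, sum_const, nsmul_eq_mul]
      have h5 : 0 ≤ ∑ N ∈ E, thI ((N : ℤ) + σ * g.eval (n : ℤ)) := sum_nonneg (fun N _ => thI_nonneg _)
      have h6 : 0 ≤ ((E.filter (fun N : ℕ => gd g σ w (N : ZMod (Wp w)) (n : ZMod (Wp w)))).card : ℝ) * (Vz w)⁻¹ := by
        have := inv_nonneg.2 hV0.le
        positivity
      rw [h4, hC, abs_le]
      have h7 : 0 ≤ (2 * G / ρ) * (H : ℝ) := by positivity
      constructor
      · linarith
      · linarith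
    calc ∑ n ∈ cls w K a, |∑ N ∈ E, df g σ w N n| ≤ ∑ n ∈ cls w K a, C * H := sum_le_sum h1
      _ = (cls w K a).card * (C * H) := by rw [sum_const, nsmul_eq_mul]
      _ ≤ (κ * ppq pr w X) * (C * H) := mul_le_mul_of_nonneg_right hca.le (by positivity)
      _ = _ := by ring
  -- the classes with many elements
  have hlarge : ∀ a ∈ AA pr w, κ * ppq pr w X ≤ ((cls w K a).card : ℝ) →
      |∑ N ∈ E, ∑ n ∈ cls w K a, df g σ w N n| ≤ (2 * e) * (H * (cls w K a).card) := by
    intro a _ hca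
    have h1 : ∑ N ∈ E, ∑ n ∈ cls w K a, df g σ w N n =
        ∑ t : ZMod (Wp w), ∑ N ∈ cls w E t, ∑ n ∈ cls w K a, df g σ w N n := by
      rw [← sum_fiberwise_of_maps_to (s := E) (t := univ) (g := fun n : ℕ => (n : ZMod (Wp w))) (fun n _ => mem_univ _)]
      apply sum_congr rfl
      intro t _
      apply sum_congr _ (fun _ _ => rfl)
      ext n
      rw [mem_filter, mem_cls]
    have h2 : ∀ t : ZMod (Wp w), gd g σ w t a → |∑ N ∈ cls w E t, ∑ n ∈ cls w K a, df g σ w N n| ≤
        e * (((H : ℝ) / Wp w) * ((Vz w)⁻¹ * (cls w K a).card)) := by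
      intro t ht
      obtain ⟨t', ht1, ht2, ht3⟩ := exists_rep w M t
      have h3 := hX1 X (by omega) M H t' ht1 ht2 hH hMH (cls w K a)
        (fun n hn => hK n (mem_cls.1 hn).1) (fun n hn => hKp n (mem_cls.1 hn).1)
        (fun n hn n' hn' => by rw [← ZMod.natCast_eq_natCast_iff, (mem_cls.1 hn).2, (mem_cls.1 hn').2])
        (fun n hn => by rw [ht3, (mem_cls.1 hn).2]; exact ht) hca (cls w E t) (by
          intro n hn
          rw [mem_cls] at hn
          rw [mem_It]
          have h4 := hE hn.1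
          rw [mem_Ioc] at h4
          refine ⟨h4, ?_⟩
          rw [← ZMod.natCast_eq_natCast_iff, hn.2, ht3])
      have h4 : ∑ N ∈ cls w E t, ∑ n ∈ cls w K a, df g σ w N n =
          ∑ N ∈ cls w E t, ∑ n ∈ cls w K a, thI (N + σ * g.eval (n : ℤ)) -
          (cls w E t).card * ((Vz w)⁻¹ * (cls w K a).card) := by
        have h5 : ∑ N ∈ cls w E t, ∑ n ∈ cls w K a, df g σ w N n =
            ∑ N ∈ cls w E t, (∑ n ∈ cls w K a, thI (N + σ * g.eval (n : ℤ)) - (Vz w)⁻¹ * (cls w K a).card) := by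
          apply sum_congr rfl
          intro N hN
          rw [mul_comm, ← nsmul_eq_mul, ← sum_const, ← sum_sub_distrib]
          apply sum_congr rfl
          intro n hn
          unfold df
          rw [(mem_cls.1 hN).2, (mem_cls.1 hn).2, if_pos ht]
        rw [h5, sum_sub_distrib, sum_const, nsmul_eq_mul]
      rw [h4]
      exact h3
    rw [h1, ← sum_filter_add_sum_filter_not univ (fun t => gd g σ w t a)]
    have h3 : |∑ t ∈ univ.filter (fun t => gd g σ w t a), ∑ N ∈ cls w E t, ∑ n ∈ cls w K a, df g σ w N n| ≤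
        e * (H * (cls w K a).card) := by
      refine (abs_sum_le_sum_abs _ _).trans ?_
      calc ∑ t ∈ univ.filter (fun t => gd g σ w t a), |∑ N ∈ cls w E t, ∑ n ∈ cls w K a, df g σ w N n|
          ≤ ∑ t ∈ univ.filter (fun t => gd g σ w t a), e * (((H : ℝ) / Wp w) * ((Vz w)⁻¹ * (cls w K a).card)) := by
            apply sum_le_sum
            intro t ht
            rw [mem_filter] at ht
            exact h2 t ht.2
        _ = e * (H * (cls w K a).card) := by
            rw [sum_const, nsmul_eq_mul, card_gd]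
            field_simp
    have h4 : |∑ t ∈ univ.filter (fun t => ¬ gd g σ w t a), ∑ N ∈ cls w E t, ∑ n ∈ cls w K a, df g σ w N n| ≤
        e * (H * (cls w K a).card) := by
      have h5 : ∑ t ∈ univ.filter (fun t => ¬ gd g σ w t a), ∑ N ∈ cls w E t, ∑ n ∈ cls w K a, df g σ w N n =
          ∑ n ∈ cls w K a, ∑ N ∈ E.filter (fun N : ℕ => ¬ gd g σ w (N : ZMod (Wp w)) (n : ZMod (Wp w))),
            thI ((N : ℤ) + σ * g.eval (n : ℤ)) := by
        have h6 : ∀ n ∈ cls w K a, ∑ N ∈ E.filter (fun N : ℕ => ¬ gd g σ w (N : ZMod (Wp w)) (n : ZMod (Wp w))),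
            thI ((N : ℤ) + σ * g.eval (n : ℤ)) =
            ∑ t ∈ univ.filter (fun t => ¬ gd g σ w t a), ∑ N ∈ cls w E t, df g σ w N n := by
          intro n hn
          rw [mem_cls] at hn
          rw [← sum_fiberwise_of_maps_to (s := E.filter (fun N : ℕ => ¬ gd g σ w (N : ZMod (Wp w)) (n : ZMod (Wp w))))
            (t := univ.filter (fun t => ¬ gd g σ w t a)) (g := fun N : ℕ => (N : ZMod (Wp w))) (by
              intro N hN
              rw [mem_filter] at hN
              rw [mem_filter]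
              refine ⟨mem_univ _, ?_⟩
              have h7 := hN.2
              rw [hn.2] at h7
              exact h7)]
          apply sum_congr rfl
          intro t ht
          rw [mem_filter] at ht
          have h7 : (E.filter (fun N : ℕ => ¬ gd g σ w (N : ZMod (Wp w)) (n : ZMod (Wp w)))).filter
              (fun N : ℕ => (N : ZMod (Wp w)) = t) = cls w E t := by
            ext N
            rw [mem_filter, mem_filter, mem_cls]
            constructor
            · rintro ⟨⟨h8, _⟩, h9⟩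
              exact ⟨h8, h9⟩
            · rintro ⟨h8, h9⟩
              exact ⟨⟨h8, by rw [h9, hn.2]; exact ht.2⟩, h9⟩
          rw [h7]
          apply sum_congr rfl
          intro N hN
          rw [mem_cls] at hN
          unfold df
          rw [hN.2, hn.2, if_neg ht.2, sub_zero]
        rw [sum_congr rfl h6, sum_comm]
        apply sum_congr rfl
        intro t _
        rw [sum_comm]
      rw [h5, abs_of_nonneg (sum_nonneg (fun n _ => sum_nonneg (fun N _ => thI_nonneg _)))]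
      calc ∑ n ∈ cls w K a, ∑ N ∈ E.filter (fun N : ℕ => ¬ gd g σ w (N : ZMod (Wp w)) (n : ZMod (Wp w))),
            thI ((N : ℤ) + σ * g.eval (n : ℤ)) ≤ ∑ n ∈ cls w K a, e * H :=
            sum_le_sum (fun n hn => hrow2 n (mem_cls.1 hn).1)
        _ = _ := by
            rw [sum_const, nsmul_eq_mul]
            ring
    refine (abs_add_le _ _).trans ?_
    linarith
  -- the total number of arguments
  have hKtot : (K.card : ℝ) ≤ 2 * tot pr X := by
    rw [← sum_cls_AA pr w K hKcls, ← AA_ppq pr w X]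
    calc ∑ t ∈ AA pr w, ((cls w K t).card : ℝ) ≤ ∑ t ∈ AA pr w, 2 * ppq pr w X := by
          apply sum_le_sum
          intro a ha
          have h1 := hX2 X (by omega) a ha
          have h2 : ((cls w K a).card : ℝ) ≤ (cls w (KN pr X) a).card := by
            exact_mod_cast card_le_card (cls_mono hKN a)
          have h3 : (1 + κ) * ppq pr w X ≤ 2 * ppq pr w X := mul_le_mul_of_nonneg_right (by linarith) hppq0.le
          linarith
      _ = _ := by
          rw [sum_const, nsmul_eq_mul]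
          ring
  rw [hdec]
  refine (abs_sum_le_sum_abs _ _).trans ?_
  calc ∑ a ∈ AA pr w, |∑ N ∈ E, ∑ n ∈ cls w K a, df g σ w N n|
      ≤ ∑ a ∈ AA pr w, ((2 * e) * (H * (cls w K a).card) + (κ * C) * (H * ppq pr w X)) := by
        apply sum_le_sum
        intro a ha
        have h1 : 0 ≤ (2 * e) * ((H : ℝ) * (cls w K a).card) := by positivity
        have h2 : 0 ≤ (κ * C) * ((H : ℝ) * ppq pr w X) := by positivity
        rcases lt_or_ge ((cls w K a).card : ℝ) (κ * ppq pr w X) with h | h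
        · have := hsmall a ha h
          linarith
        · have := hlarge a ha h
          linarith
    _ = (2 * e) * (H * K.card) + (κ * C) * (H * ((AA pr w).card * ppq pr w X)) := by
        rw [sum_add_distrib, ← mul_sum, ← mul_sum, sum_cls_AA pr w K hKcls, sum_const, nsmul_eq_mul]
        ring
    _ ≤ (2 * e) * (H * (2 * tot pr X)) + (ε / 2) * (H * tot pr X) := by
        have htot0 : 0 < tot pr X := by
          rw [← AA_ppq pr w X]
          exact mul_pos (AA_card_pos pr w) hppq0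
        apply add_le_add
        · exact mul_le_mul_of_nonneg_left (mul_le_mul_of_nonneg_left hKtot hH0.le) (by positivity)
        · rw [AA_ppq]
          exact mul_le_mul_of_nonneg_right hκ2 (by positivity)
    _ ≤ ε * (H * tot pr X) := by
        have htot0 : 0 < tot pr X := by
          rw [← AA_ppq pr w X]
          exact mul_pos (AA_card_pos pr w) hppq0
        have h1 : 4 * e * (H * tot pr X) ≤ (ε / 2) * (H * tot pr X) := mul_le_mul_of_nonneg_right (by linarith) (by positivity)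
        linarith

end Pool.Agent.TH881.RQ
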