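import Mathlib
import Pool.Agent.TH881.RQ.Uni2
import Pool.Agent.TH881.RQ.Adm

/-! The asymptotic formula along arbitrary sets of arguments, for almost all `N`. -/

set_option autoImplicit false

namespace Pool.Agent.TH881.RQ

open Finset Filter Topology Polynomial
open Pool.Agent.TH881
open Pool.Agent.TH881.RG
open Pool.Agent.H373R2.T7
open Pool.Agent.TH882.PG (thI thI_nonneg bilG)

open Classical in
/-- the main terms of one row -/
lemma main_le (g : ℤ[X]) (σ : ℤ) (w M H : ℕ) (E : Finset ℕ) (hE : E ⊆ Ioc M (M + H)) (hHW : (Wp w : ℝ) ≤ H)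
    (a : ZMod (Wp w)) :
    ((E.filter (fun N : ℕ => gd g σ w (N : ZMod (Wp w)) a)).card : ℝ) * (Vz w)⁻¹ ≤ 2 * H := by
  have hW : (0 : ℝ) < Wp w := by exact_mod_cast Wp_pos w
  have hV0 := Vz_pos w
  have h1 : ((E.filter (fun N : ℕ => gd g σ w (N : ZMod (Wp w)) a)).card : ℝ) ≤
      ∑ t ∈ univ.filter (fun t => gd g σ w t a), ((cls w E t).card : ℝ) := by
    have h2 : (E.filter (fun N : ℕ => gd g σ w (N : ZMod (Wp w)) a)).card =
        ∑ t ∈ univ.filter (fun t => gd g σ w t a), (cls w E t).card := by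
      rw [card_eq_sum_card_fiberwise (f := fun n : ℕ => (n : ZMod (Wp w))) (t := univ.filter (fun t => gd g σ w t a)) (by
        intro N hN
        rw [mem_coe, mem_filter] at hN
        rw [mem_coe, mem_filter]
        exact ⟨mem_univ _, hN.2⟩)]
      apply sum_congr rfl
      intro t ht
      rw [mem_filter] at ht
      congr 1
      ext N
      rw [mem_filter, mem_filter, mem_cls]
      constructor
      · rintro ⟨⟨h3, _⟩, h4⟩
        exact ⟨h3, h4⟩
      · rintro ⟨h3, h4⟩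
        exact ⟨⟨h3, by rw [h4]; exact ht.2⟩, h4⟩
    rw [h2]
    push_cast
    rfl
  have h2 : ∑ t ∈ univ.filter (fun t => gd g σ w t a), ((cls w E t).card : ℝ) ≤
      ∑ t ∈ univ.filter (fun t => gd g σ w t a), ((H : ℝ) / Wp w + 1) :=
    sum_le_sum (fun t _ => cls_card_le w M H E hE t)
  rw [sum_const, nsmul_eq_mul, card_gd] at h2
  have h3 : (Wp w * Vz w) * ((H : ℝ) / Wp w + 1) * (Vz w)⁻¹ = H + Wp w := by
    field_simp
  have h4 := mul_le_mul_of_nonneg_right (h1.trans h2) (inv_nonneg.2 hV0.le)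
  rw [h3] at h4
  linarith

/-- the number of all arguments -/
lemma card_args_le (pr : Bool) (w : ℕ) : ∃ X0 : ℕ, ∀ X : ℕ, X0 ≤ X → ((KN pr X).card : ℝ) ≤ 2 * tot pr X := by
  obtain ⟨X2, hX2⟩ := KN_class pr w 1 one_pos
  refine ⟨X2 + w ^ 2 + 3, ?_⟩
  intro X hX
  have hXr : (3 : ℝ) ≤ X := by exact_mod_cast (by omega : 3 ≤ X)
  have hwX : (w : ℝ) ≤ √(X : ℝ) := by
    apply Real.le_sqrt_of_sq_le
    have h1 : w ^ 2 ≤ X := by omega
    exact_mod_cast h1
  have hKcls : ∀ b ∈ KN pr X, (b : ZMod (Wp w)) ∈ AA pr w := by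
    intro b hb
    rw [mem_KN] at hb
    exact arg_class pr w X b hwX hb.1 hb.2.1
  rw [← sum_cls_AA pr w (KN pr X) hKcls, ← AA_ppq pr w X]
  calc ∑ t ∈ AA pr w, ((cls w (KN pr X) t).card : ℝ) ≤ ∑ t ∈ AA pr w, 2 * ppq pr w X := by
        apply sum_le_sum
        intro a ha
        have h1 := hX2 X (by omega) a ha
        linarith
    _ = _ := by
        rw [sum_const, nsmul_eq_mul]
        ring

open Classical in
/-- **The asymptotic formula along arbitrary sets of arguments, on average over `N ≤ C X ^ d`.** -/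
theorem bil_full (pr : Bool) (g : ℤ[X]) (hd : 1 ≤ g.natDegree) (hl : 0 < g.leadingCoeff) (σ : ℤ)
    (hσ : σ = 1 ∨ σ = -1) (hPM : StPMq pr g) (C : ℕ) (hC : 1 ≤ C) (ε : ℝ) (hε : 0 < ε) :
    ∃ w0 : ℕ, ∀ w : ℕ, w0 ≤ w → ∃ X0 : ℕ, ∀ X : ℕ, X0 ≤ X →
    ∀ K : Finset ℕ, (∀ n ∈ K, isArg pr n ∧ √(X : ℝ) < n ∧ n ≤ X) →
    ∀ E ⊆ Icc 1 (C * X ^ g.natDegree),
      |∑ N ∈ E, ∑ n ∈ K.filter (fun n : ℕ => 0 < (N : ℤ) + σ * g.eval (n : ℤ)), df g σ w N n| ≤
        ε * ((X : ℝ) ^ g.natDegree * tot pr X) := by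
  set d := g.natDegree with hdd
  obtain ⟨k, hk⟩ := exists_nat_ge (16 / ε + 1)
  have hk1 : (1 : ℝ) ≤ k := by
    have : 0 < 16 / ε := by positivity
    linarith
  have hk0 : (0 : ℝ) < k := by linarith
  have hkn : 1 ≤ k := by exact_mod_cast hk1
  have hkε : 16 / (k : ℝ) ≤ ε := by
    rw [div_le_iff₀ hk0]
    have h1 : 16 / ε ≤ k := by linarith
    rw [div_le_iff₀ hε] at h1
    linarith
  obtain ⟨G, hG⟩ : ∃ G : ℕ, G = 2 * C + cf g + 1 := ⟨_, rfl⟩
  have hG1 : 1 ≤ G := by omega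
  obtain ⟨w0, hbil⟩ := bil_all pr g hd hl σ hσ hPM G hG1 (ε / (4 * C)) (1 / k) (by positivity) (by positivity)
  refine ⟨w0, fun w hw => ?_⟩
  obtain ⟨X1, hX1⟩ := hbil w hw
  obtain ⟨X2, hX2⟩ := card_args_le pr w
  obtain ⟨n0, hn0⟩ := Pool.Agent.TH882.PA.pos g hd hl 0
  obtain ⟨X3, hX3⟩ := exists_nat_ge ((Wp w : ℝ) * k)
  refine ⟨X1 + X2 + X3 + k + n0 ^ 2 + 3, ?_⟩
  intro X hX K hK E hE
  have hXr : (3 : ℝ) ≤ X := by exact_mod_cast (by omega : 3 ≤ X)
  have hX0 : (0 : ℝ) < X := by linarith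
  have hXdn : X ≤ X ^ d := Nat.le_self_pow (by omega) X
  have hXd : (X : ℝ) ≤ (X : ℝ) ^ d := by exact_mod_cast hXdn
  have hXd0 : (0 : ℝ) < (X : ℝ) ^ d := by positivity
  obtain ⟨H, hH⟩ : ∃ H : ℕ, H = X ^ d / k + 1 := ⟨_, rfl⟩
  have hHk : X ^ d ≤ k * H := by
    rw [hH]
    have := Nat.lt_mul_div_succ (X ^ d) (by omega : 0 < k)
    exact this.le
  have hkH : k * H ≤ X ^ d + k := by
    rw [hH, mul_add, mul_one]
    have := Nat.mul_div_le (X ^ d) k
    omega
  have hHkr : (X : ℝ) ^ d ≤ k * H := by exact_mod_cast hHk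
  have hkHr : (k : ℝ) * H ≤ 2 * (X : ℝ) ^ d := by
    have h1 : k * H ≤ 2 * X ^ d := by omega
    exact_mod_cast h1
  have hHpos : 0 < H := by rw [hH]; exact Nat.succ_pos _
  have hH0 : (0 : ℝ) < H := by exact_mod_cast hHpos
  have hHρ : 1 / (k : ℝ) * (X : ℝ) ^ d ≤ H := by
    rw [div_mul_eq_mul_div, one_mul, div_le_iff₀ hk0]
    linarith
  have hHW : (Wp w : ℝ) ≤ H := by
    have h1 : (X3 : ℝ) ≤ X := by exact_mod_cast (by omega : X3 ≤ X)
    have h2 := (hX3.trans h1).trans hXd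
    have h3 : (Wp w : ℝ) * k ≤ H * k := by linarith
    exact le_of_mul_le_mul_right h3 hk0
  have hKN : K ⊆ KN pr X := by
    intro b hb
    rw [mem_KN]
    exact hK b hb
  have hKtot : (K.card : ℝ) ≤ 2 * tot pr X := by
    refine le_trans ?_ (hX2 X (by omega))
    exact_mod_cast card_le_card hKN
  have htot0 : 0 ≤ tot pr X := by
    have : (0 : ℝ) ≤ K.card := Nat.cast_nonneg _
    linarith
  have hgb : ∀ n ∈ K, |g.eval (n : ℤ)| ≤ ((cf g * X ^ d : ℕ) : ℤ) := by
    intro n hn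
    have h1 := hK n hn
    have h2 : 1 ≤ n := by
      have h3 : (0 : ℝ) < n := lt_of_le_of_lt (Real.sqrt_nonneg _) h1.2.1
      exact_mod_cast h3
    refine (abs_eval_le g n h2).trans ?_
    push_cast
    apply mul_le_mul_of_nonneg_left _ (by positivity)
    have h3 : n ^ d ≤ X ^ d := Nat.pow_le_pow_left h1.2.2 d
    exact_mod_cast h3
  -- one block
  obtain ⟨Ej, hEj⟩ : ∃ Ej : ℕ → Finset ℕ, ∀ j, Ej j = E.filter (fun N => (N - 1) / H = j) := ⟨_, fun _ => rfl⟩
  obtain ⟨Bj, hBj⟩ : ∃ Bj : ℕ → Finset ℕ, ∀ j, Bj j = K.filter (fun n : ℕ => (j * H : ℕ) + σ * g.eval (n : ℤ) < 0 ∧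
      0 < ((j * H + H : ℕ) : ℤ) + σ * g.eval (n : ℤ)) := ⟨_, fun _ => rfl⟩
  have hEjm : ∀ j, Ej j ⊆ Ioc (j * H) (j * H + H) := by
    intro j N hN
    rw [hEj, mem_filter] at hN
    have h1 := hE hN.1
    rw [mem_Icc] at h1
    rw [mem_Ioc]
    have h2 := Nat.div_mul_le_self (N - 1) H
    have h3 := Nat.lt_div_mul_add (a := N - 1) (b := H) hHpos
    rw [hN.2] at h2 h3
    omega
  have hblock : ∀ j ∈ range (C * k), |∑ N ∈ Ej j, ∑ n ∈ K.filter (fun n : ℕ => 0 < (N : ℤ) + σ * g.eval (n : ℤ)), df g σ w N n| ≤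
      ε / (4 * C) * (H * tot pr X) + 2 * H * (Bj j).card := by
    intro j hj
    rw [mem_range] at hj
    obtain ⟨M, hM⟩ : ∃ M : ℕ, M = j * H := ⟨_, rfl⟩
    have hEM : Ej j ⊆ Ioc M (M + H) := by rw [hM]; exact hEjm j
    have hMH : M + H ≤ 2 * C * X ^ d := by
      calc M + H = (j + 1) * H := by rw [hM]; ring
        _ ≤ (C * k) * H := Nat.mul_le_mul_right _ (by omega)
        _ = C * (k * H) := by ring
        _ ≤ C * (X ^ d + k) := Nat.mul_le_mul_left _ hkH
        _ ≤ C * (X ^ d + X ^ d) := Nat.mul_le_mul_left _ (by omega)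
        _ = _ := by ring
    have hMHG : M + H ≤ G * X ^ d := by
      refine hMH.trans (Nat.mul_le_mul_right _ ?_)
      omega
    -- the split of the arguments
    have hsplit : ∀ N ∈ Ej j, ∑ n ∈ K.filter (fun n : ℕ => 0 < (N : ℤ) + σ * g.eval (n : ℤ)), df g σ w N n =
        ∑ n ∈ K.filter (fun n : ℕ => 0 ≤ (M : ℤ) + σ * g.eval (n : ℤ)), df g σ w N n +
        ∑ n ∈ Bj j, if 0 < (N : ℤ) + σ * g.eval (n : ℤ) then df g σ w N n else 0 := by
      intro N hN
      have h1 := hEM hN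
      rw [mem_Ioc] at h1
      have h1a : (M : ℤ) < N := by exact_mod_cast h1.1
      have h1b : (N : ℤ) ≤ (M : ℤ) + H := by exact_mod_cast h1.2
      rw [← sum_filter, ← sum_union]
      · apply sum_congr _ (fun _ _ => rfl)
        ext n
        rw [mem_union, mem_filter, mem_filter, mem_filter, hBj, mem_filter, ← hM]
        push_cast
        constructor
        · rintro ⟨h2, h3⟩
          by_cases h4 : 0 ≤ (M : ℤ) + σ * g.eval (n : ℤ)
          · exact Or.inl ⟨h2, h4⟩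
          · exact Or.inr ⟨⟨h2, by linarith, by linarith⟩, h3⟩
        · rintro (⟨h2, h3⟩ | ⟨⟨h2, _⟩, h4⟩)
          · exact ⟨h2, by linarith⟩
          · exact ⟨h2, h4⟩
      · rw [Finset.disjoint_left]
        intro n h2 h3
        rw [mem_filter] at h2 h3
        rw [hBj, mem_filter, ← hM] at h3
        have h4 := h3.1.2.1
        have h5 := h2.2
        linarith
    rw [sum_congr rfl hsplit, sum_add_distrib]
    refine (abs_add_le _ _).trans (add_le_add ?_ ?_)
    · apply hX1 X (by omega) M H hHρ hMHG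
      · intro n hn
        rw [mem_filter] at hn
        exact hK n hn.1
      · intro n hn
        rw [mem_filter] at hn
        refine ⟨hn.2, ?_⟩
        have h1 := abs_le.1 (hgb n hn.1)
        have h2 : ((M + H : ℕ) : ℤ) ≤ ((2 * C * X ^ d : ℕ) : ℤ) := by exact_mod_cast hMH
        have h3 : ((G * X ^ d : ℕ) : ℤ) = ((2 * C * X ^ d : ℕ) : ℤ) + ((cf g * X ^ d : ℕ) : ℤ) + ((X ^ d : ℕ) : ℤ) := by
          rw [hG]
          push_cast
          ring
        have h4 : (0 : ℤ) ≤ ((X ^ d : ℕ) : ℤ) := Nat.cast_nonneg _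
        rw [h3]
        push_cast at h1 h2 h4 ⊢
        rcases hσ with h | h
        · rw [h]
          linarith [h1.2]
        · rw [h]
          linarith [h1.1]
      · exact hEM
    · rw [sum_comm]
      refine (abs_sum_le_sum_abs _ _).trans ?_
      have h1 : ∀ n ∈ Bj j, |∑ N ∈ Ej j, if 0 < (N : ℤ) + σ * g.eval (n : ℤ) then df g σ w N n else 0| ≤ 2 * H := by
        intro n hn
        rw [hBj, mem_filter, ← hM] at hn
        rw [← sum_filter]
        obtain ⟨E', hE'⟩ : ∃ E' : Finset ℕ, E' = (Ej j).filter (fun N : ℕ => 0 < (N : ℤ) + σ * g.eval (n : ℤ)) := ⟨_, rfl⟩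
        rw [← hE']
        have hE's : E' ⊆ Ioc M (M + H) := by
          rw [hE']
          exact (filter_subset _ _).trans hEM
        have h2 := row E' (σ * g.eval (n : ℤ)) H (by
          intro N hN _
          have h3 := hE's hN
          rw [mem_Ioc] at h3
          have h4 := hn.2.1
          omega)
        have h3 := main_le g σ w M H E' hE's hHW (n : ZMod (Wp w))
        have h4 : ∑ N ∈ E', df g σ w N n = ∑ N ∈ E', thI ((N : ℤ) + σ * g.eval (n : ℤ)) -
            ((E'.filter (fun N : ℕ => gd g σ w (N : ZMod (Wp w)) (n : ZMod (Wp w)))).card : ℝ) * (Vz w)⁻¹ := by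
          unfold df
          rw [sum_sub_distrib, ← sum_filter, sum_const, nsmul_eq_mul]
        have h5 : 0 ≤ ∑ N ∈ E', thI ((N : ℤ) + σ * g.eval (n : ℤ)) := sum_nonneg (fun N _ => thI_nonneg _)
        have h6 : 0 ≤ ((E'.filter (fun N : ℕ => gd g σ w (N : ZMod (Wp w)) (n : ZMod (Wp w)))).card : ℝ) * (Vz w)⁻¹ := by
          have := inv_nonneg.2 (Vz_pos w).le
          positivity
        rw [h4, abs_le]
        constructor
        · linarith
        · linarith
      calc ∑ n ∈ Bj j, |∑ N ∈ Ej j, if 0 < (N : ℤ) + σ * g.eval (n : ℤ) then df g σ w N n else 0|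
          ≤ ∑ n ∈ Bj j, 2 * (H : ℝ) := sum_le_sum h1
        _ = _ := by
            rw [sum_const, nsmul_eq_mul]
            ring
  -- all blocks
  have hmaps : ∀ N ∈ E, (N - 1) / H ∈ range (C * k) := by
    intro N hN
    have h1 := hE hN
    rw [mem_Icc] at h1
    rw [mem_range, Nat.div_lt_iff_lt_mul hHpos]
    have h2 : C * X ^ d ≤ C * k * H := by
      calc C * X ^ d ≤ C * (k * H) := Nat.mul_le_mul_left _ hHk
        _ = _ := by ring
    omega
  have hdec : ∑ N ∈ E, ∑ n ∈ K.filter (fun n : ℕ => 0 < (N : ℤ) + σ * g.eval (n : ℤ)), df g σ w N n =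
      ∑ j ∈ range (C * k), ∑ N ∈ Ej j, ∑ n ∈ K.filter (fun n : ℕ => 0 < (N : ℤ) + σ * g.eval (n : ℤ)), df g σ w N n := by
    rw [← sum_fiberwise_of_maps_to hmaps]
    apply sum_congr rfl
    intro j _
    rw [hEj]
  have hBsum : ∑ j ∈ range (C * k), ((Bj j).card : ℝ) ≤ K.card := by
    have h1 : ∑ j ∈ range (C * k), (Bj j).card ≤ K.card := by
      have h2 : ∀ j, (Bj j).card = ∑ n ∈ K, if ((j * H : ℕ) + σ * g.eval (n : ℤ) < 0 ∧
          0 < ((j * H + H : ℕ) : ℤ) + σ * g.eval (n : ℤ)) then 1 else 0 := by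
        intro j
        rw [hBj, card_filter]
      rw [sum_congr rfl (fun j _ => h2 j), sum_comm, card_eq_sum_ones]
      apply sum_le_sum
      intro n _
      rw [← sum_filter, ← card_eq_sum_ones]
      apply card_le_one.2
      intro i hi j hj
      rw [mem_filter] at hi hj
      obtain ⟨_, hi1, hi2⟩ := hi
      obtain ⟨_, hj1, hj2⟩ := hj
      generalize σ * g.eval (n : ℤ) = v at hi1 hi2 hj1 hj2
      by_contra hne
      rcases Nat.lt_or_gt_of_ne hne with h | h
      · have h3 : (i + 1) * H ≤ j * H := Nat.mul_le_mul_right _ h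
        have h4 : i * H + H ≤ j * H := by
          calc i * H + H = (i + 1) * H := by ring
            _ ≤ _ := h3
        have h5 : ((i * H + H : ℕ) : ℤ) ≤ ((j * H : ℕ) : ℤ) := by exact_mod_cast h4
        linarith
      · have h3 : (j + 1) * H ≤ i * H := Nat.mul_le_mul_right _ h
        have h4 : j * H + H ≤ i * H := by
          calc j * H + H = (j + 1) * H := by ring
            _ ≤ _ := h3
        have h5 : ((j * H + H : ℕ) : ℤ) ≤ ((i * H : ℕ) : ℤ) := by exact_mod_cast h4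
        linarith
    exact_mod_cast h1
  rw [hdec]
  have hCr : (1 : ℝ) ≤ C := by exact_mod_cast hC
  have hC0 : (0 : ℝ) < C := by linarith
  calc |∑ j ∈ range (C * k), ∑ N ∈ Ej j, ∑ n ∈ K.filter (fun n : ℕ => 0 < (N : ℤ) + σ * g.eval (n : ℤ)), df g σ w N n|
      ≤ ∑ j ∈ range (C * k), |∑ N ∈ Ej j, ∑ n ∈ K.filter (fun n : ℕ => 0 < (N : ℤ) + σ * g.eval (n : ℤ)), df g σ w N n| :=
        abs_sum_le_sum_abs _ _
    _ ≤ ∑ j ∈ range (C * k), (ε / (4 * C) * (H * tot pr X) + 2 * H * (Bj j).card) := sum_le_sum hblock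
    _ = (C * k) * (ε / (4 * C) * (H * tot pr X)) + 2 * H * ∑ j ∈ range (C * k), ((Bj j).card : ℝ) := by
        rw [sum_add_distrib, sum_const, nsmul_eq_mul, card_range, ← mul_sum]
        push_cast
        ring
    _ ≤ (C * k) * (ε / (4 * C) * (H * tot pr X)) + 2 * H * (2 * tot pr X) := by
        have h1 : 2 * (H : ℝ) * ∑ j ∈ range (C * k), ((Bj j).card : ℝ) ≤ 2 * H * (2 * tot pr X) :=
          mul_le_mul_of_nonneg_left (hBsum.trans hKtot) (by positivity)
        linarith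
    _ = ε / 4 * ((k * H) * tot pr X) + 4 / k * ((k * H) * tot pr X) := by
        have h1 : ((C : ℝ) * k) * (ε / (4 * C) * (H * tot pr X)) = ε / 4 * ((k * H) * tot pr X) := by
          field_simp
        have h2 : 2 * (H : ℝ) * (2 * tot pr X) = 4 / k * ((k * H) * tot pr X) := by
          rw [div_mul_eq_mul_div, eq_div_iff hk0.ne']
          ring
        rw [h1, h2]
    _ ≤ ε / 4 * ((2 * (X : ℝ) ^ d) * tot pr X) + 4 / k * ((2 * (X : ℝ) ^ d) * tot pr X) := by
        apply add_le_add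
        · exact mul_le_mul_of_nonneg_left (mul_le_mul_of_nonneg_right hkHr htot0) (by positivity)
        · exact mul_le_mul_of_nonneg_left (mul_le_mul_of_nonneg_right hkHr htot0) (by positivity)
    _ = (ε / 2 + 1 / 2 * (16 / k)) * ((X : ℝ) ^ d * tot pr X) := by ring
    _ ≤ ε * ((X : ℝ) ^ d * tot pr X) := by
        apply mul_le_mul_of_nonneg_right _ (by positivity)
        linarith

end Pool.Agent.TH881.RQ
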