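import Mathlib
import Pool.Agent.TH881.RQ.Uni3

/-! The asymptotic formula along arbitrary sets of arguments, for almost all `N`. -/

set_option autoImplicit false

namespace Pool.Agent.TH881.RQ

open Finset Filter Topology Polynomial
open Pool.Agent.TH881
open Pool.Agent.TH881.RG
open Pool.Agent.H373R2.T7
open Pool.Agent.TH882.PG (thI thI_nonneg bilG)

open Classical in
/-- the arguments in `S` up to `X` -/
noncomputable def KS (pr : Bool) (S : Set ℕ) (X : ℕ) : Finset ℕ := (Icc 1 X).filter (fun n => isArg pr n ∧ n ∈ S)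

/-- the small arguments are negligible -/
lemma small_num (pr : Bool) (A : ℝ) (δ : ℝ) (hδ : 0 < δ) : ∃ X0 : ℕ, ∀ X : ℕ, X0 ≤ X →
    1 ≤ Real.log X ∧ √(X : ℝ) * (A * Real.log X) ≤ δ * tot pr X ∧ 0 < tot pr X := by
  have hc : 0 < δ / (|A| + 1) := by positivity
  have h := (isLittleO_log_rpow_rpow_atTop (2 : ℝ) (show (0 : ℝ) < 1 / 2 by norm_num)).bound hc
  have h2 := (tendsto_natCast_atTop_atTop (R := ℝ)).eventually h
  obtain ⟨X0, h0⟩ := eventually_atTop.1 h2
  refine ⟨X0 + 3, ?_⟩
  intro X hX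
  have h3 := h0 X (by omega)
  have hXr : (3 : ℝ) ≤ X := by exact_mod_cast (by omega : 3 ≤ X)
  have hX0 : (0 : ℝ) < X := by linarith
  have hL : 1 ≤ Real.log X := by
    rw [Real.le_log_iff_exp_le hX0]
    have := Real.exp_one_lt_d9
    linarith
  have htot : (X : ℝ) / Real.log X ≤ tot pr X := by
    unfold tot
    apply div_le_div_of_nonneg_left hX0.le
    · split_ifs <;> linarith
    · split_ifs <;> linarith
  have htot0 : 0 < tot pr X := lt_of_lt_of_le (by positivity) htot
  refine ⟨hL, ?_, htot0⟩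
  have hs := Real.mul_self_sqrt hX0.le
  have hs0 := Real.sqrt_pos.2 hX0
  rw [Real.norm_of_nonneg (by positivity), Real.norm_of_nonneg (by positivity), ← Real.sqrt_eq_rpow,
    show (2 : ℝ) = ((2 : ℕ) : ℝ) by norm_num, Real.rpow_natCast] at h3
  have h4 : (|A| + 1) * Real.log X ^ 2 ≤ δ * √(X : ℝ) := by
    calc (|A| + 1) * Real.log X ^ 2 ≤ (|A| + 1) * (δ / (|A| + 1) * √(X : ℝ)) := mul_le_mul_of_nonneg_left h3 (by positivity)
      _ = _ := by field_simp
  have h5 : A * Real.log X ^ 2 ≤ (|A| + 1) * Real.log X ^ 2 := by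
    apply mul_le_mul_of_nonneg_right _ (by positivity)
    have := le_abs_self A
    linarith
  refine le_trans ?_ (mul_le_mul_of_nonneg_left htot hδ.le)
  rw [← mul_div_assoc, le_div_iff₀ (by linarith)]
  calc √(X : ℝ) * (A * Real.log X) * Real.log X = √(X : ℝ) * (A * Real.log X ^ 2) := by ring
    _ ≤ √(X : ℝ) * (δ * √(X : ℝ)) := mul_le_mul_of_nonneg_left (h5.trans h4) hs0.le
    _ = δ * (√(X : ℝ) * √(X : ℝ)) := by ring
    _ = _ := by rw [hs]

/-- Markov's inequality for signed sums -/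
lemma markov (I : Finset ℕ) (f : ℕ → ℝ) (δ Y T : ℝ) (hδ : 0 < δ) (hT : 0 < T)
    (h : ∀ E ⊆ I, |∑ N ∈ E, f N| ≤ δ ^ 2 / 2 * (Y * T)) [DecidablePred (fun N => δ * T < |f N|)] :
    ((I.filter (fun N => δ * T < |f N|)).card : ℝ) ≤ δ * Y := by
  classical
  have h1 : I.filter (fun N => δ * T < |f N|) ⊆ I.filter (fun N => δ * T < f N) ∪ I.filter (fun N => f N < -(δ * T)) := by
    intro N hN
    rw [mem_filter] at hN
    rw [mem_union, mem_filter, mem_filter]
    rcases lt_abs.1 hN.2 with h2 | h2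
    · exact Or.inl ⟨hN.1, h2⟩
    · exact Or.inr ⟨hN.1, by linarith⟩
  have h2 : ((I.filter (fun N => δ * T < f N)).card : ℝ) * (δ * T) ≤ δ ^ 2 / 2 * (Y * T) := by
    refine le_trans ?_ (le_trans (le_abs_self _) (h _ (filter_subset (fun N => δ * T < f N) I)))
    rw [← nsmul_eq_mul, ← sum_const]
    apply sum_le_sum
    intro N hN
    rw [mem_filter] at hN
    exact hN.2.le
  have h3 : ((I.filter (fun N => f N < -(δ * T))).card : ℝ) * (δ * T) ≤ δ ^ 2 / 2 * (Y * T) := by
    refine le_trans ?_ (le_trans (neg_le_abs _) (h _ (filter_subset (fun N => f N < -(δ * T)) I)))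
    rw [← nsmul_eq_mul, ← sum_const, ← sum_neg_distrib]
    apply sum_le_sum
    intro N hN
    rw [mem_filter] at hN
    linarith [hN.2]
  have h4 : ((I.filter (fun N => δ * T < |f N|)).card : ℝ) ≤
      (I.filter (fun N => δ * T < f N)).card + (I.filter (fun N => f N < -(δ * T))).card := by
    exact_mod_cast (card_le_card h1).trans (card_union_le _ _)
  have h5 : ((I.filter (fun N => δ * T < |f N|)).card : ℝ) * (δ * T) ≤ (δ * Y) * (δ * T) := by
    calc ((I.filter (fun N => δ * T < |f N|)).card : ℝ) * (δ * T)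
        ≤ ((I.filter (fun N => δ * T < f N)).card + (I.filter (fun N => f N < -(δ * T))).card) * (δ * T) :=
          mul_le_mul_of_nonneg_right h4 (by positivity)
      _ ≤ δ ^ 2 / 2 * (Y * T) + δ ^ 2 / 2 * (Y * T) := by rw [add_mul]; exact add_le_add h2 h3
      _ = _ := by ring
  exact le_of_mul_le_mul_right h5 (by positivity)

open Classical in
/-- **The asymptotic formula along arbitrary sets of arguments, for almost all `N`.** -/
theorem uni (pr : Bool) (g : ℤ[X]) (hd : 1 ≤ g.natDegree) (hl : 0 < g.leadingCoeff) (σ : ℤ)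
    (hσ : σ = 1 ∨ σ = -1) (hPM : StPMq pr g) (C : ℕ) (hC : 1 ≤ C) (ε : ℝ) (hε : 0 < ε) :
    ∃ w0 : ℕ, ∀ w : ℕ, w0 ≤ w → ∃ X0 : ℕ, ∀ X : ℕ, X0 ≤ X → ∀ S : Set ℕ,
      (((Icc 1 (C * X ^ g.natDegree)).filter (fun N : ℕ => ε * tot pr X <
        |∑ n ∈ KS pr S X, thI ((N : ℤ) + σ * g.eval (n : ℤ)) - (Vz w)⁻¹ * ((KS pr S X).filter (fun n : ℕ =>
          0 < (N : ℤ) + σ * g.eval (n : ℤ) ∧ gd g σ w (N : ZMod (Wp w)) (n : ZMod (Wp w)))).card|)).card : ℝ) ≤
        ε * (X : ℝ) ^ g.natDegree := by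
  set d := g.natDegree with hdd
  obtain ⟨w0, hbil⟩ := bil_full pr g hd hl σ hσ hPM C hC ((ε / 2) ^ 2 / 2) (by positivity)
  refine ⟨w0, fun w hw => ?_⟩
  obtain ⟨X1, hX1⟩ := hbil w hw
  obtain ⟨v, hv⟩ : ∃ v : ℝ, v = (Vz w)⁻¹ := ⟨_, rfl⟩
  have hv0 : 0 ≤ v := by rw [hv]; exact inv_nonneg.2 (Vz_pos w).le
  obtain ⟨A, hA⟩ : ∃ A : ℝ, A = Real.log ((C : ℝ) + cf g) + d + v := ⟨_, rfl⟩
  obtain ⟨X2, hX2⟩ := small_num pr A (ε / 2) (by positivity)
  refine ⟨X1 + X2 + 3, ?_⟩
  intro X hX S
  obtain ⟨hL, hsm, htot0⟩ := hX2 X (by omega)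
  have hXr : (3 : ℝ) ≤ X := by exact_mod_cast (by omega : 3 ≤ X)
  have hX0 : (0 : ℝ) < X := by linarith
  have hXd0 : (0 : ℝ) < (X : ℝ) ^ d := by positivity
  have hCr : (1 : ℝ) ≤ C := by exact_mod_cast hC
  obtain ⟨K, hK⟩ : ∃ K : Finset ℕ, K = (KS pr S X).filter (fun n : ℕ => √(X : ℝ) < n) := ⟨_, rfl⟩
  have hKm : ∀ n ∈ K, isArg pr n ∧ √(X : ℝ) < n ∧ n ≤ X := by
    intro n hn
    rw [hK, mem_filter] at hn
    unfold KS at hn
    rw [mem_filter, mem_Icc] at hn
    exact ⟨hn.1.2.1, hn.2, hn.1.1.2⟩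
  obtain ⟨f, hf⟩ : ∃ f : ℕ → ℝ, ∀ N, f N = ∑ n ∈ K.filter (fun n : ℕ => 0 < (N : ℤ) + σ * g.eval (n : ℤ)), df g σ w N n :=
    ⟨_, fun _ => rfl⟩
  have hmk := markov (Icc 1 (C * X ^ d)) f (ε / 2) ((X : ℝ) ^ d) (tot pr X) (by positivity) htot0 (by
    intro E hE
    have h1 := hX1 X (by omega) K hKm E hE
    rw [sum_congr rfl (fun N _ => hf N)]
    exact h1)
  refine le_trans ?_ (hmk.trans (mul_le_mul_of_nonneg_right (by linarith) hXd0.le))
  have hsub : (Icc 1 (C * X ^ d)).filter (fun N : ℕ => ε * tot pr X <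
        |∑ n ∈ KS pr S X, thI ((N : ℤ) + σ * g.eval (n : ℤ)) - (Vz w)⁻¹ * ((KS pr S X).filter (fun n : ℕ =>
          0 < (N : ℤ) + σ * g.eval (n : ℤ) ∧ gd g σ w (N : ZMod (Wp w)) (n : ZMod (Wp w)))).card|) ⊆
      (Icc 1 (C * X ^ d)).filter (fun N => ε / 2 * tot pr X < |f N|) := by
    intro N hN
    rw [mem_filter] at hN ⊢
    refine ⟨hN.1, ?_⟩
    have hN1 := mem_Icc.1 hN.1
    have key : |(∑ n ∈ KS pr S X, thI ((N : ℤ) + σ * g.eval (n : ℤ)) - (Vz w)⁻¹ * ((KS pr S X).filter (fun n : ℕ =>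
          0 < (N : ℤ) + σ * g.eval (n : ℤ) ∧ gd g σ w (N : ZMod (Wp w)) (n : ZMod (Wp w)))).card) - f N| ≤
          ε / 2 * tot pr X := by
      have h1 : ∑ n ∈ KS pr S X, thI ((N : ℤ) + σ * g.eval (n : ℤ)) - (Vz w)⁻¹ * ((KS pr S X).filter (fun n : ℕ =>
          0 < (N : ℤ) + σ * g.eval (n : ℤ) ∧ gd g σ w (N : ZMod (Wp w)) (n : ZMod (Wp w)))).card =
          ∑ n ∈ KS pr S X, (if 0 < (N : ℤ) + σ * g.eval (n : ℤ) then df g σ w N n else 0) := by
        rw [mul_comm, ← nsmul_eq_mul, ← sum_const, sum_filter, ← sum_sub_distrib]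
        apply sum_congr rfl
        intro n _
        by_cases h2 : 0 < (N : ℤ) + σ * g.eval (n : ℤ)
        · rw [if_pos h2]
          unfold df
          congr 1
          by_cases h3 : gd g σ w (N : ZMod (Wp w)) (n : ZMod (Wp w))
          · rw [if_pos h3, if_pos ⟨h2, h3⟩]
          · rw [if_neg h3, if_neg (fun h => h3 h.2)]
        · rw [if_neg h2, if_neg (fun h => h2 h.1), sub_zero]
          unfold thI
          rw [if_neg]
          have h3 : ((N : ℤ) + σ * g.eval (n : ℤ)).toNat = 0 := by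
            apply Int.toNat_of_nonpos
            linarith
          rw [h3]
          exact Nat.not_prime_zero
      have h2 : f N = ∑ n ∈ KS pr S X, (if √(X : ℝ) < n then (if 0 < (N : ℤ) + σ * g.eval (n : ℤ) then df g σ w N n else 0) else 0) := by
        rw [hf, hK, sum_filter, sum_filter]
      rw [h1, h2, ← sum_sub_distrib]
      refine (abs_sum_le_sum_abs _ _).trans ?_
      have h3 : ∀ n ∈ KS pr S X, |(if 0 < (N : ℤ) + σ * g.eval (n : ℤ) then df g σ w N n else 0) -
          (if √(X : ℝ) < n then (if 0 < (N : ℤ) + σ * g.eval (n : ℤ) then df g σ w N n else 0) else 0)| ≤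
          if n ≤ ⌊√(X : ℝ)⌋₊ then A * Real.log X else 0 := by
        intro n hn
        unfold KS at hn
        rw [mem_filter, mem_Icc] at hn
        by_cases h4 : √(X : ℝ) < n
        · rw [if_pos h4, sub_self, abs_zero, if_neg]
          intro h5
          have h6 := (Nat.le_floor_iff (Real.sqrt_nonneg _)).1 h5
          linarith
        · rw [if_neg h4, sub_zero, if_pos (Nat.le_floor (not_lt.1 h4))]
          have hAL0 : 0 ≤ Real.log ((C : ℝ) + cf g) := by
            apply Real.log_nonneg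
            have : (0 : ℝ) ≤ cf g := Nat.cast_nonneg _
            linarith
          have hA0 : 0 ≤ A * Real.log X := by
            rw [hA]
            positivity
          split_ifs with h5
          · unfold df
            have h6 : thI ((N : ℤ) + σ * g.eval (n : ℤ)) ≤ (Real.log ((C : ℝ) + cf g) + d) * Real.log X := by
              have h7 : (N : ℤ) + σ * g.eval (n : ℤ) ≤ ((C + cf g) * X ^ d : ℕ) := by
                have h8 := abs_eval_le g n hn.1.1
                have h9 : σ * g.eval (n : ℤ) ≤ |g.eval (n : ℤ)| := by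
                  rcases hσ with h | h
                  · rw [h, one_mul]
                    exact le_abs_self _
                  · rw [h, neg_one_mul]
                    exact neg_le_abs _
                have h10 : (n : ℤ) ^ g.natDegree ≤ (X : ℤ) ^ d := by
                  have h11 : n ^ d ≤ X ^ d := Nat.pow_le_pow_left hn.1.2 d
                  exact_mod_cast h11
                have h12 : (cf g : ℤ) * (n : ℤ) ^ g.natDegree ≤ cf g * (X : ℤ) ^ d := mul_le_mul_of_nonneg_left h10 (Nat.cast_nonneg _)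
                have h13 : (N : ℤ) ≤ C * (X : ℤ) ^ d := by exact_mod_cast hN1.2
                push_cast
                linarith
              have h8 : (((N : ℤ) + σ * g.eval (n : ℤ)).toNat : ℝ) ≤ ((C : ℝ) + cf g) * (X : ℝ) ^ d := by
                have h9 : ((N : ℤ) + σ * g.eval (n : ℤ)).toNat ≤ (C + cf g) * X ^ d := by
                  generalize (N : ℤ) + σ * g.eval (n : ℤ) = y at h7
                  omega
                exact_mod_cast h9
              have h9 : (1 : ℝ) ≤ (((N : ℤ) + σ * g.eval (n : ℤ)).toNat : ℝ) := by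
                have h10 : 1 ≤ ((N : ℤ) + σ * g.eval (n : ℤ)).toNat := by
                  generalize (N : ℤ) + σ * g.eval (n : ℤ) = y at h5
                  omega
                exact_mod_cast h10
              have h10 : thI ((N : ℤ) + σ * g.eval (n : ℤ)) ≤ Real.log (((N : ℤ) + σ * g.eval (n : ℤ)).toNat : ℝ) := by
                unfold thI
                split_ifs
                · exact le_rfl
                · exact Real.log_nonneg h9
              have h11 : Real.log (((N : ℤ) + σ * g.eval (n : ℤ)).toNat : ℝ) ≤ Real.log (((C : ℝ) + cf g) * (X : ℝ) ^ d) :=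
                Real.log_le_log (by linarith) h8
              have hcf0 : (0 : ℝ) ≤ cf g := Nat.cast_nonneg _
              rw [Real.log_mul (by linarith) (by positivity), Real.log_pow] at h11
              have h12 : Real.log ((C : ℝ) + cf g) ≤ Real.log ((C : ℝ) + cf g) * Real.log X := le_mul_of_one_le_right hAL0 hL
              calc thI ((N : ℤ) + σ * g.eval (n : ℤ)) ≤ Real.log ((C : ℝ) + cf g) + d * Real.log X := h10.trans h11
                _ ≤ _ := by linarith
            have h7 := thI_nonneg ((N : ℤ) + σ * g.eval (n : ℤ))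
            have h8 : v ≤ v * Real.log X := le_mul_of_one_le_right hv0 hL
            have h9 : 0 ≤ (Real.log ((C : ℝ) + cf g) + d) * Real.log X := by positivity
            have h10 : A * Real.log X = (Real.log ((C : ℝ) + cf g) + d) * Real.log X + v * Real.log X := by
              rw [hA]
              ring
            rw [h10, ← hv, abs_le]
            split_ifs
            · constructor <;> linarith
            · constructor <;> linarith
          · rw [abs_zero]
            exact hA0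
      refine (sum_le_sum h3).trans ?_
      rw [← sum_filter, sum_const, nsmul_eq_mul]
      have h4 : (((KS pr S X).filter (fun n => n ≤ ⌊√(X : ℝ)⌋₊)).card : ℝ) ≤ √(X : ℝ) := by
        have h5 : (KS pr S X).filter (fun n => n ≤ ⌊√(X : ℝ)⌋₊) ⊆ Icc 1 ⌊√(X : ℝ)⌋₊ := by
          intro n hn
          unfold KS at hn
          rw [mem_filter, mem_filter, mem_Icc] at hn
          rw [mem_Icc]
          exact ⟨hn.1.1.1, hn.2⟩
        have h6 := card_le_card h5
        rw [Nat.card_Icc, Nat.add_sub_cancel] at h6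
        have h7 : (((KS pr S X).filter (fun n => n ≤ ⌊√(X : ℝ)⌋₊)).card : ℝ) ≤ ⌊√(X : ℝ)⌋₊ := by exact_mod_cast h6
        exact h7.trans (Nat.floor_le (Real.sqrt_nonneg _))
      have hAL0 : 0 ≤ Real.log ((C : ℝ) + cf g) := by
        apply Real.log_nonneg
        have : (0 : ℝ) ≤ cf g := Nat.cast_nonneg _
        linarith
      have hA0 : 0 ≤ A * Real.log X := by
        rw [hA]
        positivity
      exact (mul_le_mul_of_nonneg_right h4 hA0).trans hsm
    have h5 := hN.2
    obtain ⟨T, hT⟩ : ∃ T : ℝ, T = ∑ n ∈ KS pr S X, thI ((N : ℤ) + σ * g.eval (n : ℤ)) - (Vz w)⁻¹ * ((KS pr S X).filter (fun n : ℕ =>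
          0 < (N : ℤ) + σ * g.eval (n : ℤ) ∧ gd g σ w (N : ZMod (Wp w)) (n : ZMod (Wp w)))).card := ⟨_, rfl⟩
    rw [← hT] at h5 key
    have h6 : |T| ≤ |f N| + |T - f N| := by
      calc |T| = |f N + (T - f N)| := by ring_nf
        _ ≤ _ := abs_add_le _ _
    linarith
  exact_mod_cast card_le_card hsub

end Pool.Agent.TH881.RQ
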