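import Mathlib
import Pool.Agent.TH881.RQ.Uni4

/-! The asymptotic formula for the number of prime values along arbitrary sets of arguments. -/

set_option autoImplicit false

namespace Pool.Agent.TH881.RQ

open Finset Filter Topology Polynomial
open Pool.Agent.TH881
open Pool.Agent.TH881.RG
open Pool.Agent.H373R2.T7
open Pool.Agent.TH882.PG (thI thI_nonneg bilG)

/-- the logarithm of a prime value is `d log X`, pointwise bound -/
lemma log_cmp (d : ℕ) (hd : 1 ≤ d) (q : ℕ) (hq : 1 ≤ q) (X Q η A : ℝ) (hX : 3 ≤ X) (hL : 1 ≤ Real.log X) (hη : 0 < η) (hη1 : η ≤ 1)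
    (hQ : 1 ≤ Q) (hqQ : (q : ℝ) ≤ Q * X ^ d) (hA : A = Real.log (1 / η) + Real.log Q) :
    |d * Real.log X - Real.log q| ≤ (if ((q : ℝ)) ^ 2 ≤ X ^ d then d * Real.log X else 0) +
      (if (q : ℝ) ≤ η * X ^ d then 2 * Real.log q else 0) + (2 * A / (d * Real.log X)) * Real.log q := by
  have hX0 : 0 < X := by linarith
  have hXd : 0 < X ^ d := by positivity
  have hq1 : (1 : ℝ) ≤ q := by exact_mod_cast hq
  have hq0 : (0 : ℝ) < q := by linarith
  have hlq : 0 ≤ Real.log q := Real.log_nonneg hq1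
  have hdr : (1 : ℝ) ≤ d := by exact_mod_cast hd
  have hdL : 0 < d * Real.log X := by nlinarith
  have hη2 : 0 ≤ Real.log (1 / η) := by
    apply Real.log_nonneg
    rw [le_div_iff₀ hη]
    linarith
  have hQ2 : 0 ≤ Real.log Q := Real.log_nonneg hQ
  have hA0 : 0 ≤ A := by rw [hA]; linarith
  have hXdL : Real.log (X ^ d) = d * Real.log X := Real.log_pow _ _
  have h3 : 0 ≤ (2 * A / (d * Real.log X)) * Real.log q := by positivity
  by_cases c1 : ((q : ℝ)) ^ 2 ≤ X ^ d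
  · rw [if_pos c1]
    have h4 := Real.log_le_log (by positivity) c1
    rw [Real.log_pow, hXdL] at h4
    push_cast at h4
    have h5 : 0 ≤ (if (q : ℝ) ≤ η * X ^ d then 2 * Real.log q else 0) := by
      split_ifs
      · linarith
      · exact le_rfl
    rw [abs_le]
    constructor
    · linarith
    · linarith
  · rw [if_neg c1]
    push Not at c1
    have h4 := Real.log_le_log hXd c1.le
    rw [hXdL, Real.log_pow] at h4
    push_cast at h4
    by_cases c2 : (q : ℝ) ≤ η * X ^ d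
    · rw [if_pos c2]
      have h5 : (q : ℝ) ≤ X ^ d := c2.trans (mul_le_of_le_one_left hXd.le hη1)
      have h6 := Real.log_le_log hq0 h5
      rw [hXdL] at h6
      rw [abs_le]
      constructor
      · linarith
      · linarith
    · rw [if_neg c2]
      push Not at c2
      have h5 := Real.log_le_log (by positivity) c2.le
      rw [Real.log_mul hη.ne' hXd.ne', hXdL] at h5
      have h6 := Real.log_le_log hq0 hqQ
      rw [Real.log_mul (by linarith) hXd.ne', hXdL] at h6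
      have h7 : Real.log (1 / η) = -Real.log η := by rw [one_div, Real.log_inv]
      have h8 : |d * Real.log X - Real.log q| ≤ A := by
        rw [hA, abs_le]
        constructor
        · linarith
        · linarith
      have h9 : A ≤ (2 * A / (d * Real.log X)) * Real.log q := by
        rw [div_mul_eq_mul_div, le_div_iff₀ hdL]
        calc A * (d * Real.log X) ≤ A * (2 * Real.log q) := mul_le_mul_of_nonneg_left h4 hA0
          _ = _ := by ring
      linarith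

open Classical in
/-- one argument, all `N` -/
lemma row_cmp (g : ℤ[X]) (hd : 1 ≤ g.natDegree) (σ : ℤ) (hσ : σ = 1 ∨ σ = -1) (C : ℕ) (hC : 1 ≤ C) (η : ℝ)
    (hη : 0 < η) (hη1 : η ≤ 1) :
    ∃ X0 : ℕ, ∀ X : ℕ, X0 ≤ X → ∀ n : ℕ, 1 ≤ n → n ≤ X →
      ∑ N ∈ Icc 1 (C * X ^ g.natDegree), |(if ((N : ℤ) + σ * g.eval (n : ℤ)).toNat.Prime then g.natDegree * Real.log X else 0) -
        thI ((N : ℤ) + σ * g.eval (n : ℤ))| ≤ 6 * η * (X : ℝ) ^ g.natDegree := by
  set d := g.natDegree with hdd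
  obtain ⟨Q, hQ⟩ : ∃ Q : ℝ, Q = (C : ℝ) + cf g := ⟨_, rfl⟩
  have hCr : (1 : ℝ) ≤ C := by exact_mod_cast hC
  have hcf0 : (0 : ℝ) ≤ cf g := Nat.cast_nonneg _
  have hQ1 : 1 ≤ Q := by rw [hQ]; linarith
  obtain ⟨A, hA⟩ : ∃ A : ℝ, A = Real.log (1 / η) + Real.log Q := ⟨_, rfl⟩
  have hdr : (1 : ℝ) ≤ d := by exact_mod_cast hd
  have hlim : Tendsto (fun N : ℕ => Real.log (N : ℝ)) atTop atTop :=
    Real.tendsto_log_atTop.comp (tendsto_natCast_atTop_atTop (R := ℝ))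
  obtain ⟨X1, h1⟩ := eventually_atTop.1 (hlim.eventually_ge_atTop (4 * A * Q / (d * η) + 1))
  obtain ⟨X2, h2⟩ := small_num false (d : ℝ) η hη
  refine ⟨X1 + X2 + 3, ?_⟩
  intro X hX n hn1 hnX
  obtain ⟨hL, hsm, _⟩ := h2 X (by omega)
  have hLA := h1 X (by omega)
  have hXr : (3 : ℝ) ≤ X := by exact_mod_cast (by omega : 3 ≤ X)
  have hX0 : (0 : ℝ) < X := by linarith
  have hXd0 : (0 : ℝ) < (X : ℝ) ^ d := by positivity
  have hXdn : X ≤ X ^ d := Nat.le_self_pow (by omega) X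
  have hXd : (X : ℝ) ≤ (X : ℝ) ^ d := by exact_mod_cast hXdn
  have hη2 : 0 ≤ Real.log (1 / η) := by
    apply Real.log_nonneg
    rw [le_div_iff₀ hη]
    linarith
  have hQ2 : 0 ≤ Real.log Q := Real.log_nonneg hQ1
  have hA0 : 0 ≤ A := by rw [hA]; linarith
  unfold tot at hsm
  rw [if_neg (by simp), div_one] at hsm
  -- the bound of the values
  have hval : ∀ N ∈ Icc 1 (C * X ^ d), (((N : ℤ) + σ * g.eval (n : ℤ)).toNat : ℝ) ≤ Q * (X : ℝ) ^ d := by
    intro N hN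
    rw [mem_Icc] at hN
    have h7 : (N : ℤ) + σ * g.eval (n : ℤ) ≤ ((C + cf g) * X ^ d : ℕ) := by
      have h8 := abs_eval_le g n hn1
      have h9 : σ * g.eval (n : ℤ) ≤ |g.eval (n : ℤ)| := by
        rcases hσ with h | h
        · rw [h, one_mul]
          exact le_abs_self _
        · rw [h, neg_one_mul]
          exact neg_le_abs _
      have h10 : (n : ℤ) ^ g.natDegree ≤ (X : ℤ) ^ d := by
        have h11 : n ^ d ≤ X ^ d := Nat.pow_le_pow_left hnX d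
        exact_mod_cast h11
      have h12 : (cf g : ℤ) * (n : ℤ) ^ g.natDegree ≤ cf g * (X : ℤ) ^ d := mul_le_mul_of_nonneg_left h10 (Nat.cast_nonneg _)
      have h13 : (N : ℤ) ≤ C * (X : ℤ) ^ d := by exact_mod_cast hN.2
      push_cast
      linarith
    have h9 : ((N : ℤ) + σ * g.eval (n : ℤ)).toNat ≤ (C + cf g) * X ^ d := by
      generalize (N : ℤ) + σ * g.eval (n : ℤ) = y at h7
      omega
    rw [hQ]
    exact_mod_cast h9
  obtain ⟨E, hE⟩ : ∃ E : Finset ℕ, E = (Icc 1 (C * X ^ d)).filter (fun N : ℕ => ((N : ℤ) + σ * g.eval (n : ℤ)).toNat.Prime) := ⟨_, rfl⟩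
  have hred : ∑ N ∈ Icc 1 (C * X ^ d), |(if ((N : ℤ) + σ * g.eval (n : ℤ)).toNat.Prime then d * Real.log X else 0) -
        thI ((N : ℤ) + σ * g.eval (n : ℤ))| = ∑ N ∈ E, |d * Real.log X - Real.log ((N : ℤ) + σ * g.eval (n : ℤ)).toNat| := by
    rw [hE, sum_filter]
    apply sum_congr rfl
    intro N _
    unfold thI
    by_cases hp : ((N : ℤ) + σ * g.eval (n : ℤ)).toNat.Prime
    · rw [if_pos hp, if_pos hp, if_pos hp]
    · rw [if_neg hp, if_neg hp, if_neg hp, sub_zero, abs_zero]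
  rw [hred]
  have hEp : ∀ N ∈ E, ((N : ℤ) + σ * g.eval (n : ℤ)).toNat.Prime ∧ N ∈ Icc 1 (C * X ^ d) := by
    intro N hN
    rw [hE, mem_filter] at hN
    exact ⟨hN.2, hN.1⟩
  have hth : ∀ N ∈ E, thI ((N : ℤ) + σ * g.eval (n : ℤ)) = Real.log ((N : ℤ) + σ * g.eval (n : ℤ)).toNat := by
    intro N hN
    unfold thI
    rw [if_pos (hEp N hN).1]
  have hpt : ∀ N ∈ E, |d * Real.log X - Real.log ((N : ℤ) + σ * g.eval (n : ℤ)).toNat| ≤
      (if (((((N : ℤ) + σ * g.eval (n : ℤ)).toNat : ℕ) : ℝ)) ^ 2 ≤ (X : ℝ) ^ d then d * Real.log X else 0) +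
      (if ((((N : ℤ) + σ * g.eval (n : ℤ)).toNat : ℕ) : ℝ) ≤ η * (X : ℝ) ^ d then 2 * thI ((N : ℤ) + σ * g.eval (n : ℤ)) else 0) +
      (2 * A / (d * Real.log X)) * thI ((N : ℤ) + σ * g.eval (n : ℤ)) := by
    intro N hN
    rw [hth N hN]
    exact log_cmp d hd _ (hEp N hN).1.pos X Q η A hXr hL hη hη1 hQ1 (hval N (hEp N hN).2) hA
  refine (sum_le_sum hpt).trans ?_
  rw [sum_add_distrib, sum_add_distrib, ← sum_filter, ← sum_filter, sum_const, nsmul_eq_mul, ← mul_sum, ← mul_sum]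
  -- part one
  have e1 : ((E.filter (fun N : ℕ => (((((N : ℤ) + σ * g.eval (n : ℤ)).toNat : ℕ) : ℝ)) ^ 2 ≤ (X : ℝ) ^ d)).card : ℝ) * (d * Real.log X) ≤
      η * (X : ℝ) ^ d := by
    have h3 : ((E.filter (fun N : ℕ => (((((N : ℤ) + σ * g.eval (n : ℤ)).toNat : ℕ) : ℝ)) ^ 2 ≤ (X : ℝ) ^ d)).card : ℝ) ≤ √((X : ℝ) ^ d) := by
      have h4 : (E.filter (fun N : ℕ => (((((N : ℤ) + σ * g.eval (n : ℤ)).toNat : ℕ) : ℝ)) ^ 2 ≤ (X : ℝ) ^ d)).card ≤
          (Icc 1 ⌊√((X : ℝ) ^ d)⌋₊).card := by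
        apply card_le_card_of_injOn (fun N : ℕ => ((N : ℤ) + σ * g.eval (n : ℤ)).toNat)
        · intro N hN
          rw [mem_coe, mem_filter] at hN
          rw [mem_coe, mem_Icc]
          refine ⟨(hEp N hN.1).1.pos, Nat.le_floor ?_⟩
          exact Real.le_sqrt_of_sq_le hN.2
        · intro N hN N' hN' h
          rw [mem_coe, mem_filter] at hN hN'
          have h5 := (hEp N hN.1).1.pos
          have h6 := (hEp N' hN'.1).1.pos
          have h7 : ((N : ℤ) + σ * g.eval (n : ℤ)).toNat = ((N' : ℤ) + σ * g.eval (n : ℤ)).toNat := h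
          omega
      rw [Nat.card_Icc, Nat.add_sub_cancel] at h4
      have h5 : ((E.filter (fun N : ℕ => (((((N : ℤ) + σ * g.eval (n : ℤ)).toNat : ℕ) : ℝ)) ^ 2 ≤ (X : ℝ) ^ d)).card : ℝ) ≤
          ⌊√((X : ℝ) ^ d)⌋₊ := by exact_mod_cast h4
      exact h5.trans (Nat.floor_le (Real.sqrt_nonneg _))
    have hs := Real.mul_self_sqrt hX0.le
    have hs0 := Real.sqrt_pos.2 hX0
    have h4 : d * Real.log X ≤ η * √(X : ℝ) := by
      have h5 : √(X : ℝ) * (d * Real.log X) ≤ √(X : ℝ) * (η * √(X : ℝ)) := by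
        have h6 : √(X : ℝ) * (η * √(X : ℝ)) = η * X := by
          calc √(X : ℝ) * (η * √(X : ℝ)) = η * (√(X : ℝ) * √(X : ℝ)) := by ring
            _ = _ := by rw [hs]
        rw [h6]
        exact hsm
      exact le_of_mul_le_mul_left h5 hs0
    have h5 : √(X : ℝ) ≤ √((X : ℝ) ^ d) := Real.sqrt_le_sqrt hXd
    have h6 := Real.mul_self_sqrt hXd0.le
    have h7 := Real.sqrt_nonneg ((X : ℝ) ^ d)
    calc ((E.filter (fun N : ℕ => (((((N : ℤ) + σ * g.eval (n : ℤ)).toNat : ℕ) : ℝ)) ^ 2 ≤ (X : ℝ) ^ d)).card : ℝ) * (d * Real.log X)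
        ≤ √((X : ℝ) ^ d) * (η * √(X : ℝ)) := mul_le_mul h3 h4 (by positivity) h7
      _ ≤ √((X : ℝ) ^ d) * (η * √((X : ℝ) ^ d)) := by
          apply mul_le_mul_of_nonneg_left _ h7
          exact mul_le_mul_of_nonneg_left h5 hη.le
      _ = η * (√((X : ℝ) ^ d) * √((X : ℝ) ^ d)) := by ring
      _ = _ := by rw [h6]
  -- part two
  have e2 : 2 * ∑ N ∈ E.filter (fun N : ℕ => ((((N : ℤ) + σ * g.eval (n : ℤ)).toNat : ℕ) : ℝ) ≤ η * (X : ℝ) ^ d),
      thI ((N : ℤ) + σ * g.eval (n : ℤ)) ≤ 4 * (η * (X : ℝ) ^ d) := by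
    have h3 := row (E.filter (fun N : ℕ => ((((N : ℤ) + σ * g.eval (n : ℤ)).toNat : ℕ) : ℝ) ≤ η * (X : ℝ) ^ d))
      (σ * g.eval (n : ℤ)) ⌊η * (X : ℝ) ^ d⌋₊ (by
        intro N hN _
        rw [mem_filter] at hN
        exact Nat.le_floor hN.2)
    have h4 : (⌊η * (X : ℝ) ^ d⌋₊ : ℝ) ≤ η * (X : ℝ) ^ d := Nat.floor_le (by positivity)
    linarith
  -- part three
  have e3 : 2 * A / (d * Real.log X) * ∑ N ∈ E, thI ((N : ℤ) + σ * g.eval (n : ℤ)) ≤ η * (X : ℝ) ^ d := by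
    have h3 := row E (σ * g.eval (n : ℤ)) ((C + cf g) * X ^ d) (by
        intro N hN _
        have h4 := hval N (hEp N hN).2
        rw [hQ] at h4
        exact_mod_cast h4)
    have h4 : (((C + cf g) * X ^ d : ℕ) : ℝ) = Q * (X : ℝ) ^ d := by
      rw [hQ]
      push_cast
      ring
    rw [h4] at h3
    have hdL : 0 < d * Real.log X := by nlinarith
    calc 2 * A / (d * Real.log X) * ∑ N ∈ E, thI ((N : ℤ) + σ * g.eval (n : ℤ))
        ≤ 2 * A / (d * Real.log X) * (2 * (Q * (X : ℝ) ^ d)) := mul_le_mul_of_nonneg_left h3 (by positivity)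
      _ = (4 * A * Q / (d * Real.log X)) * (X : ℝ) ^ d := by ring
      _ ≤ η * (X : ℝ) ^ d := by
          apply mul_le_mul_of_nonneg_right _ hXd0.le
          rw [div_le_iff₀ hdL]
          have h5 : 4 * A * Q / (d * η) ≤ Real.log X := by linarith
          rw [div_le_iff₀ (by positivity)] at h5
          calc 4 * A * Q ≤ Real.log X * (d * η) := h5
            _ = _ := by ring
  linarith

open Classical in
/-- **The number of prime values along arbitrary sets of arguments, for almost all `N`.** -/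
theorem uni_count (pr : Bool) (g : ℤ[X]) (hd : 1 ≤ g.natDegree) (hl : 0 < g.leadingCoeff) (σ : ℤ)
    (hσ : σ = 1 ∨ σ = -1) (hPM : StPMq pr g) (C : ℕ) (hC : 1 ≤ C) (ε : ℝ) (hε : 0 < ε) :
    ∃ w0 : ℕ, ∀ w : ℕ, w0 ≤ w → ∃ X0 : ℕ, ∀ X : ℕ, X0 ≤ X → ∀ S : Set ℕ,
      (((Icc 1 (C * X ^ g.natDegree)).filter (fun N : ℕ => ε * tot pr X <
        |((KS pr S X).filter (fun n : ℕ => ((N : ℤ) + σ * g.eval (n : ℤ)).toNat.Prime)).card * (g.natDegree * Real.log X) -
          (Vz w)⁻¹ * ((KS pr S X).filter (fun n : ℕ =>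
          0 < (N : ℤ) + σ * g.eval (n : ℤ) ∧ gd g σ w (N : ZMod (Wp w)) (n : ZMod (Wp w)))).card|)).card : ℝ) ≤
        ε * (X : ℝ) ^ g.natDegree := by
  set d := g.natDegree with hdd
  obtain ⟨w0, h0⟩ := uni pr g hd hl σ hσ hPM C hC (ε / 2) (by positivity)
  refine ⟨w0, fun w hw => ?_⟩
  obtain ⟨X1, hX1⟩ := h0 w hw
  obtain ⟨η, hη⟩ : ∃ η : ℝ, η = min 1 (ε ^ 2 / 100) := ⟨_, rfl⟩
  have hη0 : 0 < η := by rw [hη]; positivity
  have hη1 : η ≤ 1 := by rw [hη]; exact min_le_left _ _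
  have hη2 : η ≤ ε ^ 2 / 100 := by rw [hη]; exact min_le_right _ _
  obtain ⟨X2, hX2⟩ := row_cmp g hd σ hσ C hC η hη0 hη1
  obtain ⟨X3, hX3⟩ := card_args_le pr 0
  obtain ⟨X4, hX4⟩ := small_num pr 1 1 one_pos
  refine ⟨X1 + X2 + X3 + X4 + 3, ?_⟩
  intro X hX S
  have hu := hX1 X (by omega) S
  have hr := hX2 X (by omega)
  have hc := hX3 X (by omega)
  obtain ⟨hL, hsm, htot0⟩ := hX4 X (by omega)
  have hXr : (3 : ℝ) ≤ X := by exact_mod_cast (by omega : 3 ≤ X)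
  have hXd0 : (0 : ℝ) < (X : ℝ) ^ d := by positivity
  have hsq : √(X : ℝ) ≤ tot pr X := by
    have h1 : √(X : ℝ) ≤ √(X : ℝ) * (1 * Real.log X) := by
      apply le_mul_of_one_le_right (Real.sqrt_nonneg _)
      linarith
    linarith
  -- the number of all arguments in `S`
  have hKS : ((KS pr S X).card : ℝ) ≤ 3 * tot pr X := by
    have h1 : KS pr S X ⊆ KN pr X ∪ Icc 1 ⌊√(X : ℝ)⌋₊ := by
      intro n hn
      unfold KS at hn
      rw [mem_filter, mem_Icc] at hn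
      rw [mem_union, mem_KN, mem_Icc]
      by_cases h2 : √(X : ℝ) < n
      · exact Or.inl ⟨hn.2.1, h2, hn.1.2⟩
      · exact Or.inr ⟨hn.1.1, Nat.le_floor (not_lt.1 h2)⟩
    have h2 := (card_le_card h1).trans (card_union_le _ _)
    rw [Nat.card_Icc, Nat.add_sub_cancel] at h2
    have h3 : ((KS pr S X).card : ℝ) ≤ (KN pr X).card + ⌊√(X : ℝ)⌋₊ := by exact_mod_cast h2
    have h4 := Nat.floor_le (Real.sqrt_nonneg (X : ℝ))
    linarith
  obtain ⟨D, hD⟩ : ∃ D : ℕ → ℝ, ∀ N, D N = ((KS pr S X).filter (fun n : ℕ => ((N : ℤ) + σ * g.eval (n : ℤ)).toNat.Prime)).card * (d * Real.log X) -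
      ∑ n ∈ KS pr S X, thI ((N : ℤ) + σ * g.eval (n : ℤ)) := ⟨_, fun _ => rfl⟩
  have hDsum : ∑ N ∈ Icc 1 (C * X ^ d), |D N| ≤ (3 * tot pr X) * (6 * η * (X : ℝ) ^ d) := by
    have h1 : ∀ N ∈ Icc 1 (C * X ^ d), |D N| ≤ ∑ n ∈ KS pr S X,
        |(if ((N : ℤ) + σ * g.eval (n : ℤ)).toNat.Prime then d * Real.log X else 0) - thI ((N : ℤ) + σ * g.eval (n : ℤ))| := by
      intro N _
      rw [hD, ← nsmul_eq_mul, ← sum_const, sum_filter, ← sum_sub_distrib]
      exact abs_sum_le_sum_abs _ _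
    refine (sum_le_sum h1).trans ?_
    rw [sum_comm]
    calc ∑ n ∈ KS pr S X, ∑ N ∈ Icc 1 (C * X ^ d),
        |(if ((N : ℤ) + σ * g.eval (n : ℤ)).toNat.Prime then d * Real.log X else 0) - thI ((N : ℤ) + σ * g.eval (n : ℤ))|
        ≤ ∑ n ∈ KS pr S X, 6 * η * (X : ℝ) ^ d := by
          apply sum_le_sum
          intro n hn
          unfold KS at hn
          rw [mem_filter, mem_Icc] at hn
          exact hr n hn.1.1 hn.1.2
      _ = (KS pr S X).card * (6 * η * (X : ℝ) ^ d) := by rw [sum_const, nsmul_eq_mul]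
      _ ≤ _ := mul_le_mul_of_nonneg_right hKS (by positivity)
  have hDbad : (((Icc 1 (C * X ^ d)).filter (fun N => ε / 2 * tot pr X < |D N|)).card : ℝ) ≤ ε / 2 * (X : ℝ) ^ d := by
    have h1 : (((Icc 1 (C * X ^ d)).filter (fun N => ε / 2 * tot pr X < |D N|)).card : ℝ) * (ε / 2 * tot pr X) ≤
        (3 * tot pr X) * (6 * η * (X : ℝ) ^ d) := by
      refine le_trans ?_ hDsum
      rw [← nsmul_eq_mul, ← sum_const]
      calc ∑ N ∈ (Icc 1 (C * X ^ d)).filter (fun N => ε / 2 * tot pr X < |D N|), ε / 2 * tot pr X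
          ≤ ∑ N ∈ (Icc 1 (C * X ^ d)).filter (fun N => ε / 2 * tot pr X < |D N|), |D N| := by
            apply sum_le_sum
            intro N hN
            rw [mem_filter] at hN
            exact hN.2.le
        _ ≤ _ := sum_le_sum_of_subset_of_nonneg (filter_subset _ _) (fun _ _ _ => abs_nonneg _)
    have h2 : (3 * tot pr X) * (6 * η * (X : ℝ) ^ d) ≤ (ε / 2 * (X : ℝ) ^ d) * (ε / 2 * tot pr X) := by
      have h3 : 18 * η ≤ ε ^ 2 / 4 := by
        have : 0 < ε ^ 2 := by positivity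
        linarith
      calc (3 * tot pr X) * (6 * η * (X : ℝ) ^ d) = (18 * η) * (tot pr X * (X : ℝ) ^ d) := by ring
        _ ≤ (ε ^ 2 / 4) * (tot pr X * (X : ℝ) ^ d) := mul_le_mul_of_nonneg_right h3 (by positivity)
        _ = _ := by ring
    exact le_of_mul_le_mul_right (h1.trans h2) (by positivity)
  have hsub : (Icc 1 (C * X ^ d)).filter (fun N : ℕ => ε * tot pr X <
        |((KS pr S X).filter (fun n : ℕ => ((N : ℤ) + σ * g.eval (n : ℤ)).toNat.Prime)).card * (d * Real.log X) -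
          (Vz w)⁻¹ * ((KS pr S X).filter (fun n : ℕ =>
          0 < (N : ℤ) + σ * g.eval (n : ℤ) ∧ gd g σ w (N : ZMod (Wp w)) (n : ZMod (Wp w)))).card|) ⊆
      (Icc 1 (C * X ^ d)).filter (fun N : ℕ => ε / 2 * tot pr X <
        |∑ n ∈ KS pr S X, thI ((N : ℤ) + σ * g.eval (n : ℤ)) - (Vz w)⁻¹ * ((KS pr S X).filter (fun n : ℕ =>
          0 < (N : ℤ) + σ * g.eval (n : ℤ) ∧ gd g σ w (N : ZMod (Wp w)) (n : ZMod (Wp w)))).card|) ∪
      (Icc 1 (C * X ^ d)).filter (fun N => ε / 2 * tot pr X < |D N|) := by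
    intro N hN
    rw [mem_filter] at hN
    rw [mem_union, mem_filter, mem_filter]
    by_contra hcon
    push Not at hcon
    have h1 := hcon.1 hN.1
    have h2 := hcon.2 hN.1
    have h3 := hN.2
    rw [hD] at h2
    generalize (∑ n ∈ KS pr S X, thI ((N : ℤ) + σ * g.eval (n : ℤ)) : ℝ) = T at h1 h2
    generalize (((KS pr S X).filter (fun n : ℕ => ((N : ℤ) + σ * g.eval (n : ℤ)).toNat.Prime)).card * (d * Real.log X) : ℝ) = U at h2 h3
    generalize ((Vz w)⁻¹ * ((KS pr S X).filter (fun n : ℕ =>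
          0 < (N : ℤ) + σ * g.eval (n : ℤ) ∧ gd g σ w (N : ZMod (Wp w)) (n : ZMod (Wp w)))).card : ℝ) = Y at h1 h3
    have h4 : |U - Y| ≤ |U - T| + |T - Y| := abs_sub_le _ _ _
    linarith
  have h1 : (((Icc 1 (C * X ^ d)).filter (fun N : ℕ => ε * tot pr X <
        |((KS pr S X).filter (fun n : ℕ => ((N : ℤ) + σ * g.eval (n : ℤ)).toNat.Prime)).card * (d * Real.log X) -
          (Vz w)⁻¹ * ((KS pr S X).filter (fun n : ℕ =>
          0 < (N : ℤ) + σ * g.eval (n : ℤ) ∧ gd g σ w (N : ZMod (Wp w)) (n : ZMod (Wp w)))).card|)).card : ℝ) ≤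
      ((Icc 1 (C * X ^ d)).filter (fun N : ℕ => ε / 2 * tot pr X <
        |∑ n ∈ KS pr S X, thI ((N : ℤ) + σ * g.eval (n : ℤ)) - (Vz w)⁻¹ * ((KS pr S X).filter (fun n : ℕ =>
          0 < (N : ℤ) + σ * g.eval (n : ℤ) ∧ gd g σ w (N : ZMod (Wp w)) (n : ZMod (Wp w)))).card|)).card +
      ((Icc 1 (C * X ^ d)).filter (fun N => ε / 2 * tot pr X < |D N|)).card := by
    exact_mod_cast (card_le_card hsub).trans (card_union_le _ _)
  linarith

end Pool.Agent.TH881.RQ
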