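import Mathlib
import Pool.Agent.TH881.RQ.Sq

/-! Parity obstructions, odd squares, quadratic polynomials at the primes. -/

set_option autoImplicit false

namespace Pool.Agent.TH881.RQ

open Finset Filter Topology Polynomial
open Pool.Agent.TH881
open Pool.Agent.TH881.RG
open Pool.Agent.H373R2.T7
open Pool.Agent.TH914.J2925 (prod_lim Vz_log pz_three nuq_lt two_le_nuq one_le_nuq le_mq evalQ lim_quad C3 C3_pos)
open Pool.Agent.TH914.J2922 (mq_le mq_lt)

lemma card_parity (k e : ℕ) (he : e < 2) : ((range (2 * k)).filter (fun n => n % 2 = e)).card = k := by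
  induction k with
  | zero => simp
  | succ k ih =>
    rw [show 2 * (k + 1) = 2 * k + 1 + 1 by ring, range_add_one, range_add_one, filter_insert, filter_insert]
    have h1 : (2 * k) ∉ (range (2 * k)).filter (fun n => n % 2 = e) := by
      rw [mem_filter, mem_range]
      omega
    have h2 : (2 * k + 1) ∉ (range (2 * k)).filter (fun n => n % 2 = e) := by
      rw [mem_filter, mem_range]
      omega
    interval_cases e
    · rw [if_neg (by omega), if_pos (by omega), card_insert_of_notMem h1, ih]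
    · rw [if_pos (by omega), if_neg (by omega), card_insert_of_notMem h2, ih]

lemma two_dvd_Wp {w : ℕ} (hw : 2 ≤ w) : 2 ∣ Wp w := (prime_dvd_Wp Nat.prime_two).2 hw

/-- only a parity obstruction -/
lemma stAdm_half (pr : Bool) (g : ℤ[X]) (σ : ℤ) (e : ℕ) (he : e < 2)
    (h1 : ∀ p : ℕ, p.Prime → ∀ n : ℕ, n % 2 = e → ∃ r : ℕ, (pr = true → ¬ p ∣ r) ∧ ¬ (p : ℤ) ∣ (n : ℤ) + σ * g.eval (r : ℤ))
    (h2 : ∀ n : ℕ, n % 2 ≠ e → ∀ r : ℕ, (pr = true → ¬ 2 ∣ r) → (2 : ℤ) ∣ (n : ℤ) + σ * g.eval (r : ℤ)) :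
    StAdm pr g σ (1 / 2) := by
  classical
  refine ⟨by norm_num, ?_⟩
  intro w hw
  have hW := Wp_pos w
  have hcast : ∀ t : ZMod (Wp w), (((t.val : ℕ) : ℤ) : ZMod (Wp w)) = t := by
    intro t
    have := ZMod.natCast_zmod_val t
    simpa using this
  have h3 : miss pr g σ w ∅ = univ.filter (fun t : ZMod (Wp w) => t.val % 2 = e) := by
    ext t
    unfold miss sumq
    simp only [mem_filter, mem_univ, true_and]
    constructor
    · rintro ⟨h4, _⟩
      by_contra h5
      apply h4
      have h6 := wtq_eq_zero pr g σ w (t.val : ℤ) 2 Nat.prime_two hw (fun r hr => by exact_mod_cast h2 t.val h5 r hr)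
      rwa [hcast] at h6
    · intro h4
      refine ⟨?_, ?_⟩
      · have h5 := wtq_ne_zero pr g σ w (t.val : ℤ) (fun p hp _ => h1 p hp t.val h4)
        rwa [hcast] at h5
      · rintro ⟨a, ha, _⟩
        exact absurd ha (notMem_empty a)
  have h4 : (univ.filter (fun t : ZMod (Wp w) => t.val % 2 = e)).card = ((range (Wp w)).filter (fun n => n % 2 = e)).card := by
    apply card_bij (fun t _ => t.val)
    · intro t ht
      rw [mem_filter] at ht
      rw [mem_filter, mem_range]
      exact ⟨ZMod.val_lt t, ht.2⟩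
    · intro t _ t' _ h
      exact ZMod.val_injective _ h
    · intro n hn
      rw [mem_filter, mem_range] at hn
      refine ⟨(n : ZMod (Wp w)), ?_, ZMod.val_cast_of_lt hn.1⟩
      rw [mem_filter, ZMod.val_cast_of_lt hn.1]
      exact ⟨mem_univ _, hn.2⟩
  obtain ⟨k, hk⟩ := two_dvd_Wp hw
  rw [h3, h4]
  have h5 : (((range (Wp w)).filter (fun n => n % 2 = e)).card : ℝ) = k := by
    have h6 : ((range (Wp w)).filter (fun n => n % 2 = e)).card = k := by
      rw [hk]
      exact card_parity k e he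
    exact_mod_cast h6
  rw [h5]
  have h6 : (Wp w : ℝ) = 2 * k := by exact_mod_cast hk
  rw [h6]
  ring

/-! ### odd squares -/

/-- the polynomial `(2X+1)²` -/
noncomputable def oddSq : ℤ[X] := 4 * X ^ 2 + 4 * X + 1

lemma oddSq_eval (x : ℤ) : oddSq.eval x = (2 * x + 1) ^ 2 := by
  unfold oddSq
  simp
  ring

lemma oddSq_form : oddSq = C 4 * X ^ 2 + C 4 * X + C 1 := by
  unfold oddSq
  simp

lemma oddSq_natDegree : oddSq.natDegree = 2 := by
  rw [oddSq_form]
  exact natDegree_quadratic (by norm_num)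

lemma oddSq_leadingCoeff : oddSq.leadingCoeff = 4 := by
  rw [oddSq_form]
  exact leadingCoeff_quadratic (by norm_num)

lemma stAdm_oddSq : StAdm false oddSq (-1) (1 / 2) := by
  apply stAdm_half false oddSq (-1) 0 (by norm_num)
  · intro p hp n hn
    by_cases h2 : p = 2
    · refine ⟨0, by simp, ?_⟩
      rw [oddSq_eval, h2]
      push_cast
      omega
    · -- one of the two values `0`, `1` of the square is not congruent to `n`
      have hp3 : 3 ≤ p := by
        have := hp.two_le
        omega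
      by_cases h3 : (p : ℤ) ∣ (n : ℤ) - 1
      · obtain ⟨k, hk⟩ : ∃ k : ℕ, p = 2 * k + 1 := by
          have := hp.eq_two_or_odd
          exact ⟨p / 2, by omega⟩
        refine ⟨k, by simp, ?_⟩
        rw [oddSq_eval]
        intro h4
        have h5 : (2 * (k : ℤ) + 1) = p := by
          rw [hk]
          push_cast
          ring
        rw [h5] at h4
        have h6 : (p : ℤ) ∣ (n : ℤ) := by
          have h7 : (p : ℤ) ∣ (p : ℤ) ^ 2 := dvd_pow_self _ (by norm_num)
          have h8 := dvd_add h4 h7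
          have h9 : (n : ℤ) + -1 * (p : ℤ) ^ 2 + (p : ℤ) ^ 2 = n := by ring
          rwa [h9] at h8
        have h7 := dvd_sub h6 h3
        have h8 : (n : ℤ) - (n - 1) = 1 := by ring
        rw [h8] at h7
        have := Int.le_of_dvd (by norm_num) h7
        omega
      · refine ⟨0, by simp, ?_⟩
        rw [oddSq_eval]
        intro h4
        apply h3
        have h5 : (n : ℤ) + -1 * (2 * ((0 : ℕ) : ℤ) + 1) ^ 2 = n - 1 := by
          push_cast
          ring
        rwa [h5] at h4
  · intro n hn r _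
    rw [oddSq_eval]
    have h3 : (2 * (r : ℤ) + 1) ^ 2 = 2 * (2 * (r : ℤ) ^ 2 + 2 * r) + 1 := by ring
    rw [h3]
    generalize 2 * (r : ℤ) ^ 2 + 2 * r = y
    omega

lemma nuq_oddSq_two (t : ℕ) (h : nuq false oddSq 2 t < Aq false 2) : nuq false oddSq 2 t = 0 := by
  classical
  have h2 : Aq false 2 = 2 := by simp [Aq]
  rw [h2] at h
  by_contra hcon
  have h0 : 0 < nuq false oddSq 2 t := Nat.pos_of_ne_zero hcon
  unfold nuq at h0
  rw [card_pos] at h0
  obtain ⟨a, ha⟩ := h0
  rw [mem_filter] at ha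
  obtain ⟨_, _, h3⟩ := ha
  rw [oddSq_eval] at h3
  have ht1 : (2 : ℤ) ∣ (t : ℤ) - 1 := by
    have h4 : (2 * (a : ℤ) + 1) ^ 2 = 2 * (2 * (a : ℤ) ^ 2 + 2 * a) + 1 := by ring
    rw [h4] at h3
    generalize 2 * (a : ℤ) ^ 2 + 2 * a = y at h3
    push_cast at h3
    omega
  have h5 : 2 ≤ nuq false oddSq 2 t := by
    refine two_le_nuq (a := 0) (b := 1) (by omega) (by omega) (by omega) (by simp) (by simp) ?_ ?_
    · rw [oddSq_eval]
      push_cast
      omega
    · rw [oddSq_eval]
      push_cast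
      omega
  omega

lemma mq_oddSq_two : mq false oddSq 2 = 0 := by
  classical
  unfold mq
  apply (Finset.sup_eq_bot_iff _ _).2
  intro t ht
  rw [mem_filter, mem_range] at ht
  exact nuq_oddSq_two t ht.2

lemma mq_oddSq {p : ℕ} (hp : p.Prime) (h3 : 3 ≤ p) : mq false oddSq p = 2 := by
  have h1 := mq_le false oddSq p hp
  rw [oddSq_natDegree] at h1
  obtain ⟨k, hk⟩ : ∃ k : ℕ, p = 2 * k + 1 := by
    have := hp.eq_two_or_odd
    exact ⟨p / 2, by omega⟩
  have h4 : nuq false oddSq p 1 < Aq false p := by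
    refine nuq_lt hp k (by omega) (by simp) ?_
    rw [oddSq_eval]
    intro h
    have h5 : (2 * (k : ℤ) + 1) = p := by
      rw [hk]
      push_cast
      ring
    rw [h5] at h
    have h7 : (p : ℤ) ∣ (p : ℤ) ^ 2 := dvd_pow_self _ (by norm_num)
    have h8 := dvd_sub h7 h
    have h9 : (p : ℤ) ^ 2 - ((p : ℤ) ^ 2 - ((1 : ℕ) : ℤ)) = 1 := by
      push_cast
      ring
    rw [h9] at h8
    have := Int.le_of_dvd (by norm_num) h8
    omega
  have h5 := le_mq (by omega) h4
  have h6 : 2 ≤ nuq false oddSq p 1 := by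
    refine two_le_nuq (a := 0) (b := p - 1) (by omega) (by omega) (by omega) (by simp) (by simp)
      ?_ ?_
    · rw [oddSq_eval]
      simp
    · rw [oddSq_eval]
      refine ⟨4 * (p : ℤ) - 4, ?_⟩
      rw [Nat.cast_sub (by omega)]
      push_cast
      ring
  omega

lemma Phq_oddSq {w : ℕ} (hw : 2 ≤ w) : Phq (uq false oddSq) w =
    4 * (∏ p ∈ (Icc 3 w).filter Nat.Prime, (1 - 1 / ((p : ℝ) - 1) ^ 2)) * Vz w ^ 2 := by
  unfold Phq Vz
  rw [pz_three hw, pz_three hw]
  have h1 : uq false oddSq 2 = 0 := by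
    unfold uq
    rw [mq_oddSq_two]
    simp
  have h2 : ∏ p ∈ (Icc 3 w).filter Nat.Prime, (1 - uq false oddSq p) =
      (∏ p ∈ (Icc 3 w).filter Nat.Prime, (1 - 1 / ((p : ℝ) - 1) ^ 2)) *
        (∏ p ∈ (Icc 3 w).filter Nat.Prime, (1 - 1 / (p : ℝ))) ^ 2 := by
    rw [← prod_pow, ← prod_mul_distrib]
    refine prod_congr rfl fun p hp => ?_
    rw [mem_filter, mem_Icc] at hp
    have h3 : (3 : ℝ) ≤ p := by exact_mod_cast hp.1.1
    have h4 : (p : ℝ) - 1 ≠ 0 := by linarith
    have h5 : (p : ℝ) ≠ 0 := by linarith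
    unfold uq
    rw [mq_oddSq hp.2 hp.1.1]
    simp only [Aq]
    norm_num
    field_simp
    ring
  rw [h1, h2]
  push_cast
  ring

theorem lim_oddSq : Tendsto (fun w : ℕ => Phq (uq false oddSq) w * Real.log w ^ 2) atTop
    (𝓝 (4 * C2 * Real.exp (-Real.eulerMascheroniConstant) ^ 2)) := by
  have h1 := prod_lim 3 (fun p : ℕ => 1 - 1 / ((p : ℝ) - 1) ^ 2) (by
    intro m hm
    have h3 : (3 : ℝ) ≤ m := by exact_mod_cast hm
    have h5 : (2 : ℝ) ≤ m - 1 := by linarith
    have h6 : (1 : ℝ) ≤ ((m : ℝ) - 1) ^ 2 := by nlinarith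
    constructor
    · rw [sub_nonneg, div_le_one (by positivity)]
      exact h6
    · have : 0 ≤ 1 / ((m : ℝ) - 1) ^ 2 := by positivity
      linarith)
  have h2 := (h1.const_mul 4).mul (Vz_log.pow 2)
  refine h2.congr' ?_
  filter_upwards [eventually_ge_atTop 2] with w hw
  rw [Phq_oddSq hw]
  ring

/-! ### admissible quadratic polynomials at the primes -/

lemma quad_natDegree (b c : ℤ) : (X ^ 2 + C b * X + C c : ℤ[X]).natDegree = 2 := by
  have h : (X ^ 2 + C b * X + C c : ℤ[X]) = C 1 * X ^ 2 + C b * X + C c := by simp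
  rw [h]
  exact natDegree_quadratic (by norm_num)

lemma quad_leadingCoeff (b c : ℤ) : (X ^ 2 + C b * X + C c : ℤ[X]).leadingCoeff = 1 := by
  have h : (X ^ 2 + C b * X + C c : ℤ[X]) = C 1 * X ^ 2 + C b * X + C c := by simp
  rw [h]
  exact leadingCoeff_quadratic (by norm_num)

lemma stAdm_quad (σ : ℤ) (hσ : σ = 1 ∨ σ = -1) (b c : ℤ) (h3 : ¬ (3 : ℤ) ∣ b) (hbc : Odd (b + c)) :
    StAdm true (X ^ 2 + C b * X + C c : ℤ[X]) σ (1 / 2) := by
  have hodd : ∀ r : ℕ, ¬ 2 ∣ r → (2 : ℤ) ∣ (r : ℤ) ^ 2 + b * r + c := by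
    intro r hr
    obtain ⟨k, hk⟩ := hbc
    obtain ⟨j, hj⟩ : ∃ j : ℕ, r = 2 * j + 1 := ⟨r / 2, by omega⟩
    rw [hj]
    refine ⟨2 * (j : ℤ) ^ 2 + 2 * j + b * j + k + 1, ?_⟩
    have hc : c = 2 * k + 1 - b := by linarith
    rw [hc]
    push_cast
    ring
  apply stAdm_half true _ σ 1 (by norm_num)
  · intro p hp n hn
    by_cases h2 : p = 2
    · refine ⟨1, by rw [h2]; simp, ?_⟩
      rw [evalQ, h2]
      have h4 := hodd 1 (by norm_num)
      intro h5
      rcases hσ with h | h
      · rw [h] at h5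
        push_cast at h5 h4
        omega
      · rw [h] at h5
        push_cast at h5 h4
        omega
    · by_contra hcon
      push Not at hcon
      have hp3 : 3 ≤ p := by
        have := hp.two_le
        omega
      have key : ∀ r : ℕ, ¬ p ∣ r → (p : ℤ) ∣ (n : ℤ) + σ * ((r : ℤ) ^ 2 + b * r + c) := by
        intro r hr
        have h4 := hcon r (fun _ => hr)
        rwa [evalQ] at h4
      have k1 := key 1 (fun h => by have := Nat.le_of_dvd (by norm_num) h; omega)
      have k2 := key 2 (fun h => by have := Nat.le_of_dvd (by norm_num) h; omega)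
      have hdiff : ∀ x y : ℤ, (p : ℤ) ∣ (n : ℤ) + σ * x → (p : ℤ) ∣ (n : ℤ) + σ * y → (p : ℤ) ∣ x - y := by
        intro x y hx hy
        have h4 := dvd_sub hx hy
        rcases hσ with h | h
        · rw [h] at h4
          have h5 : (n : ℤ) + 1 * x - (n + 1 * y) = x - y := by ring
          rwa [h5] at h4
        · rw [h] at h4
          have h5 : (n : ℤ) + -1 * x - (n + -1 * y) = -(x - y) := by ring
          rw [h5] at h4
          exact (dvd_neg.1 h4)
      have h21 := hdiff _ _ k2 k1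
      have e21 : ((2 : ℕ) : ℤ) ^ 2 + b * ((2 : ℕ) : ℤ) + c - (((1 : ℕ) : ℤ) ^ 2 + b * ((1 : ℕ) : ℤ) + c) = 3 + b := by
        push_cast
        ring
      rw [e21] at h21
      by_cases h33 : p = 3
      · rw [h33] at h21
        apply h3
        push_cast at h21
        omega
      · have hp5 : 5 ≤ p := by
          have h4 : p ≠ 4 := by
            rintro rfl
            exact absurd hp (by norm_num)
          omega
        have k3 := key 3 (fun h => by have := Nat.le_of_dvd (by norm_num) h; omega)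
        have h32 := hdiff _ _ k3 k2
        have e32 : ((3 : ℕ) : ℤ) ^ 2 + b * ((3 : ℕ) : ℤ) + c - (((2 : ℕ) : ℤ) ^ 2 + b * ((2 : ℕ) : ℤ) + c) = 5 + b := by
          push_cast
          ring
        rw [e32] at h32
        have h4 := dvd_sub h32 h21
        have h5 : (5 : ℤ) + b - (3 + b) = 2 := by ring
        rw [h5] at h4
        have := Int.le_of_dvd (by norm_num) h4
        omega
  · intro n hn r hr
    rw [evalQ]
    have h4 := hodd r (hr rfl)
    rcases hσ with h | h
    · rw [h]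
      omega
    · rw [h]
      omega

end Pool.Agent.TH881.RQ
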