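import Mathlib
import Pool.Agent.TH881.RQ.Odd

/-! Reformulations of the definitions. -/

set_option autoImplicit false

namespace Pool.Agent.TH881.RQ

open Finset Filter Topology Polynomial
open Pool.Agent.TH881
open Pool.Agent.TH881.RG
open Pool.Agent.H373R2.T7

lemma relq_false (A : Set ℕ) : relq false A = lowerDensity A := by
  unfold relq lowerDensity
  congr 1
  ext x
  have h1 : {n | isArg false n ∧ n ∈ A} = A := by
    ext n
    constructor
    · exact fun h => h.2
    · exact fun h => ⟨fun h => absurd h (by simp), h⟩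
  have h2 : cnt {n | isArg false n} x = x := by
    apply cnt_full
    intro a _ h
    exact absurd h (by simp)
  rw [h1, h2]

lemma relq_true (A : Set ℕ) : relq true A = relLower A := by
  unfold relq relLower
  congr 1
  ext x
  have h1 : {n | isArg true n ∧ n ∈ A} = {p | p.Prime ∧ p ∈ A} := by
    ext n
    constructor
    · exact fun h => ⟨h.1 rfl, h.2⟩
    · exact fun h => ⟨fun _ => h.1, h.2⟩
  have h2 : {n | isArg true n} = {p : ℕ | p.Prime} := by
    ext n
    constructor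
    · exact fun h => h rfl
    · exact fun h _ => h
  rw [h1, h2]

lemma gv_oddSq (w : ℕ) (a : ZMod (Wp w)) : gv oddSq w a = (2 * a + 1) ^ 2 := by
  have h := gv_cast oddSq w a.val
  rw [ZMod.natCast_zmod_val] at h
  rw [h, oddSq_eval]
  push_cast
  rw [ZMod.natCast_zmod_val]

lemma gv_quad (b c : ℤ) (w : ℕ) (a : ZMod (Wp w)) : gv (X ^ 2 + C b * X + C c : ℤ[X]) w a = a ^ 2 + b * a + c := by
  have h := gv_cast (X ^ 2 + C b * X + C c : ℤ[X]) w a.val
  rw [ZMod.natCast_zmod_val] at h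
  rw [h, Pool.Agent.TH914.J2925.evalQ]
  push_cast
  rw [ZMod.natCast_zmod_val]

lemma C2_pos : 0 < C2 := by
  have h1 := D_pos
  have h2 := Real.exp_pos (-Real.eulerMascheroniConstant)
  by_contra h
  push Not at h
  have := mul_nonpos_of_nonpos_of_nonneg h h2.le
  linarith

lemma gd_oddSq (w : ℕ) (t a : ZMod (Wp w)) : gd oddSq (-1) w t a ↔ IsUnit (t - (2 * a + 1) ^ 2) := by
  unfold gd
  rw [gv_oddSq]
  have h2 : t + ((-1 : ℤ) : ZMod (Wp w)) * (2 * a + 1) ^ 2 = t - (2 * a + 1) ^ 2 := by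
    push_cast
    ring
  rw [h2]

lemma gd_quad (b c : ℤ) (w : ℕ) (t a : ZMod (Wp w)) :
    gd (X ^ 2 + C b * X + C c : ℤ[X]) (-1) w t a ↔ IsUnit (t - (a ^ 2 + b * a + c)) := by
  unfold gd
  rw [gv_quad]
  have h2 : t + ((-1 : ℤ) : ZMod (Wp w)) * (a ^ 2 + b * a + c) = t - (a ^ 2 + b * a + c) := by
    push_cast
    ring
  rw [h2]

open Classical in
lemma sumq_oddSq (w : ℕ) (B : Finset (ZMod (Wp w))) :
    sumq oddSq (-1) w B = univ.filter (fun t => ∃ a ∈ B, IsUnit (t - (2 * a + 1) ^ 2)) := by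
  unfold sumq
  apply filter_congr
  intro t _
  constructor
  · rintro ⟨a, ha, h⟩
    exact ⟨a, ha, (gd_oddSq w t a).1 h⟩
  · rintro ⟨a, ha, h⟩
    exact ⟨a, ha, (gd_oddSq w t a).2 h⟩

open Classical in
lemma sumq_quad (b c : ℤ) (w : ℕ) (B : Finset (ZMod (Wp w))) :
    sumq (X ^ 2 + C b * X + C c : ℤ[X]) (-1) w B =
      univ.filter (fun t => ∃ a ∈ B, IsUnit (t - (a ^ 2 + b * a + c))) := by
  unfold sumq
  apply filter_congr
  intro t _
  constructor
  · rintro ⟨a, ha, h⟩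
    exact ⟨a, ha, (gd_quad b c w t a).1 h⟩
  · rintro ⟨a, ha, h⟩
    exact ⟨a, ha, (gd_quad b c w t a).2 h⟩

end Pool.Agent.TH881.RQ
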